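import Pool.Agent.MP_037c5a_pr.TL.Defs

namespace Pool.Agent.MP_037c5a_pr.TL

/-- the hypothesis of the hand-in `PerturbedTrace` -/
def Near {X : Type} [MetricSpace X] (β : NNReal → E) (u v : NNReal) (γ : NNReal → X) (C : ℝ) :
    Prop :=
  ∀ ε : ℝ, 0 < ε → ∃ δ : ℝ, 0 < δ ∧ ∀ s ∈ Set.Icc u v, ∀ t ∈ Set.Icc u v, dist s t ≤ δ →
    dist (γ s) (γ t) ≤ C * dist (β s) (β t) + ε * Real.sqrt (dist s t) ∧
    dist (β s) (β t) ≤ C * dist (γ s) (γ t) + ε * Real.sqrt (dist s t)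

/-- the trace itself -/
theorem near_self (β : NNReal → E) (u v : NNReal) : Near β u v β 1 := fun ε hε =>
  ⟨1, one_pos, fun s _ t _ _ => by
    have : 0 ≤ ε * Real.sqrt (dist s t) := by positivity
    constructor <;> linarith⟩

/-- the graph in Euclidean three-space -/
theorem near_graph (β : NNReal → E) (u v : NNReal) :
    Near β u v (fun t => (WithLp.toLp 2 ![β t 0, β t 1, (t : ℝ)] : EuclideanSpace ℝ (Fin 3))) 1 := by
  intro ε hε
  refine ⟨ε ^ 2, by positivity, fun s _ t _ h => ?_⟩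
  have h0 : 0 ≤ dist s t := dist_nonneg
  have h1 : Real.sqrt (dist s t) ≤ ε := Real.sqrt_le_iff.2 ⟨hε.le, h⟩
  have h2 : dist s t ≤ ε * Real.sqrt (dist s t) := by
    nlinarith [Real.mul_self_sqrt h0, Real.sqrt_nonneg (dist s t)]
  have e : dist (WithLp.toLp 2 ![β s 0, β s 1, (s : ℝ)] : EuclideanSpace ℝ (Fin 3))
      (WithLp.toLp 2 ![β t 0, β t 1, (t : ℝ)]) ^ 2 = dist (β s) (β t) ^ 2 + dist s t ^ 2 := by
    rw [EuclideanSpace.dist_eq, EuclideanSpace.dist_eq, Real.sq_sqrt (by positivity),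
      Real.sq_sqrt (by positivity)]
    simp [Fin.sum_univ_three, Fin.sum_univ_two, NNReal.dist_eq, Real.dist_eq]
  have h3 := dist_nonneg (x := β s) (y := β t)
  have h4 := dist_nonneg (x := (WithLp.toLp 2 ![β s 0, β s 1, (s : ℝ)] : EuclideanSpace ℝ (Fin 3)))
    (y := WithLp.toLp 2 ![β t 0, β t 1, (t : ℝ)])
  constructor
  · have := abs_le_of_sq_le_sq' (b := dist (β s) (β t) + dist s t) (e.le.trans (by nlinarith))
      (by positivity)
    linarith [this.2]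
  · have := abs_le_of_sq_le_sq' (a := dist (β s) (β t)) (le_of_le_of_eq (by nlinarith) e.symm) h4
    linarith [this.2]

/-- a drift of modulus `o(|s-t|^(1/2))` -/
theorem near_drift (β h : NNReal → E) (u v : NNReal)
    (hh : ∀ ε : ℝ, 0 < ε → ∃ δ : ℝ, 0 < δ ∧ ∀ s ∈ Set.Icc u v, ∀ t ∈ Set.Icc u v, dist s t ≤ δ →
      dist (h s) (h t) ≤ ε * Real.sqrt (dist s t)) : Near β u v (fun t => β t + h t) 1 := by
  intro ε hε
  obtain ⟨δ, hδ, H⟩ := hh ε hε
  refine ⟨δ, hδ, fun s hs t ht hd => ?_⟩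
  have h1 := H s hs t ht hd
  have h2 := dist_add_add_le (β s) (h s) (β t) (h t)
  have h3 := dist_sub_sub_le (β s + h s) (h s) (β t + h t) (h t)
  rw [add_sub_cancel_right, add_sub_cancel_right] at h3
  constructor <;> linarith

end Pool.Agent.MP_037c5a_pr.TL
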