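import Pool.Agent.Mg.S19113.Gff131d

open MeasureTheory Finset

namespace Pool.Agent.MP_037c5a_pr.TL

/-- a block of `j` ordinary levels in absolute coordinates (centre `x`, scale `r`, height `N`);
`leaf` holds at the bottom nodes -/
def GB (P : Par) (leaf : E → ℝ → Prop) : ℕ → E → ℝ → ℕ → Prop
  | 0, x, r, _ => leaf x r
  | j + 1, x, r, N => ∃ o : E, ‖o‖ ≤ 1 / 2 ∧
      ((∃ n : ℕ → ℕ → ℕ,
          (∀ a ≤ P.K, ∀ b ≤ P.K,
            GB P leaf j (x + r • (o + (8 * P.D / P.R) • gridPt a b)) (r * P.R⁻¹) (n a b)) ∧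
          (EnGe P.K (fun a b => P.pot (n a b)) (P.tau * P.pot N) ∨
            EnGe P.K (fun a b => P.pot (n b a)) (P.tau * P.pot N))) ∨
        (∃ N' : ℕ, GB P leaf j (x + r • o) (r * P.R⁻¹) N' ∧ P.G * P.pot N ≤ P.pot N'))

/-- tree parameters, reset ratio `M`, block length `L`, height `N` of block roots -/
structure RP where
  P : Par
  M : ℝ
  L : ℕ
  N : ℕ

/-- trees of `b` blocks; inside a block the plane `ι τ` is fixed, a reset changes it -/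
def GV (Q : RP) {I V : Type} [MetricSpace V] (ι : I → E → V) (S : Set V) :
    ℕ → I → E → ℝ → Prop
  | 0, τ, x, r => ∃ p ∈ S, dist p (ι τ x) ≤ 2 * Q.P.D * r
  | b + 1, τ, x, r => GB Q.P (fun x' r' => (∃ p ∈ S, dist p (ι τ x') ≤ 2 * Q.P.D * r') ∧
      ∃ (τ' : I) (x'' : E), dist (ι τ' x'') (ι τ x') ≤ 7 / 4 * Q.P.D * r' ∧
        GV Q ι S b τ' x'' (r' * Q.M⁻¹)) Q.L x r Q.N

structure RPOK (k : ℕ) (Q : RP) : Prop where
  par : ParOK k Q.P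
  hM : Q.P.R ≤ Q.M
  hL : Q.M ^ k ≤ 2 ^ Q.L * Q.P.pot Q.N

/-- each `ι τ` is a 1-Lipschitz embedding of the plane whose inverse is `Λ`-Lipschitz -/
def BL (Λ : ℝ) {I V : Type} [MetricSpace V] (ι : I → E → V) : Prop :=
  ∀ τ x y, dist (ι τ x) (ι τ y) ≤ dist x y ∧ dist x y ≤ Λ * dist (ι τ x) (ι τ y)

/-- deterministic half -/
def StmtDetV : Prop :=
  ∀ (I V : Type) [MetricSpace V] (ι : I → E → V) (Λ : ℝ), 1 ≤ Λ → BL Λ ι →
    ∀ (S : Set V), IsCompact S → ∀ ρ₀ : ℝ, 0 < ρ₀ →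
    (∀ x ∈ S, ∀ ρ : ℝ, 0 < ρ → ρ ≤ ρ₀ → ∃ y ∈ S, dist y x = ρ) →
    ∀ (Y : Type) [MetricSpace Y] (f : S → Y) (η : ℝ → ℝ),
      Function.Injective f → StrictMonoOn η (Set.Ici 0) → ContinuousOn η (Set.Ici 0) → η 0 = 0 →
      (∀ x a b : S, a ≠ b → dist (f x) (f a) ≤ η (dist x a / dist b a) * dist (f b) (f a)) →
      ∀ s : ℝ, 0 < s → s < 2 →
        ∃ k : ℕ, 1 ≤ k ∧ ∀ Q : RP, RPOK k Q → ∀ r : ℝ, 0 < r → 16 * Q.P.D * r ≤ ρ₀ →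
          (∃ᶠ b in Filter.atTop, ∃ (τ : I) (x : E), GV Q ι S b τ x r) →
          ENNReal.ofReal s ≤ dimH (Set.range f)

/-- the walk `ξ 0, …, ξ m` carries a tree of `b` blocks in every slowly moving plane -/
def Tree (Q : RP) (b m : ℕ) (ξ : ℕ → E) : Prop :=
  ∀ (I V : Type) [MetricSpace V] (ι : I → E → V) (S : Set V) (tm : ℕ → I) (σ : ℝ), 0 < σ →
    (∀ τ x y, dist (ι τ x) (ι τ y) ≤ dist x y) → (∀ j ≤ m, ι (tm j) (σ • ξ j) ∈ S) →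
    (∀ i j : ℕ, i ≤ j → j ≤ m → ∀ x : E, dist (ι (tm j) x) (ι (tm i) x) ≤
      (2 * Q.M * Q.P.R ^ Q.L)⁻¹ * (σ * Real.sqrt ((j : ℝ) - i))) →
    ∃ x : E, dist x (σ • ξ 0) ≤ σ * Real.sqrt m ∧
      GV Q ι S b (tm 0) x (σ * Real.sqrt m * Q.M⁻¹)

/-- probabilistic half, on the canonical space of standard Gaussian steps -/
def StmtProbV : Prop :=
  ∀ k : ℕ, 1 ≤ k → ∃ Q : RP, RPOK k Q ∧ ∃ p : ℝ, 0 < p ∧
    ∀ b : ℕ, ∃ m : ℕ, 0 < m ∧ ∃ F : Set (Fin m → E), MeasurableSet F ∧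
      ENNReal.ofReal p ≤ (Measure.pi fun _ : Fin m => gam) F ∧
      ∀ ξ : ℕ → E, (fun i : Fin m => ξ (i + 1) - ξ i) ∈ F → Tree Q b m ξ

/-- a dense sequence in the plane -/
noncomputable def dS : ℕ → E := TopologicalSpace.denseSeq E

/-- one segment from `0` to `c` has the property `Ψ` up to probability `δ` -/
def Seg (g : Glob) (𝓜 : Model) (Ψ : Set E → Prop) (δ : ENNReal) : Prop :=
  ∀ c : E, ‖c‖ ≤ 2 * g.D → 𝓜.μ {ω | ¬ Ψ (Set.range fun a => 𝓜.pt a c ω)} ≤ δ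

/-- reset: a single bridge contains, near its start, a slow stretch of `n₀` steps that wins -/
def StmtReset : Prop :=
  ∀ (hC : StmtChain) (g : Glob) (n₀ : ℕ) (h δ M₀ : ℝ), 1 ≤ g.q0 → 4 * g.q0 ≤ g.q → 1 ≤ g.D →
    0 < n₀ → h ≤ n₀ / 20 → (n₀ : ℝ) ≤ g.W → 0 < δ → δ ≤ 1 / 2 →
    ∃ (k : ℕ) (M : ℝ), M₀ ≤ M ∧ 0 < M ∧ M ^ 2 = k + 1 ∧
      ∀ (𝓜 : Model) (Φ : Set E → Prop), MeasPred Φ → MonoPred Φ →
        Win g 𝓜 Φ h (ENNReal.ofReal δ) →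
        Seg g (refine hC k M 𝓜) (fun T => ∃ n : ℕ, ‖dS n‖ ≤ 1 ∧ Φ (zoom T (dS n) M⁻¹))
          (ENNReal.ofReal δ)

/-- every quasisymmetric image of `S` has Hausdorff dimension at least two -/
def CD2 {V : Type} [MetricSpace V] (S : Set V) : Prop :=
  ∀ (Y : Type) [MetricSpace Y] (f : S → Y) (η : ℝ → ℝ),
    Function.Injective f → StrictMonoOn η (Set.Ici 0) → ContinuousOn η (Set.Ici 0) → η 0 = 0 →
    (∀ x a b : S, a ≠ b → dist (f x) (f a) ≤ η (dist x a / dist b a) * dist (f b) (f a)) →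
    (2 : ENNReal) ≤ dimH (Set.range f)

/-- the moving plane theorem -/
def StmtMain : Prop :=
  ∀ (Ω : Type) [MeasurableSpace Ω] (P : Measure Ω) [IsProbabilityMeasure P]
    (B : Fin 2 → NNReal → Ω → ℝ),
    (∀ i ω, Continuous (fun t => B i t ω)) →
    (∀ i, ∀ s t : NNReal, s ≤ t →
      P.map (fun ω => B i t ω - B i s ω) = ProbabilityTheory.gaussianReal 0 (t - s)) →
    (∀ i (n : ℕ) (τ : Fin (n + 1) → NNReal), Monotone τ →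
      ProbabilityTheory.iIndepFun
        (fun (k : Fin n) (ω : Ω) => B i (τ k.succ) ω - B i (τ k.castSucc) ω) P) →
    ProbabilityTheory.IndepFun (fun ω t => B 0 t ω) (fun ω t => B 1 t ω) P →
    ∀ᵐ ω ∂P, ∀ (V : Type) [MetricSpace V] (ι : NNReal → E → V) (Λ : ℝ), 1 ≤ Λ → BL Λ ι →
      (∀ ε : ℝ, 0 < ε → ∃ δ : ℝ, 0 < δ ∧ ∀ s t : NNReal, s ≤ t → t ≤ 1 → (t : ℝ) - s ≤ δ →
        ∀ x : E, dist (ι t x) (ι s x) ≤ ε * Real.sqrt ((t : ℝ) - s)) →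
      CD2 ((fun t : NNReal => ι t (Fi.Bv B ω t)) '' Set.Icc 0 1)

end Pool.Agent.MP_037c5a_pr.TL
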