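import Pool.Agent.MP_037c5a_pr.TL.Defs
import Pool.Agent.Mg.S19113.G2e4269

open MeasureTheory Finset

namespace Pool.Agent.MP_037c5a_pr.TL

namespace Det

variable {V : Type} [MetricSpace V]

structure QS (S : Set V) (ρ₀ : ℝ) {Y : Type} [MetricSpace Y] (f : S → Y) (η : ℝ → ℝ) : Prop where
  cpt : IsCompact S
  pos : 0 < ρ₀
  perf : ∀ x ∈ S, ∀ ρ : ℝ, 0 < ρ → ρ ≤ ρ₀ → ∃ y ∈ S, dist y x = ρ
  inj : Function.Injective f
  mono : StrictMonoOn η (Set.Ici 0)
  cont : ContinuousOn η (Set.Ici 0)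
  zero : η 0 = 0
  qs : ∀ x a b : S, a ≠ b → dist (f x) (f a) ≤ η (dist x a / dist b a) * dist (f b) (f a)

/-- diameter of the image of the part of `S` in a closed ball -/
noncomputable def dd {S : Set V} {Y : Type} [MetricSpace Y] (f : S → Y) (x : V) (ρ : ℝ) : ℝ :=
  Metric.diam (f '' {q : S | dist (q : V) x ≤ ρ})

section
variable {S : Set V} {ρ₀ : ℝ} {Y : Type} [MetricSpace Y] {f : S → Y} {η : ℝ → ℝ}

theorem dd_nonneg (f : S → Y) (x : V) (ρ : ℝ) : 0 ≤ dd f x ρ := Metric.diam_nonneg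

theorem QS.eta_mono (h : QS S ρ₀ f η) {a b : ℝ} (ha : 0 ≤ a) (hab : a ≤ b) : η a ≤ η b :=
  h.mono.monotoneOn ha (le_trans ha hab) hab

theorem QS.eta_nonneg (h : QS S ρ₀ f η) {a : ℝ} (ha : 0 ≤ a) : 0 ≤ η a := by
  have := h.eta_mono le_rfl ha
  rwa [h.zero] at this

theorem QS.exists_diam (h : QS S ρ₀ f η) : ∃ C : ℝ, 0 ≤ C ∧ ∀ x ∈ S, ∀ y ∈ S, dist x y ≤ C :=
  ⟨Metric.diam S, Metric.diam_nonneg, fun _ hx _ hy =>
    Metric.dist_le_diam_of_mem h.cpt.isBounded hx hy⟩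

theorem QS.dist_le (h : QS S ρ₀ f η) {p p' q : S} (hne : p ≠ p') {t : ℝ}
    (hq : dist (q : V) p ≤ t * dist (p' : V) p) :
    dist (f q) (f p) ≤ η t * dist (f p') (f p) := by
  have hd : 0 < dist p' p := dist_pos.mpr hne.symm
  refine (h.qs q p p' hne).trans (mul_le_mul_of_nonneg_right ?_ dist_nonneg)
  refine h.eta_mono (div_nonneg dist_nonneg dist_nonneg) ?_
  rw [div_le_iff₀ hd]
  exact hq

theorem QS.bdd (h : QS S ρ₀ f η) : Bornology.IsBounded (Set.range f) := by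
  rcases S.eq_empty_or_nonempty with hS | ⟨a, ha⟩
  · have : IsEmpty S := by rw [hS]; infer_instance
    rw [Set.range_eq_empty]
    exact Bornology.isBounded_empty
  · obtain ⟨b, hb, hab⟩ := h.perf a ha ρ₀ h.pos le_rfl
    obtain ⟨C, hC0, hC⟩ := h.exists_diam
    have hne : (⟨a, ha⟩ : S) ≠ ⟨b, hb⟩ := by
      intro e
      have : a = b := congrArg Subtype.val e
      rw [this, dist_self] at hab
      exact absurd hab h.pos.ne
    refine (Metric.isBounded_closedBall (x := f ⟨a, ha⟩)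
      (r := η (C / ρ₀) * dist (f ⟨b, hb⟩) (f ⟨a, ha⟩))).subset ?_
    rintro _ ⟨q, rfl⟩
    rw [Metric.mem_closedBall]
    refine h.dist_le hne ?_
    simp only
    rw [hab, div_mul_cancel₀ _ h.pos.ne']
    exact hC _ q.2 _ ha

theorem QS.bdd_im (h : QS S ρ₀ f η) (A : Set S) : Bornology.IsBounded (f '' A) :=
  h.bdd.subset (Set.image_subset_range _ _)

theorem QS.dist_le_dd (h : QS S ρ₀ f η) {x : V} {ρ : ℝ} {q q' : S} (hq : dist (q : V) x ≤ ρ)
    (hq' : dist (q' : V) x ≤ ρ) : dist (f q) (f q') ≤ dd f x ρ :=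
  Metric.dist_le_diam_of_mem (h.bdd_im _) ⟨q, hq, rfl⟩ ⟨q', hq', rfl⟩

theorem QS.dd_mono (h : QS S ρ₀ f η) {x x' : V} {ρ ρ' : ℝ} (hx : dist x' x + ρ' ≤ ρ) :
    dd f x' ρ' ≤ dd f x ρ := by
  refine Metric.diam_mono (Set.image_mono ?_) (h.bdd_im _)
  intro q hq
  have h1 : dist (q : V) x' ≤ ρ' := hq
  have h2 := dist_triangle (q : V) x' x
  show dist (q : V) x ≤ ρ
  linarith

theorem QS.dd_mono' (h : QS S ρ₀ f η) (x : V) {ρ ρ' : ℝ} (hx : ρ' ≤ ρ) :
    dd f x ρ' ≤ dd f x ρ := h.dd_mono (by rw [dist_self]; linarith)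

theorem QS.dd_le_of_ne (h : QS S ρ₀ f η) {p p' : S} (hne : p ≠ p') {t ρ : ℝ} (ht : 0 ≤ t)
    (hρ : ρ ≤ t * dist (p' : V) p) : dd f p ρ ≤ 2 * η t * dist (f p') (f p) := by
  have h0 := h.eta_nonneg ht
  refine Metric.diam_le_of_forall_dist_le (by positivity) ?_
  rintro _ ⟨q, hq, rfl⟩ _ ⟨q', hq', rfl⟩
  have h1 := h.dist_le hne (q := q) (le_trans hq hρ)
  have h2 := h.dist_le hne (q := q') (le_trans hq' hρ)
  have h3 := dist_triangle_right (f q) (f q') (f p)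
  linarith

theorem QS.dd_scale (h : QS S ρ₀ f η) (p : S) {t ρ ρ' : ℝ} (hρ : 0 < ρ) (hρ0 : ρ ≤ ρ₀) (ht : 0 ≤ t)
    (hρ' : ρ' ≤ t * ρ) : dd f p ρ' ≤ 2 * η t * dd f p ρ := by
  obtain ⟨y, hy, hd⟩ := h.perf p p.2 ρ hρ hρ0
  have hne : p ≠ ⟨y, hy⟩ := by
    intro e
    have : (p : V) = y := congrArg Subtype.val e
    rw [← this, dist_self] at hd
    exact absurd hd hρ.ne
  have h1 := h.dd_le_of_ne hne ht (ρ := ρ') (by simpa only [hd] using hρ')
  have h2 : dist (f ⟨y, hy⟩) (f p) ≤ dd f p ρ :=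
    h.dist_le_dd (le_of_eq hd) (by rw [dist_self]; exact hρ.le)
  have h0 := h.eta_nonneg ht
  exact h1.trans (mul_le_mul_of_nonneg_left h2 (by positivity))

theorem QS.exists_dbl (h : QS S ρ₀ f η) : ∃ b : ℕ, ∀ (p : S) (ρ u : ℝ), 0 < ρ → ρ ≤ ρ₀ → 1 ≤ u →
    dd f p (2 * ρ) ≤ (4 * u) ^ b * dd f p (ρ / u) := by
  obtain ⟨b, hb⟩ := pow_unbounded_of_one_lt (2 * η 2) (one_lt_two (α := ℝ))
  refine ⟨b, fun p ρ u hρ hρ0 hu => ?_⟩
  have key : ∀ (j : ℕ) (σ : ℝ), 0 < σ → 2 ^ j * σ ≤ ρ₀ →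
      dd f p (2 ^ (j + 1) * σ) ≤ (2 ^ (j + 1)) ^ b * dd f p σ := by
    intro j
    induction j with
    | zero =>
      intro σ hσ hσ0
      have := h.dd_scale p (t := 2) (ρ := σ) (ρ' := 2 ^ (0 + 1) * σ) hσ (by simpa using hσ0)
        (by norm_num) (by simp)
      refine this.trans (mul_le_mul_of_nonneg_right ?_ (dd_nonneg _ _ _))
      simpa using hb.le
    | succ j ih =>
      intro σ hσ hσ0
      have hp : (0 : ℝ) < 2 ^ j * σ := by positivity
      have h1 := ih σ hσ (by rw [pow_succ] at hσ0; linarith)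
      have h2 := h.dd_scale p (t := 2) (ρ := 2 ^ (j + 1) * σ) (ρ' := 2 ^ (j + 1 + 1) * σ)
        (by positivity) hσ0 (by norm_num) (by rw [pow_succ (2 : ℝ) (j + 1)]; linarith)
      have h3 : 2 * η 2 * dd f p (2 ^ (j + 1) * σ) ≤ 2 ^ b * dd f p (2 ^ (j + 1) * σ) :=
        mul_le_mul_of_nonneg_right hb.le (dd_nonneg _ _ _)
      have h4 : (2 : ℝ) ^ b * dd f p (2 ^ (j + 1) * σ) ≤ 2 ^ b * ((2 ^ (j + 1)) ^ b * dd f p σ) :=
        mul_le_mul_of_nonneg_left h1 (by positivity)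
      calc dd f p (2 ^ (j + 1 + 1) * σ) ≤ 2 ^ b * ((2 ^ (j + 1)) ^ b * dd f p σ) := by linarith
        _ = (2 ^ (j + 1 + 1)) ^ b * dd f p σ := by rw [pow_succ (2 : ℝ) (j + 1), mul_pow]; ring
  obtain ⟨j, hj1, hj2⟩ := exists_nat_pow_near hu (one_lt_two (α := ℝ))
  have hu0 : 0 < u := by linarith
  have hσ : 0 < ρ / u := div_pos hρ hu0
  have e1 : 2 ^ j * (ρ / u) ≤ ρ := by
    rw [← mul_div_assoc, div_le_iff₀ hu0]; nlinarith
  have e2 : ρ ≤ 2 ^ (j + 1) * (ρ / u) := by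
    rw [← mul_div_assoc, le_div_iff₀ hu0]; nlinarith
  have h1 := key j (ρ / u) hσ (e1.trans hρ0)
  have h2 := h.dd_scale p (t := 2) (ρ := ρ) (ρ' := 2 * ρ) hρ hρ0 (by norm_num) le_rfl
  have h3 : 2 * η 2 * dd f p ρ ≤ 2 ^ b * dd f p ρ :=
    mul_le_mul_of_nonneg_right hb.le (dd_nonneg _ _ _)
  have h4 : dd f p ρ ≤ (2 * u) ^ b * dd f p (ρ / u) := by
    refine ((h.dd_mono' _ e2).trans h1).trans (mul_le_mul_of_nonneg_right ?_ (dd_nonneg _ _ _))
    refine pow_le_pow_left₀ (by positivity) ?_ _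
    rw [pow_succ]; linarith
  calc dd f p (2 * ρ) ≤ 2 ^ b * dd f p ρ := by linarith
    _ ≤ 2 ^ b * ((2 * u) ^ b * dd f p (ρ / u)) := mul_le_mul_of_nonneg_left h4 (by positivity)
    _ = (4 * u) ^ b * dd f p (ρ / u) := by
      rw [← mul_assoc, ← mul_pow]; congr 2; ring

theorem QS.exists_eta_small (h : QS S ρ₀ f η) {ε : ℝ} (hε : 0 < ε) :
    ∃ t : ℝ, 0 < t ∧ t < 1 ∧ η t ≤ ε := by
  have hc := h.cont 0 (Set.mem_Ici.mpr le_rfl)
  rw [Metric.continuousWithinAt_iff] at hc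
  obtain ⟨δ, hδ, hh⟩ := hc ε hε
  refine ⟨min (δ / 2) (1 / 2), by positivity, lt_of_le_of_lt (min_le_right _ _) (by norm_num), ?_⟩
  have hpos : 0 < min (δ / 2) (1 / 2) := by positivity
  have := hh (x := min (δ / 2) (1 / 2)) hpos.le (by
    rw [Real.dist_eq, sub_zero, abs_of_pos hpos]
    exact lt_of_le_of_lt (min_le_left _ _) (by linarith))
  rw [h.zero, Real.dist_eq, sub_zero] at this
  exact (le_abs_self _).trans this.le

theorem QS.exists_dec (h : QS S ρ₀ f η) : ∃ α : ℝ, 0 < α ∧ ∀ (p : S) (ρ u : ℝ), 0 < ρ → ρ ≤ ρ₀ →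
    1 ≤ u → u ^ α * dd f p (ρ / u) ≤ 2 * dd f p ρ := by
  obtain ⟨t, ht0, ht1, ht⟩ := h.exists_eta_small (ε := 1 / 4) (by norm_num)
  set v := t⁻¹ with hv
  have hv1 : 1 < v := (one_lt_inv₀ ht0).mpr ht1
  have hlog : 0 < Real.log v := Real.log_pos hv1
  have hl2 : 0 < Real.log 2 := Real.log_pos one_lt_two
  refine ⟨Real.log 2 / Real.log v, div_pos hl2 hlog, fun p ρ u hρ hρ0 hu => ?_⟩
  have key : ∀ j : ℕ, 2 ^ j * dd f p (t ^ j * ρ) ≤ dd f p ρ := by
    intro j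
    induction j with
    | zero => simp
    | succ j ih =>
      have hle : t ^ j * ρ ≤ ρ₀ := by
        have : t ^ j ≤ 1 := pow_le_one₀ ht0.le ht1.le
        nlinarith
      have h2 := h.dd_scale p (t := t) (ρ := t ^ j * ρ) (ρ' := t ^ (j + 1) * ρ)
        (by positivity) hle ht0.le (by rw [pow_succ]; linarith)
      have h3 : 2 * η t * dd f p (t ^ j * ρ) ≤ 1 / 2 * dd f p (t ^ j * ρ) :=
        mul_le_mul_of_nonneg_right (by linarith) (dd_nonneg _ _ _)
      have h4 : (0 : ℝ) < 2 ^ j := by positivity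
      rw [pow_succ (2 : ℝ) j]
      nlinarith
  obtain ⟨j, hj1, hj2⟩ := exists_nat_pow_near hu hv1
  have hu0 : 0 < u := by linarith
  have e1 : ρ / u ≤ t ^ j * ρ := by
    rw [div_le_iff₀ hu0]
    have : t ^ j * v ^ j = 1 := by rw [← mul_pow, hv, mul_inv_cancel₀ ht0.ne', one_pow]
    have h5 : 0 < t ^ j := by positivity
    have h6 : t ^ j * v ^ j ≤ t ^ j * u := mul_le_mul_of_nonneg_left hj1 h5.le
    nlinarith
  have e2 : u ^ (Real.log 2 / Real.log v) ≤ 2 ^ (j + 1) := by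
    have h7 : u ^ (Real.log 2 / Real.log v) ≤ (v ^ (j + 1)) ^ (Real.log 2 / Real.log v) :=
      Real.rpow_le_rpow hu0.le hj2.le (div_pos hl2 hlog).le
    refine h7.trans (le_of_eq ?_)
    have hv0 : 0 < v := by linarith
    rw [← Real.rpow_natCast, ← Real.rpow_mul hv0.le, mul_comm, Real.rpow_mul hv0.le,
      Real.rpow_natCast]
    congr 1
    rw [Real.rpow_def_of_pos hv0, mul_div_cancel₀ _ hlog.ne', Real.exp_log two_pos]
  have h1 := key j
  have h2 := h.dd_mono' (p : V) e1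
  have h3 := dd_nonneg f (p : V) (ρ / u)
  calc u ^ (Real.log 2 / Real.log v) * dd f p (ρ / u) ≤ 2 ^ (j + 1) * dd f p (t ^ j * ρ) :=
        mul_le_mul e2 h2 h3 (by positivity)
    _ ≤ 2 * dd f p ρ := by rw [pow_succ]; nlinarith

theorem QS.exists_small (h : QS S ρ₀ f η) (p : S) {ε : ℝ} (hε : 0 < ε) :
    ∃ ρ : ℝ, 0 < ρ ∧ dd f p ρ ≤ ε := by
  have h0 := dd_nonneg f (p : V) ρ₀
  obtain ⟨t, ht0, -, ht⟩ := h.exists_eta_small (ε := ε / (2 * (dd f p ρ₀ + 1))) (by positivity)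
  refine ⟨t * ρ₀, mul_pos ht0 h.pos, ?_⟩
  have h1 := h.dd_scale p (t := t) (ρ := ρ₀) (ρ' := t * ρ₀) h.pos le_rfl ht0.le le_rfl
  rw [le_div_iff₀ (by positivity)] at ht
  have := h.eta_nonneg ht0.le
  nlinarith

theorem QS.exists_lb (h : QS S ρ₀ f η) {ρ : ℝ} (hρ : 0 < ρ) (hρ0 : ρ ≤ ρ₀) :
    ∃ c : ℝ, 0 < c ∧ ∀ p : S, c ≤ dd f p ρ := by
  rcases S.eq_empty_or_nonempty with hS | ⟨a, ha⟩
  · refine ⟨1, one_pos, fun p => ?_⟩
    have := p.2
    simp only [hS] at this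
    exact absurd this (Set.notMem_empty _)
  · obtain ⟨b, hb, hab⟩ := h.perf a ha ρ₀ h.pos le_rfl
    obtain ⟨C, hC0, hC⟩ := h.exists_diam
    have hne : (⟨a, ha⟩ : S) ≠ ⟨b, hb⟩ := by
      intro e
      have : a = b := congrArg Subtype.val e
      rw [this, dist_self] at hab
      exact absurd hab h.pos.ne
    have hΦ : 0 < dist (f ⟨a, ha⟩) (f ⟨b, hb⟩) := dist_pos.mpr (fun e => hne (h.inj e))
    have hη := h.eta_nonneg (div_nonneg hC0 hρ.le)
    refine ⟨dist (f ⟨a, ha⟩) (f ⟨b, hb⟩) / (2 * η (C / ρ) + 1), by positivity, fun p => ?_⟩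
    have h1 : dist (f ⟨a, ha⟩) (f ⟨b, hb⟩) ≤ dd f p C :=
      h.dist_le_dd (hC _ ha _ p.2) (hC _ hb _ p.2)
    have h2 := h.dd_scale p (t := C / ρ) (ρ := ρ) (ρ' := C) hρ hρ0 (div_nonneg hC0 hρ.le)
      (by rw [div_mul_cancel₀ _ hρ.ne'])
    have h3 := dd_nonneg f (p : V) ρ
    rw [div_le_iff₀ (by positivity)]
    nlinarith

theorem QS.exists_ball (h : QS S ρ₀ f η) (p0 : S) {s : ℝ} (hs0 : 0 < s) (U : Set Y)
    (hU : Bornology.IsBounded U) {ε : ℝ} (hε : 0 < ε) :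
    ∃ (x : S) (ρ : ℝ), 0 < ρ ∧ (∀ q : S, f q ∈ U → dist (q : V) x < ρ) ∧
      dd f x ρ ^ s ≤ (2 * η 4) ^ s * Metric.diam U ^ s + ε := by
  have hη := h.eta_nonneg (a := 4) (by norm_num)
  have hnn : 0 ≤ (2 * η 4) ^ s * Metric.diam U ^ s :=
    mul_nonneg (Real.rpow_nonneg (by positivity) _) (Real.rpow_nonneg Metric.diam_nonneg _)
  have small : ∀ x : S, (∀ q : S, f q ∈ U → q = x) → ∃ (x : S) (ρ : ℝ), 0 < ρ ∧
      (∀ q : S, f q ∈ U → dist (q : V) x < ρ) ∧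
      dd f x ρ ^ s ≤ (2 * η 4) ^ s * Metric.diam U ^ s + ε := by
    intro x hx
    obtain ⟨ρ, hρ, hle⟩ := h.exists_small x (Real.rpow_pos_of_pos hε s⁻¹)
    refine ⟨x, ρ, hρ, fun q hq => by rw [hx q hq, dist_self]; exact hρ, ?_⟩
    have := Real.rpow_le_rpow (dd_nonneg _ _ _) hle hs0.le
    rw [Real.rpow_inv_rpow hε.le hs0.ne'] at this
    linarith
  by_cases hex : ∃ x : S, f x ∈ U
  swap
  · exact small p0 fun q hq => absurd ⟨q, hq⟩ hex
  obtain ⟨x, hx⟩ := hex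
  by_cases hone : ∀ q : S, f q ∈ U → q = x
  · exact small x hone
  push Not at hone
  obtain ⟨q0, hq0, hq0x⟩ := hone
  obtain ⟨C, -, hC⟩ := h.exists_diam
  set B : Set ℝ := (fun q : S => dist (q : V) x) '' {q | f q ∈ U} with hB
  have hBb : BddAbove B := ⟨C, by rintro _ ⟨q, -, rfl⟩; exact hC _ q.2 _ x.2⟩
  have hBn : B.Nonempty := ⟨_, x, hx, rfl⟩
  have hm : 0 < sSup B := by
    refine lt_of_lt_of_le ?_ (le_csSup hBb ⟨q0, hq0, rfl⟩)
    exact dist_pos.mpr fun e => hq0x (Subtype.ext e)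
  obtain ⟨_, ⟨y, hy, rfl⟩, hyl⟩ := exists_lt_of_lt_csSup hBn (half_lt_self hm)
  have hyl' : sSup B / 2 < dist (y : V) x := hyl
  have hne : x ≠ y := by
    intro e
    rw [e, dist_self] at hyl'
    linarith
  refine ⟨x, 2 * sSup B, by positivity, fun q hq => ?_, ?_⟩
  · have : dist (q : V) x ≤ sSup B := le_csSup hBb ⟨q, hq, rfl⟩
    linarith
  · have h1 := h.dd_le_of_ne hne (t := 4) (ρ := 2 * sSup B) (by norm_num) (by linarith)
    have h2 : dist (f y) (f x) ≤ Metric.diam U := Metric.dist_le_diam_of_mem hU hy hx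
    have h3 := h1.trans (mul_le_mul_of_nonneg_left h2 (by positivity))
    have h4 := Real.rpow_le_rpow (dd_nonneg _ _ _) h3 hs0.le
    rw [Real.mul_rpow (by positivity) Metric.diam_nonneg] at h4
    linarith

theorem QS.exists_cover (h : QS S ρ₀ f η) (p0 : S) {s : ℝ} (hs0 : 0 < s)
    (hA : dimH (Set.range f) < ENNReal.ofReal s) {κ : ℝ} (hκ : 0 < κ) :
    ∃ (F : Finset ℕ) (xc : ℕ → S) (ρ : ℕ → ℝ) (rmin : ℝ), 0 < rmin ∧ (∀ i ∈ F, rmin ≤ ρ i) ∧
      (∀ q : S, ∃ i ∈ F, dist (q : V) (xc i) < ρ i) ∧ ∑ i ∈ F, dd f (xc i) (ρ i) ^ s < κ := by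
  have hη := h.eta_nonneg (a := 4) (by norm_num)
  set C := (2 * η 4) ^ s with hC
  have hC0 : 0 ≤ C := Real.rpow_nonneg (by positivity) _
  set δ := κ / (C + 3) with hδ
  have hδ0 : 0 < δ := by positivity
  obtain ⟨t, ht1, ht2, ht3⟩ := cover_of_dimH_lt hs0 hA hδ0
  choose xc ρ hρ hcov hw using fun n : ℕ =>
    h.exists_ball p0 hs0 (t n) (ht2 n) (ε := δ * (1 / 2) ^ n) (by positivity)
  have hsub : S ⊆ ⋃ n, Metric.ball (xc n : V) (ρ n) := by
    intro q hq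
    obtain ⟨n, hn⟩ := Set.mem_iUnion.mp (ht1 ⟨⟨q, hq⟩, rfl⟩)
    exact Set.mem_iUnion.mpr ⟨n, hcov n ⟨q, hq⟩ hn⟩
  obtain ⟨F, hF⟩ := h.cpt.elim_finite_subcover _ (fun n => Metric.isOpen_ball) hsub
  have hq : ∀ q : S, ∃ i ∈ F, dist (q : V) (xc i) < ρ i := by
    intro q
    have := hF q.2
    simpa only [Set.mem_iUnion, Metric.mem_ball, exists_prop] using this
  have hFn : F.Nonempty := by
    obtain ⟨i, hi, -⟩ := hq p0
    exact ⟨i, hi⟩
  obtain ⟨i0, -, hi0⟩ := F.exists_min_image ρ hFn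
  refine ⟨F, xc, ρ, ρ i0, hρ i0, hi0, hq, ?_⟩
  have h1 : ∑ i ∈ F, dd f (xc i) (ρ i) ^ s ≤
      C * ∑ i ∈ F, Metric.diam (t i) ^ s + δ * ∑ i ∈ F, (1 / 2 : ℝ) ^ i := by
    rw [Finset.mul_sum, Finset.mul_sum, ← Finset.sum_add_distrib]
    exact Finset.sum_le_sum fun i _ => hw i
  have h2 : ∑ i ∈ F, (1 / 2 : ℝ) ^ i ≤ 2 := by
    have := summable_geometric_two.sum_le_tsum F (fun i _ => by positivity)
    rwa [tsum_geometric_two] at this
  have h3 := mul_le_mul_of_nonneg_left (ht3 F) hC0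
  have h4 := mul_le_mul_of_nonneg_left h2 hδ0.le
  have h5 : δ * (C + 3) = κ := by rw [hδ]; field_simp
  linarith

/-- a 1-Lipschitz embedding of the plane with `m`-Lipschitz inverse -/
def Lp (m : ℕ) (φ : E → V) : Prop :=
  ∀ x y, dist (φ x) (φ y) ≤ dist x y ∧ dist x y ≤ m * dist (φ x) (φ y)

theorem grid_m_le {g : ℕ → ℕ → E} (h : Grid g) {m i j i' j' : ℕ} (hi : i % m = i' % m)
    (hj : j % m = j' % m) (hne : (i, j) ≠ (i', j')) : (m : ℝ) ≤ dist (g i j) (g i' j') := by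
  refine h.ge (Nat.cast_nonneg _) ?_
  have key0 : ∀ a b : ℕ, a < b → a % m = b % m → (m : ℝ) ^ 2 ≤ ((a : ℝ) - b) ^ 2 := by
    intro a b hab hm
    have h1 : m ≤ b - a := Nat.le_of_dvd (by omega) ((Nat.modEq_iff_dvd' hab.le).1 hm)
    have h2 : (m : ℝ) + a ≤ b := by exact_mod_cast (by omega : m + a ≤ b)
    nlinarith [Nat.cast_nonneg (α := ℝ) m]
  have key : ∀ a b : ℕ, a ≠ b → a % m = b % m → (m : ℝ) ^ 2 ≤ ((a : ℝ) - b) ^ 2 := by
    intro a b hab hm
    rcases lt_or_gt_of_ne hab with h1 | h1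
    · exact key0 a b h1 hm
    · have := key0 b a h1 hm.symm
      nlinarith
  by_cases e : i = i'
  · have := key j j' (fun e' => hne (by rw [e, e'])) hj
    nlinarith [sq_nonneg ((i : ℝ) - i')]
  · have := key i i' e hi
    nlinarith [sq_nonneg ((j : ℝ) - j')]

theorem sum_over_le (F : Finset ℕ) (w : ℕ → ℝ) (hw : ∀ i, 0 ≤ w i) (I : Finset (ℕ × ℕ))
    (A : ℕ × ℕ → ℕ → Prop) [∀ a, DecidablePred (A a)] (B : ℕ → Prop) [DecidablePred B] {m : ℕ}
    (hm : 0 < m) (hAB : ∀ a ∈ I, ∀ i, A a i → B i)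
    (hdisj : ∀ a ∈ I, ∀ a' ∈ I, a.1 % m = a'.1 % m → a.2 % m = a'.2 % m → ∀ i, A a i → A a' i →
      a = a') :
    ∑ a ∈ I, ∑ i ∈ F.filter (A a), w i ≤ (m : ℝ) ^ 2 * ∑ i ∈ F.filter B, w i := by
  rw [← Finset.sum_fiberwise_of_maps_to (s := I) (t := range m ×ˢ range m)
    (g := fun a => (a.1 % m, a.2 % m)) (fun a _ => mem_product.2
      ⟨mem_range.2 (Nat.mod_lt _ hm), mem_range.2 (Nat.mod_lt _ hm)⟩)]
  refine (Finset.sum_le_card_nsmul _ _ (∑ i ∈ F.filter B, w i) fun c _ => ?_).trans (le_of_eq ?_)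
  · refine sum_disj_le F w hw _ A B (fun a ha => hAB a (mem_filter.1 ha).1) fun a ha a' ha' => ?_
    have e := (mem_filter.1 ha).2.trans (mem_filter.1 ha').2.symm
    exact hdisj a (mem_filter.1 ha).1 a' (mem_filter.1 ha').1 (congrArg Prod.fst e)
      (congrArg Prod.snd e)
  · simp [sq]

theorem K_ge {k m : ℕ} {P : Par} (hP : ParOK k P) (h2 : 2 ≤ k) (hm : m ^ 2 ≤ k) (hm1 : 1 ≤ m) :
    (m : ℝ) ≤ P.K := by
  have h1 : ((m : ℝ) ^ 2) ≤ P.R := le_trans (by exact_mod_cast hm) hP.hR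
  have h3 : (m : ℝ) ^ k ≤ ((m : ℝ) ^ 2) ^ (k - 1) := by
    rw [← pow_mul]
    exact pow_le_pow_right₀ (by exact_mod_cast hm1) (by omega)
  have h4 := (h3.trans (pow_le_pow_left₀ (by positivity) h1 _)).trans hP.hK
  exact (pow_le_pow_iff_left₀ (Nat.cast_nonneg _) (Nat.cast_nonneg _) (by omega)).1 h4

/-- the two local inequalities -/
def Key (S : Set V) (ρ₀ : ℝ) {Y : Type} [MetricSpace Y] (f : S → Y) (s : ℝ) (k m : ℕ)
    (P : Par) : Prop :=
  (∀ (y y' : V) (r u : ℝ), 0 < r → 16 * P.D * r ≤ ρ₀ → 24 ≤ u → dist y' y ≤ 7 / 4 * P.D * r →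
    ∀ p : S, dist (p : V) y' ≤ 2 * P.D * (r * u⁻¹) →
      2 * dd f y (16 * P.D * r) ^ s ≤ u ^ k * dd f y' (16 * P.D * (r * u⁻¹)) ^ s) ∧
  ∀ φ : E → V, Lp m φ → ∀ (x : E) (r : ℝ), 0 < r → 16 * P.D * r ≤ ρ₀ → ∀ o : E, ‖o‖ ≤ 1 / 2 →
    ∀ g : ℕ → ℕ → E, Grid g → ∀ c : ℕ → ℕ → ℝ, (∀ i j, 0 ≤ c i j) → ∀ t : ℝ, 0 ≤ t →
      (∀ i ≤ P.K, ∀ j ≤ P.K, ∃ p : S,
        dist (p : V) (φ (x + r • (o + (8 * P.D / P.R) • g i j))) ≤ 2 * P.D * (r * P.R⁻¹)) →
      EnGe P.K c (P.tau * t) →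
      (m : ℝ) ^ 2 * (2 * t * dd f (φ x) (16 * P.D * r) ^ s) ≤ ∑ i ∈ range P.K, ∑ j ∈ range P.K,
        c i j * dd f (φ (x + r • (o + (8 * P.D / P.R) • g i j))) (16 * P.D * (r * P.R⁻¹)) ^ s

theorem QS.exists_key (h : QS S ρ₀ f η) {s : ℝ} (hs0 : 0 < s) (hs2 : s < 2) {m : ℕ}
    (hm : 1 ≤ m) : ∃ k : ℕ, 1 ≤ k ∧ ∀ P : Par, ParOK k P → Key S ρ₀ f s k m P := by
  obtain ⟨b, hb⟩ := h.exists_dbl
  obtain ⟨α, hα, hdec⟩ := h.exists_dec
  have hm' : (1 : ℝ) ≤ m := by exact_mod_cast hm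
  have hη9 := h.eta_nonneg (a := 14 * m) (by positivity)
  set C := 2 * η (14 * m) + 1 with hC
  have hC0 : 0 < C := by positivity
  obtain ⟨k0, hk0⟩ := num_key α s (2 * m * C) b hα hs0 hs2 (by positivity)
  refine ⟨max k0 (4 * b + 2 + m ^ 2), le_trans (by omega) (le_max_right _ _), fun P hP => ?_⟩
  set k := max k0 (4 * b + 2 + m ^ 2) with hk
  have hkb : 4 * b + 2 + m ^ 2 ≤ k := le_max_right _ _
  have hmK : (m : ℝ) ≤ P.K := K_ge hP (by omega) (by omega) hm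
  have hD := hP.hD
  -- common: the parent is controlled from any point near the centre
  have hpar : ∀ (y : V) (r : ℝ), 0 < r → 16 * P.D * r ≤ ρ₀ → ∀ p : S,
      dist (p : V) y ≤ 2 * P.D * r → ∀ u : ℝ, 1 ≤ u →
      dd f y (16 * P.D * r) ≤ (4 * u) ^ b * dd f p (9 * P.D * r / u) := by
    intro y r hr hrρ p hp u hu
    have h0 : 0 < P.D * r := by positivity
    have h1 := hb p (9 * P.D * r) u (by positivity) (by linarith) hu
    refine (h.dd_mono ?_).trans h1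
    rw [dist_comm]
    linarith
  constructor
  · intro y y' r u hr hrρ hu hy p hp
    have hu0 : 0 < u := by linarith
    set w := P.D * (r * u⁻¹) with hw
    have hw0 : 0 < w := by positivity
    have hwR : w * u = P.D * r := by rw [hw]; field_simp
    have hwD : 24 * w ≤ P.D * r := by nlinarith
    have e16 : 16 * P.D * (r * u⁻¹) = 16 * w := by rw [hw]; ring
    have e2 : 2 * P.D * (r * u⁻¹) = 2 * w := by rw [hw]; ring
    rw [e16]
    rw [e2] at hp
    have h1 := hpar y r hr hrρ p (by linarith [dist_triangle (p : V) y' y]) u (by linarith)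
    have h2 : dd f p (9 * P.D * r / u) ≤ dd f y' (16 * w) := by
      refine h.dd_mono ?_
      have : 9 * P.D * r / u = 9 * w := by rw [hw]; ring
      linarith
    have h3 : dd f y (16 * P.D * r) ≤ (4 * u) ^ b * dd f y' (16 * w) :=
      h1.trans (mul_le_mul_of_nonneg_left h2 (by positivity))
    have h4 := Real.rpow_le_rpow (dd_nonneg _ _ _) h3 hs0.le
    rw [Real.mul_rpow (by positivity) (dd_nonneg _ _ _)] at h4
    have h5 : (1 : ℝ) ≤ (4 * u) ^ b := one_le_pow₀ (by linarith)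
    have h6 : ((4 * u) ^ b) ^ s ≤ ((4 * u) ^ b) ^ (2 : ℝ) :=
      Real.rpow_le_rpow_of_exponent_le h5 hs2.le
    rw [Real.rpow_two] at h6
    have h7 : (4 * u) ^ b ≤ (u ^ 2) ^ b := pow_le_pow_left₀ (by positivity) (by nlinarith) _
    have h8 : ((4 * u) ^ b) ^ 2 ≤ ((u ^ 2) ^ b) ^ 2 := pow_le_pow_left₀ (by positivity) h7 _
    have h9 : ((u ^ 2) ^ b) ^ 2 * u ≤ u ^ k := by
      rw [← pow_mul, ← pow_mul, ← pow_succ]
      refine pow_le_pow_right₀ (by linarith) ?_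
      omega
    have h10 : 2 * ((4 * u) ^ b) ^ s ≤ u ^ k := by
      have : 0 ≤ ((u ^ 2) ^ b) ^ 2 := by positivity
      nlinarith
    have h11 := mul_le_mul_of_nonneg_right h10 (Real.rpow_nonneg (dd_nonneg f y' (16 * w)) s)
    linarith
  · intro φ hφ x r hr hrρ o ho g hg c hc t ht hex hE
    have hK1 : (1 : ℝ) ≤ P.K := by exact_mod_cast hP.hK1
    have hKR := hP.hKR
    have hR24 : 24 * (P.K : ℝ) ≤ P.R := by nlinarith
    have hR0 : 0 < P.R := by linarith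
    set w := P.D * (r * P.R⁻¹) with hw
    have hw0 : 0 < w := by positivity
    have hwR : w * P.R = P.D * r := by rw [hw]; field_simp
    have hrD : r ≤ P.D * r := by nlinarith
    have hwK : 24 * w * P.K ≤ r := by
      have : 24 * w * P.K = (24 * P.D * P.K) * (r * P.R⁻¹) := by rw [hw]; ring
      rw [this]
      refine (mul_le_mul_of_nonneg_right hKR (by positivity)).trans (le_of_eq ?_)
      field_simp
    have hwK1 : w ≤ w * P.K := le_mul_of_one_le_right hw0.le hK1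
    have e16 : 16 * P.D * (r * P.R⁻¹) = 16 * w := by rw [hw]; ring
    have e2 : 2 * P.D * (r * P.R⁻¹) = 2 * w := by rw [hw]; ring
    have hxo : dist (φ (x + r • o)) (φ x) ≤ r / 2 := by
      refine (hφ _ _).1.trans ?_
      rw [dist_eq_norm, add_sub_cancel_left, norm_smul, Real.norm_of_nonneg hr.le]
      nlinarith
    rw [e16]
    rw [e2] at hex
    have : Nonempty S := by
      obtain ⟨p, -⟩ := hex 0 (Nat.zero_le _) 0 (Nat.zero_le _)
      exact ⟨p⟩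
    choose! p hp using hex
    set X : ℕ → ℕ → V := fun i j => φ (x + r • (o + (8 * P.D / P.R) • g i j)) with hX
    have hXe : ∀ i j i' j', dist (x + r • (o + (8 * P.D / P.R) • g i j))
        (x + r • (o + (8 * P.D / P.R) • g i' j')) = 8 * w * dist (g i j) (g i' j') := by
      intro i j i' j'
      rw [dist_grid x o hr.le (by positivity), hw]
      ring
    have hXd : ∀ i j i' j', dist (X i j) (X i' j') ≤ 8 * w * dist (g i j) (g i' j') :=
      fun i j i' j' => (hφ _ _).1.trans (hXe i j i' j').le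
    have hXl : ∀ i j i' j', 8 * w * dist (g i j) (g i' j') ≤ m * dist (X i j) (X i' j') :=
      fun i j i' j' => (hXe i j i' j').ge.trans (hφ _ _).2
    have hpX : ∀ i ≤ P.K, ∀ j ≤ P.K, dist (p i j : V) (X i j) ≤ 2 * w := hp
    have hpp : ∀ i ≤ P.K, ∀ j ≤ P.K, ∀ i' ≤ P.K, ∀ j' ≤ P.K,
        dist (p i j : V) (p i' j') ≤ 16 * w * P.K := by
      intro i hi j hj i' hi' j' hj'
      have a1 := hpX i hi j hj
      have a2 := hpX i' hi' j' hj'
      have a3 := hXd i j i' j'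
      have a4 := hg.le_K hi hj hi' hj'
      have a5 := dist_triangle4_right (p i j : V) (p i' j') (X i j) (X i' j')
      have a6 := mul_le_mul_of_nonneg_left a4 hw0.le
      linarith
    have h00 : dist (p 0 0 : V) (φ x) ≤ 2 * P.D * r := by
      have a1 : dist (p 0 0 : V) (φ (x + r • o)) ≤ 2 * w := by
        have := hpX 0 (Nat.zero_le _) 0 (Nat.zero_le _)
        simpa [hX, hg.zero] using this
      have a2 := dist_triangle (p 0 0 : V) (φ (x + r • o)) (φ x)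
      linarith
    set d := dd f (p 0 0) (40 * w * P.K) with hd
    have hd0 : 0 ≤ d := dd_nonneg _ _ _
    have hK0 : (0 : ℝ) < P.K := by linarith
    have hu : 1 ≤ P.R / P.K := by rw [le_div_iff₀ hK0]; linarith
    have ha : dd f (φ x) (16 * P.D * r) ≤ (4 * (P.R / P.K)) ^ b * d := by
      refine (hpar _ r hr hrρ _ h00 _ hu).trans (mul_le_mul_of_nonneg_left (h.dd_mono' _ ?_) (by positivity))
      have : 9 * P.D * r / (P.R / P.K) = 9 * w * P.K := by rw [hw]; field_simp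
      rw [this]; linarith
    have hsum0 : 0 ≤ ∑ i ∈ range P.K, ∑ j ∈ range P.K, c i j * dd f (X i j) (16 * w) ^ s :=
      sum_nonneg fun i _ => sum_nonneg fun j _ =>
        mul_nonneg (hc i j) (Real.rpow_nonneg (dd_nonneg _ _ _) _)
    rcases hd0.eq_or_lt with hd0 | hd0
    · have : dd f (φ x) (16 * P.D * r) = 0 :=
        le_antisymm (by rw [← hd0, mul_zero] at ha; exact ha) (dd_nonneg _ _ _)
      rw [this, Real.zero_rpow hs0.ne', mul_zero, mul_zero]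
      exact hsum0
    have hKα : 0 < (P.K : ℝ) ^ α := Real.rpow_pos_of_pos hK0 _
    have hbM : ∀ i ≤ P.K, ∀ j ≤ P.K, dd f (X i j) (16 * w) ≤ 2 / (P.K : ℝ) ^ α * d := by
      intro i hi j hj
      have a1 : dd f (X i j) (16 * w) ≤ dd f (p i j) (18 * w * P.K / P.K) := by
        refine h.dd_mono ?_
        rw [mul_div_cancel_right₀ _ hK0.ne', dist_comm]
        linarith [hpX i hi j hj]
      have a2 := hdec (p i j) (18 * w * P.K) P.K (by positivity) (by linarith) hK1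
      have a3 : dd f (p i j) (18 * w * P.K) ≤ d := by
        refine h.dd_mono ?_
        have := hpp i hi j hj 0 (Nat.zero_le _) 0 (Nat.zero_le _)
        linarith
      rw [div_mul_eq_mul_div, le_div_iff₀ hKα]
      have a4 := mul_le_mul_of_nonneg_left a1 hKα.le
      linarith
    have hsep : ∀ j ≤ P.K, ∀ j' ≤ P.K, d / C ≤ dist (f (p P.K j)) (f (p 0 j')) := by
      intro j hj j' hj'
      have a1 := hpX P.K le_rfl j hj
      have a2 := hpX 0 (Nat.zero_le _) j' hj'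
      have a3 := hXl P.K j 0 j'
      have a4 : (P.K : ℝ) ≤ dist (g P.K j) (g 0 j') :=
        hg.ge hK0.le (by push_cast; nlinarith [sq_nonneg ((j : ℝ) - j')])
      have a5 := dist_triangle4_right (X P.K j) (X 0 j') (p P.K j : V) (p 0 j')
      rw [dist_comm (X P.K j) (p P.K j : V), dist_comm (X 0 j') (p 0 j' : V)] at a5
      have a4' := mul_le_mul_of_nonneg_left a4 hw0.le
      have a6 : 4 * w * P.K ≤ m * dist (p P.K j : V) (p 0 j') := by
        have b1 : dist (X P.K j) (X 0 j') ≤ dist (p P.K j : V) (p 0 j') + 4 * w := by linarith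
        have b2 := mul_le_mul_of_nonneg_left b1 (show (0 : ℝ) ≤ m by linarith)
        have b3 := mul_le_mul_of_nonneg_left hmK hw0.le
        linarith
      have hne : p 0 j' ≠ p P.K j := by
        intro e
        rw [e, dist_self] at a6
        linarith
      have a7 := h.dd_le_of_ne hne (t := 14 * m) (ρ := 56 * w * P.K) (by positivity) (by linarith)
      have a8 : d ≤ dd f (p 0 j') (56 * w * P.K) := by
        refine h.dd_mono ?_
        have := hpp 0 (Nat.zero_le _) 0 (Nat.zero_le _) 0 (Nat.zero_le _) j' hj'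
        linarith
      rw [div_le_iff₀ hC0, hC]
      have := dist_nonneg (x := f (p P.K j)) (y := f (p 0 j'))
      linarith
    have hnear : ∀ i < P.K, ∀ j < P.K, ∀ i' j', i' = i ∨ i' = i + 1 → j' = j ∨ j' = j + 1 →
        dist (p i' j' : V) (X i j) ≤ 16 * w := by
      intro i hi j hj i' j' hi' hj'
      have a1 := hpX i' (by omega) j' (by omega)
      have a2 := hXd i' j' i j
      have a3 : dist (g i' j') (g i j) ≤ 3 / 2 := by
        refine hg.le (by norm_num) ?_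
        rcases hi' with rfl | rfl <;> rcases hj' with rfl | rfl <;> push_cast <;> norm_num
      have a4 := dist_triangle (p i' j' : V) (X i' j') (X i j)
      have a5 := mul_le_mul_of_nonneg_left a3 hw0.le
      linarith
    have hEn := energy_bound P.K (fun i j => f (p i j)) c (fun i j => dd f (X i j) (16 * w)) hc
      (div_pos hd0 hC0) hsep
      (fun i hi j hj => h.dist_le_dd (hnear i hi j hj _ _ (Or.inr rfl) (Or.inl rfl))
        (hnear i hi j hj _ _ (Or.inl rfl) (Or.inl rfl)))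
      (fun i hi j hj => h.dist_le_dd (hnear i hi j hj _ _ (Or.inr rfl) (Or.inr rfl))
        (hnear i hi j hj _ _ (Or.inr rfl) (Or.inl rfl))) hE
    set M := 2 / (P.K : ℝ) ^ α * d with hM
    have hM0 : 0 < M := by positivity
    have hMs : 0 < M ^ (2 - s) := Real.rpow_pos_of_pos hM0 _
    have hE2 : ∑ i ∈ range P.K, ∑ j ∈ range P.K, c i j * dd f (X i j) (16 * w) ^ 2 ≤
        M ^ (2 - s) * ∑ i ∈ range P.K, ∑ j ∈ range P.K, c i j * dd f (X i j) (16 * w) ^ s := by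
      rw [Finset.mul_sum]
      refine Finset.sum_le_sum fun i hi => ?_
      rw [Finset.mul_sum]
      refine Finset.sum_le_sum fun j hj => ?_
      have a1 := hbM i (mem_range.mp hi).le j (mem_range.mp hj).le
      have a0 := dd_nonneg f (X i j) (16 * w)
      have a2 : dd f (X i j) (16 * w) ^ 2 =
          dd f (X i j) (16 * w) ^ (2 - s) * dd f (X i j) (16 * w) ^ s := by
        rw [← Real.rpow_add' a0 (by norm_num), sub_add_cancel, Real.rpow_two]
      have a3 : dd f (X i j) (16 * w) ^ (2 - s) ≤ M ^ (2 - s) :=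
        Real.rpow_le_rpow a0 a1 (by linarith)
      have a4 := Real.rpow_nonneg a0 s
      rw [a2, mul_left_comm]
      exact mul_le_mul_of_nonneg_right a3 (mul_nonneg (hc i j) a4)
    have hnum := hk0 k (le_max_left _ _) P.R P.K P.tau hP.hR hK1 (by linarith) hP.hK hP.htau0
      hP.htau
    have hfin : 4 * (m : ℝ) ^ 2 * M ^ (2 - s) * dd f (φ x) (16 * P.D * r) ^ s ≤
        P.tau * (d / C) ^ 2 := by
      have a1 := Real.rpow_le_rpow (dd_nonneg _ _ _) ha hs0.le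
      rw [Real.mul_rpow (by positivity) hd0.le] at a1
      have a2 : M ^ (2 - s) = (2 / (P.K : ℝ) ^ α) ^ (2 - s) * d ^ (2 - s) :=
        Real.mul_rpow (by positivity) hd0.le
      have a3 : d ^ (2 - s) * d ^ s = d ^ 2 := by
        rw [← Real.rpow_add hd0, sub_add_cancel, Real.rpow_two]
      have a4 : 0 ≤ (m : ℝ) ^ 2 * M ^ (2 - s) := by positivity
      calc 4 * (m : ℝ) ^ 2 * M ^ (2 - s) * dd f (φ x) (16 * P.D * r) ^ s
          ≤ 8 * (m : ℝ) ^ 2 * M ^ (2 - s) * (((4 * (P.R / P.K)) ^ b) ^ s * d ^ s) :=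
            mul_le_mul (by linarith) a1 (Real.rpow_nonneg (dd_nonneg _ _ _) _) (by positivity)
        _ = (2 * (2 / (P.K : ℝ) ^ α) ^ (2 - s) * ((4 * (P.R / P.K)) ^ b) ^ s * (2 * m * C) ^ 2) *
              (d / C) ^ 2 := by
            rw [a2, div_pow, ← a3]; field_simp; ring
        _ ≤ P.tau * (d / C) ^ 2 := mul_le_mul_of_nonneg_right hnum (by positivity)
    have hlast : (2 * M ^ (2 - s)) * ((m : ℝ) ^ 2 * (2 * t * dd f (φ x) (16 * P.D * r) ^ s)) ≤
        (2 * M ^ (2 - s)) *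
        ∑ i ∈ range P.K, ∑ j ∈ range P.K, c i j * dd f (X i j) (16 * w) ^ s := by
      have a1 := mul_le_mul_of_nonneg_left hfin ht
      linarith
    exact le_of_mul_le_mul_left hlast (by positivity)


/-- a point of the set near the centre -/
def Bl (S : Set V) (D : ℝ) (y : V) (r : ℝ) : Prop := ∃ p : S, dist (p : V) y ≤ 2 * D * r

/-- a large ball of the cover is near -/
def St (F : Finset ℕ) (xc : ℕ → S) (ρ : ℕ → ℝ) (D : ℝ) (y : V) (r : ℝ) : Prop :=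
  ∃ i ∈ F, D * r < ρ i ∧ dist (xc i : V) y ≤ ρ i + 2 * D * r

/-- the mass of the cover near the centre -/
noncomputable def Ms (f : S → Y) (s : ℝ) (F : Finset ℕ) (xc : ℕ → S) (ρ : ℕ → ℝ) (D : ℝ) (y : V)
    (r : ℝ) : ℝ :=
  ∑ i ∈ F.filter (fun i => dist (xc i : V) y < 4 * D * r), dd f (xc i) (ρ i) ^ s

theorem Ms_mono (f : S → Y) (s : ℝ) (F : Finset ℕ) (xc : ℕ → S) (ρ : ℕ → ℝ) {D : ℝ} {y y' : V}
    {r r' : ℝ} (hy : dist y' y + 4 * D * r' ≤ 4 * D * r) :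
    Ms f s F xc ρ D y' r' ≤ Ms f s F xc ρ D y r := by
  refine Finset.sum_le_sum_of_subset_of_nonneg ?_ fun i _ _ =>
    Real.rpow_nonneg (dd_nonneg _ _ _) _
  intro l hl
  obtain ⟨hl1, hl2⟩ := mem_filter.mp hl
  refine mem_filter.mpr ⟨hl1, ?_⟩
  have a2 := dist_triangle (xc l : V) y' y
  linarith

/-- a stopped child suffices -/
theorem QS.child (h : QS S ρ₀ f η) {s : ℝ} (hs0 : 0 < s) (F : Finset ℕ) (xc : ℕ → S) (ρ : ℕ → ℝ)
    {D M u r π : ℝ} {y y' : V} (hD : 1 ≤ D) (hr : 0 < r) (hrρ : 16 * D * r ≤ ρ₀) (hu : 24 ≤ u)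
    (hM : u ≤ M) (hπ : π ≤ 1) (hy : dist y' y ≤ 7 / 4 * D * r) (hstop : ¬ St F xc ρ D y r)
    (hc : St F xc ρ D y' (r * u⁻¹)) :
    π * dd f y (16 * D * r) ^ s ≤ (2 * η (19 * M)) ^ s * Ms f s F xc ρ D y r := by
  obtain ⟨i, hi, h1, h2⟩ := hc
  have hu0 : 0 < u := by linarith
  have hη := h.eta_nonneg (a := 19 * M) (by linarith)
  set w := D * (r * u⁻¹) with hw
  have hw0 : 0 < w := by positivity
  have hwR : w * u = D * r := by rw [hw]; field_simp
  have hwD : 24 * w ≤ D * r := by nlinarith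
  have e2 : 2 * D * (r * u⁻¹) = 2 * w := by rw [hw]; ring
  rw [e2] at h2
  have h3 := dist_triangle (xc i : V) y' y
  have h4 : ρ i ≤ D * r := by
    by_contra hlt
    exact hstop ⟨i, hi, not_le.1 hlt, by linarith⟩
  have h5 : dist (xc i : V) y ≤ 3 * (D * r) := by linarith
  have h6 : dd f y (16 * D * r) ≤ dd f (xc i) (19 * (D * r)) :=
    h.dd_mono (by rw [dist_comm]; linarith)
  have h7 := h.dd_scale (xc i) (t := 19 * M) (ρ := w) (ρ' := 19 * (D * r)) hw0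
    (by linarith) (by linarith) (by rw [← hwR]; nlinarith)
  have h8 := mul_le_mul_of_nonneg_left (h.dd_mono' (xc i : V) h1.le)
    (show 0 ≤ 2 * η (19 * M) by positivity)
  have h9 := Real.rpow_le_rpow (dd_nonneg _ _ _) ((h6.trans h7).trans h8) hs0.le
  rw [Real.mul_rpow (by positivity) (dd_nonneg _ _ _)] at h9
  have h10 : dd f (xc i) (ρ i) ^ s ≤ Ms f s F xc ρ D y r :=
    Finset.single_le_sum (f := fun i => dd f (xc i) (ρ i) ^ s)
      (fun i _ => Real.rpow_nonneg (dd_nonneg _ _ _) _) (mem_filter.mpr ⟨hi, by linarith⟩)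
  have h11 := mul_le_mul_of_nonneg_left h10
    (Real.rpow_nonneg (show 0 ≤ 2 * η (19 * M) by positivity) s)
  have h12 : π * dd f y (16 * D * r) ^ s ≤ dd f y (16 * D * r) ^ s :=
    mul_le_of_le_one_left (Real.rpow_nonneg (dd_nonneg _ _ _) _) hπ
  linarith

/-- one block -/
theorem QS.inner (h : QS S ρ₀ f η) {s : ℝ} (hs0 : 0 < s) {k m : ℕ} (hm : 1 ≤ m) {P : Par}
    (hP : ParOK k P) (hkey : Key S ρ₀ f s k m P) (F : Finset ℕ) (xc : ℕ → S) (ρ : ℕ → ℝ) {M a : ℝ} (hM : P.R ≤ M)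
    (ha : 0 ≤ a) {φ : E → V} (hφ : Lp m φ) (leaf : E → ℝ → Prop) :
    ∀ (L : ℕ) (x : E) (r : ℝ) (N : ℕ), a * 2 ^ L ≤ 1 → 0 < r → 16 * P.D * r ≤ ρ₀ →
      (∀ x', leaf x' (r * P.R⁻¹ ^ L) → Bl S P.D (φ x') (r * P.R⁻¹ ^ L) ∧
        (St F xc ρ P.D (φ x') (r * P.R⁻¹ ^ L) ∨
          a * dd f (φ x') (16 * P.D * (r * P.R⁻¹ ^ L)) ^ s ≤
            (2 * η (19 * M)) ^ s * Ms f s F xc ρ P.D (φ x') (r * P.R⁻¹ ^ L))) →
      GB P leaf L x r N → Bl S P.D (φ x) r ∧ (St F xc ρ P.D (φ x) r ∨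
        a * 2 ^ L * P.pot N * dd f (φ x) (16 * P.D * r) ^ s ≤
          (2 * η (19 * M)) ^ s * Ms f s F xc ρ P.D (φ x) r) := by
  have hD := hP.hD
  have hK1 : (1 : ℝ) ≤ P.K := by exact_mod_cast hP.hK1
  have hKR := hP.hKR
  have hR24 : 24 * (P.K : ℝ) ≤ P.R := by nlinarith
  have hR0 : 0 < P.R := by linarith
  have hη := h.eta_nonneg (a := 19 * M) (by linarith)
  set c0 := (2 * η (19 * M)) ^ s with hc0
  have hc00 : 0 ≤ c0 := Real.rpow_nonneg (by positivity) _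
  have hwn : ∀ i, 0 ≤ dd f (xc i) (ρ i) ^ s := fun i => Real.rpow_nonneg (dd_nonneg _ _ _) _
  intro L
  induction L with
  | zero =>
    intro x r N _ hr hrρ hleaf hG
    simp only [pow_zero, mul_one] at hleaf ⊢
    obtain ⟨h1, h2⟩ := hleaf x hG
    refine ⟨h1, h2.imp_right fun h3 => le_trans ?_ h3⟩
    exact mul_le_mul_of_nonneg_right (mul_le_of_le_one_right ha (hP.hpot N).2)
      (Real.rpow_nonneg (dd_nonneg _ _ _) _)
  | succ L ih =>
    intro x r N haL hr hrρ hleaf hG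
    have ha2 : 0 ≤ a * 2 ^ L := by positivity
    have e2L : a * 2 ^ (L + 1) = 2 * (a * 2 ^ L) := by ring
    set w := P.D * (r * P.R⁻¹) with hw
    have hw0 : 0 < w := by positivity
    have hwR : w * P.R = P.D * r := by rw [hw]; field_simp
    have hrD : r ≤ P.D * r := le_mul_of_one_le_left hr.le hD
    have hwD : 24 * w ≤ P.D * r := by nlinarith
    have hwK : 24 * w * P.K ≤ r := by
      have : 24 * w * P.K = (24 * P.D * P.K) * (r * P.R⁻¹) := by rw [hw]; ring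
      rw [this]
      refine (mul_le_mul_of_nonneg_right hKR (by positivity)).trans (le_of_eq ?_)
      field_simp
    have e16 : 16 * P.D * (r * P.R⁻¹) = 16 * w := by rw [hw]; ring
    have e4 : 4 * P.D * (r * P.R⁻¹) = 4 * w := by rw [hw]; ring
    have e2 : 2 * P.D * (r * P.R⁻¹) = 2 * w := by rw [hw]; ring
    have hr' : 0 < r * P.R⁻¹ := by positivity
    have hrρ' : 16 * P.D * (r * P.R⁻¹) ≤ ρ₀ := by rw [e16]; linarith
    have eL : r * P.R⁻¹ ^ (L + 1) = r * P.R⁻¹ * P.R⁻¹ ^ L := by ring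
    rw [eL] at hleaf
    have ih' := fun x' N' => ih x' (r * P.R⁻¹) N' (by linarith) hr' hrρ' hleaf
    have hπ : a * 2 ^ (L + 1) * P.pot N ≤ 1 :=
      mul_le_one₀ haL (hP.hpot N).1.le (hP.hpot N).2
    obtain ⟨o, hon, hG⟩ := hG
    have hxo : dist (φ (x + r • o)) (φ x) ≤ r / 2 := by
      refine (hφ _ _).1.trans ?_
      rw [dist_eq_norm, add_sub_cancel_left, norm_smul, Real.norm_of_nonneg hr.le]
      nlinarith
    have hball : Bl S P.D (φ (x + r • o)) (r * P.R⁻¹) → Bl S P.D (φ x) r := by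
      rintro ⟨p, hp⟩
      rw [e2] at hp
      exact ⟨p, by linarith [dist_triangle (p : V) (φ (x + r • o)) (φ x)]⟩
    have hchild : ¬ St F xc ρ P.D (φ x) r → ∀ y' : V, dist y' (φ x) ≤ r →
        St F xc ρ P.D y' (r * P.R⁻¹) → a * 2 ^ (L + 1) * P.pot N * dd f (φ x) (16 * P.D * r) ^ s ≤
          c0 * Ms f s F xc ρ P.D (φ x) r := fun hstop y' hy' hc =>
      h.child hs0 F xc ρ hD hr hrρ (by linarith) hM hπ (by linarith) hstop hc
    rcases hG with ⟨n, hn, hE⟩ | ⟨N', hN', hpot⟩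
    · -- conducting node
      refine ⟨hball ?_, ?_⟩
      · have := (ih' _ _ (hn 0 (Nat.zero_le _) 0 (Nat.zero_le _))).1
        simpa only [grid_gridPt.zero, smul_zero, add_zero] using this
      by_cases hstop : St F xc ρ P.D (φ x) r
      · exact Or.inl hstop
      right
      have main : ∀ (g : ℕ → ℕ → E) (n : ℕ → ℕ → ℕ), Grid g →
          (∀ i ≤ P.K, ∀ j ≤ P.K,
            GB P leaf L (x + r • (o + (8 * P.D / P.R) • g i j)) (r * P.R⁻¹) (n i j)) →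
          EnGe P.K (fun i j => P.pot (n i j)) (P.tau * P.pot N) →
          a * 2 ^ (L + 1) * P.pot N * dd f (φ x) (16 * P.D * r) ^ s ≤
            c0 * Ms f s F xc ρ P.D (φ x) r := by
        intro g n hg hn hE
        set X : ℕ → ℕ → V := fun i j => φ (x + r • (o + (8 * P.D / P.R) • g i j)) with hX
        have hm' : (1 : ℝ) ≤ m := by exact_mod_cast hm
        have hXe : ∀ i j i' j', dist (x + r • (o + (8 * P.D / P.R) • g i j))
            (x + r • (o + (8 * P.D / P.R) • g i' j')) = 8 * w * dist (g i j) (g i' j') := by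
          intro i j i' j'
          rw [dist_grid x o hr.le (by positivity), hw]
          ring
        have hXd : ∀ i j i' j', dist (X i j) (X i' j') ≤ 8 * w * dist (g i j) (g i' j') :=
          fun i j i' j' => (hφ _ _).1.trans (hXe i j i' j').le
        have hXl : ∀ i j i' j', 8 * w * dist (g i j) (g i' j') ≤ m * dist (X i j) (X i' j') :=
          fun i j i' j' => (hXe i j i' j').ge.trans (hφ _ _).2
        have hXx : ∀ i ≤ P.K, ∀ j ≤ P.K, dist (X i j) (φ x) ≤ r := by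
          intro i hi j hj
          have a1 := hXd i j 0 0
          have a2 := hg.le_K hi hj (Nat.zero_le _) (Nat.zero_le _)
          have a3 := mul_le_mul_of_nonneg_left a2 hw0.le
          have a4 : X 0 0 = φ (x + r • o) := by simp [hX, hg.zero]
          have a5 := dist_triangle (X i j) (X 0 0) (φ x)
          rw [a4] at a5 a1
          linarith
        by_cases hs : ∃ i ≤ P.K, ∃ j ≤ P.K, St F xc ρ P.D (X i j) (r * P.R⁻¹)
        · obtain ⟨i, hi, j, hj, hl⟩ := hs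
          exact hchild hstop _ (hXx i hi j hj) hl
        have hall : ∀ i ≤ P.K, ∀ j ≤ P.K,
            a * 2 ^ L * P.pot (n i j) * dd f (X i j) (16 * P.D * (r * P.R⁻¹)) ^ s ≤
              c0 * Ms f s F xc ρ P.D (X i j) (r * P.R⁻¹) := by
          intro i hi j hj
          rcases (ih' _ _ (hn i hi j hj)).2 with h1 | h1
          · exact absurd ⟨i, hi, j, hj, h1⟩ hs
          · exact h1
        have b1 := mul_le_mul_of_nonneg_left (hkey.2 φ hφ x r hr hrρ o hon g hg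
          (fun i j => P.pot (n i j)) (fun i j => (hP.hpot _).1.le) (P.pot N)
          (hP.hpot _).1.le (fun i hi j hj => (ih' _ _ (hn i hi j hj)).1) hE) ha2
        refine le_of_mul_le_mul_left (a := (m : ℝ) ^ 2) ?_ (by positivity)
        refine le_trans (le_of_eq (by ring)) (b1.trans ?_)
        have b2 := sum_over_le F (fun l => dd f (xc l) (ρ l) ^ s) hwn (range P.K ×ˢ range P.K)
          (fun a l => dist (xc l : V) (X a.1 a.2) < 4 * P.D * (r * P.R⁻¹))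
          (fun l => dist (xc l : V) (φ x) < 4 * P.D * r) (m := m) hm (by
            intro a ha l hl
            obtain ⟨ha1, ha2⟩ := mem_product.mp ha
            have a1 := hXx a.1 (mem_range.mp ha1).le a.2 (mem_range.mp ha2).le
            have a2 := dist_triangle (xc l : V) (X a.1 a.2) (φ x)
            rw [e4] at hl
            linarith) (by
            intro a _ a' _ e1 e2 l hl hl'
            by_contra hne
            have a1 := grid_m_le hg e1 e2 hne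
            have a2 := hXl a.1 a.2 a'.1 a'.2
            have a3 := mul_le_mul_of_nonneg_left a1 hw0.le
            have a4 := dist_triangle_left (X a.1 a.2) (X a'.1 a'.2) (xc l : V)
            rw [e4] at hl hl'
            have a5 : dist (X a.1 a.2) (X a'.1 a'.2) < 8 * w := by linarith
            have a6 := mul_lt_mul_of_pos_left a5 (show (0 : ℝ) < m by linarith)
            linarith)
        rw [mul_left_comm ((m : ℝ) ^ 2) c0]
        refine le_trans ?_ (mul_le_mul_of_nonneg_left b2 hc00)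
        rw [Finset.sum_product, Finset.mul_sum, Finset.mul_sum]
        refine Finset.sum_le_sum fun i hi => ?_
        rw [Finset.mul_sum, Finset.mul_sum]
        refine Finset.sum_le_sum fun j hj => ?_
        rw [← mul_assoc]
        exact hall i (mem_range.mp hi).le j (mem_range.mp hj).le
      rcases hE with hE | hE
      · exact main gridPt n grid_gridPt hn hE
      · exact main (fun i j => gridPt j i) (fun i j => n j i) grid_gridPt.swap
          (fun i hi j hj => hn j hj i hi) hE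
    · -- teleport
      obtain ⟨hb, h1⟩ := ih' _ _ hN'
      refine ⟨hball hb, ?_⟩
      by_cases hstop : St F xc ρ P.D (φ x) r
      · exact Or.inl hstop
      right
      rcases h1 with h1 | h1
      · exact hchild hstop _ (by linarith) h1
      obtain ⟨p, hp⟩ := hb
      have b0 := Real.rpow_nonneg (dd_nonneg f (φ (x + r • o)) (16 * P.D * (r * P.R⁻¹))) s
      have b1 := mul_le_mul_of_nonneg_left ((hkey.1 (φ x) _ r P.R hr hrρ (by linarith)
        (by linarith) p hp).trans (mul_le_mul_of_nonneg_right hP.hG b0)) (hP.hpot N).1.le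
      have b2 := mul_le_mul_of_nonneg_right hpot b0
      have b3 : 2 * P.pot N * dd f (φ x) (16 * P.D * r) ^ s ≤
          P.pot N' * dd f (φ (x + r • o)) (16 * P.D * (r * P.R⁻¹)) ^ s := by linarith
      have b4 := mul_le_mul_of_nonneg_left b3 ha2
      have b5 := mul_le_mul_of_nonneg_left (Ms_mono f s F xc ρ (D := P.D) (y := φ x)
        (y' := φ (x + r • o)) (r := r) (r' := r * P.R⁻¹) (by rw [e4]; linarith)) hc00
      rw [e2L]
      linarith

/-- all blocks -/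
theorem QS.outer (h : QS S ρ₀ f η) {s : ℝ} (hs0 : 0 < s) {k m : ℕ} (hm : 1 ≤ m) {Q : RP}
    (hQ : RPOK k Q) (hkey : Key S ρ₀ f s k m Q.P) (F : Finset ℕ) (xc : ℕ → S) (ρ : ℕ → ℝ) (rmin : ℝ)
    (hmin : ∀ i ∈ F, rmin ≤ ρ i) (hcov : ∀ q : S, ∃ i ∈ F, dist (q : V) (xc i) < ρ i)
    {I : Type} {ι : I → E → V} (hι : ∀ τ, Lp m (ι τ)) :
    ∀ (b : ℕ) (τ : I) (x : E) (r : ℝ), 0 < r → 16 * Q.P.D * r ≤ ρ₀ →
      Q.P.D * r * (Q.P.R⁻¹ ^ Q.L * Q.M⁻¹) ^ b < rmin → GV Q ι S b τ x r →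
      Bl S Q.P.D (ι τ x) r ∧
        (St F xc ρ Q.P.D (ι τ x) r ∨ Q.P.pot Q.N * dd f (ι τ x) (16 * Q.P.D * r) ^ s ≤
          (2 * η (19 * Q.M)) ^ s * Ms f s F xc ρ Q.P.D (ι τ x) r) := by
  have hP := hQ.par
  have hD := hP.hD
  have hK1 : (1 : ℝ) ≤ Q.P.K := by exact_mod_cast hP.hK1
  have hKR := hP.hKR
  have hR24 : 24 * (Q.P.K : ℝ) ≤ Q.P.R := by nlinarith
  have hR0 : 0 < Q.P.R := by linarith
  have hM := hQ.hM
  have hM24 : 24 ≤ Q.M := by linarith
  have hM0 : 0 < Q.M := by linarith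
  have hη := h.eta_nonneg (a := 19 * Q.M) (by linarith)
  have hc00 : 0 ≤ (2 * η (19 * Q.M)) ^ s := Real.rpow_nonneg (by positivity) _
  have h2L : (0 : ℝ) < 2 ^ Q.L := by positivity
  have ha0 : (0 : ℝ) ≤ (2 ^ Q.L)⁻¹ := by positivity
  have ha1 : ((2 : ℝ) ^ Q.L)⁻¹ ≤ 1 := inv_le_one_of_one_le₀ (one_le_pow₀ (by norm_num))
  have haL : ((2 : ℝ) ^ Q.L)⁻¹ * 2 ^ Q.L = 1 := inv_mul_cancel₀ h2L.ne'
  have haM : ((2 : ℝ) ^ Q.L)⁻¹ * Q.M ^ k ≤ Q.P.pot Q.N := by
    rw [inv_mul_le_iff₀ h2L]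
    exact hQ.hL
  have hRL : Q.P.R⁻¹ ^ Q.L ≤ 1 :=
    pow_le_one₀ (by positivity) (inv_le_one_of_one_le₀ (by linarith))
  intro b
  induction b with
  | zero =>
    intro τ x r hr hrρ hsm hG
    obtain ⟨p, hp, hpd⟩ := hG
    rw [pow_zero, mul_one] at hsm
    refine ⟨⟨⟨p, hp⟩, hpd⟩, Or.inl ?_⟩
    obtain ⟨i, hi, hd⟩ := hcov ⟨p, hp⟩
    have a1 := hmin i hi
    have a2 := dist_triangle_left (xc i : V) (ι τ x) p
    have a3 : dist p (xc i : V) < ρ i := hd
    exact ⟨i, hi, by linarith, by linarith⟩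
  | succ b ih =>
    intro τ x r hr hrρ hsm hG
    have key := h.inner hs0 hm hP hkey F xc ρ hM ha0 (hι τ) _ Q.L x r Q.N haL.le hr hrρ ?_ hG
    · rwa [haL, one_mul] at key
    rintro x' ⟨⟨p, hp, hpd⟩, τ', x'', hd, hG'⟩
    set r' := r * Q.P.R⁻¹ ^ Q.L with hr'
    have hr'0 : 0 < r' := by positivity
    have hr'r : r' ≤ r := mul_le_of_le_one_right hr.le hRL
    have hr'ρ : 16 * Q.P.D * r' ≤ ρ₀ :=
      (mul_le_mul_of_nonneg_left hr'r (by positivity)).trans hrρ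
    set w := Q.P.D * (r' * Q.M⁻¹) with hw
    have hw0 : 0 < w := by positivity
    have hwR : w * Q.M = Q.P.D * r' := by rw [hw]; field_simp
    have hwD : 24 * w ≤ Q.P.D * r' := by nlinarith
    have e16 : 16 * Q.P.D * (r' * Q.M⁻¹) = 16 * w := by rw [hw]; ring
    have e4 : 4 * Q.P.D * (r' * Q.M⁻¹) = 4 * w := by rw [hw]; ring
    refine ⟨⟨⟨p, hp⟩, hpd⟩, ?_⟩
    by_cases hstop : St F xc ρ Q.P.D (ι τ x') r'
    · exact Or.inl hstop
    right
    obtain ⟨⟨q, hq⟩, h1⟩ := ih τ' x'' (r' * Q.M⁻¹) (by positivity) (by rw [e16]; linarith)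
      (by rw [hr']; refine lt_of_eq_of_lt ?_ hsm; rw [pow_succ]; ring) hG'
    rcases h1 with h1 | h1
    · exact h.child hs0 F xc ρ hD hr'0 hr'ρ hM24 le_rfl ha1 hd hstop h1
    have b0 := Real.rpow_nonneg (dd_nonneg f (ι τ' x'') (16 * Q.P.D * (r' * Q.M⁻¹))) s
    have b0' := mul_nonneg ha0 (Real.rpow_nonneg (dd_nonneg f (ι τ x') (16 * Q.P.D * r')) s)
    have b1 := mul_le_mul_of_nonneg_left
      (hkey.1 (ι τ x') (ι τ' x'') r' Q.M hr'0 hr'ρ hM24 hd q hq) ha0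
    have b2 := mul_le_mul_of_nonneg_right haM b0
    have b5 := mul_le_mul_of_nonneg_left (Ms_mono f s F xc ρ (D := Q.P.D) (y := ι τ x')
      (y' := ι τ' x'') (r := r') (r' := r' * Q.M⁻¹) (by rw [e4]; linarith)) hc00
    linarith

end

theorem GB_leaf {P : Par} {leaf : E → ℝ → Prop} :
    ∀ (j : ℕ) (x : E) (r : ℝ) (N : ℕ), GB P leaf j x r N → ∃ x' r', leaf x' r' := by
  intro j
  induction j with
  | zero => exact fun x r _ hG => ⟨x, r, hG⟩
  | succ j ih =>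
    rintro x r N ⟨o, -, ⟨n, hn, -⟩ | ⟨N', hN', -⟩⟩
    · exact ih _ _ _ (hn 0 (Nat.zero_le _) 0 (Nat.zero_le _))
    · exact ih _ _ _ hN'

theorem GV_pt {Q : RP} {I : Type} {ι : I → E → V} {S : Set V} {b : ℕ} {τ : I} {x : E} {r : ℝ}
    (hG : GV Q ι S b τ x r) : ∃ p, p ∈ S := by
  cases b with
  | zero =>
    obtain ⟨p, hp, -⟩ := hG
    exact ⟨p, hp⟩
  | succ b =>
    obtain ⟨_, _, ⟨p, hp, -⟩, -⟩ := GB_leaf _ _ _ _ hG
    exact ⟨p, hp⟩

theorem main : StmtDetV := by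
  intro I V _ ι Λ hΛ hBL S hS ρ₀ hρ₀ hperf Y _ f η hinj hmono hcont hzero hqs s hs0 hs2
  obtain ⟨m, hΛm⟩ := exists_nat_ge Λ
  have hm : 1 ≤ m := by exact_mod_cast hΛ.trans hΛm
  have hι : ∀ τ, Lp m (ι τ) := fun τ x y => ⟨(hBL τ x y).1,
    (hBL τ x y).2.trans (mul_le_mul_of_nonneg_right hΛm dist_nonneg)⟩
  have h : Det.QS S ρ₀ f η := ⟨hS, hρ₀, hperf, hinj, hmono, hcont, hzero, hqs⟩
  obtain ⟨k, hk1, hk⟩ := h.exists_key hs0 hs2 hm
  refine ⟨k, hk1, fun Q hQ r hr hrρ hfr => ?_⟩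
  by_contra hlt
  push Not at hlt
  have hP := hQ.par
  have hD := hP.hD
  have hK1 : (1 : ℝ) ≤ Q.P.K := by exact_mod_cast hP.hK1
  have hKR := hP.hKR
  have hR24 : 24 * (Q.P.K : ℝ) ≤ Q.P.R := by nlinarith
  have hR0 : 0 < Q.P.R := by linarith
  have hM := hQ.hM
  have hM0 : 0 < Q.M := by linarith
  have hDr : 0 < Q.P.D * r := by positivity
  obtain ⟨c, hc, hlb⟩ := h.exists_lb (ρ := Q.P.D * r) hDr (by linarith)
  have hcs : 0 < c ^ s := Real.rpow_pos_of_pos hc _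
  have hη := h.eta_nonneg (a := 19 * Q.M) (by positivity)
  set c0 := (2 * η (19 * Q.M)) ^ s with hc0
  have hc00 : 0 ≤ c0 := Real.rpow_nonneg (by positivity) _
  have hpot := hP.hpot Q.N
  obtain ⟨b0, τ0, x0, hG0⟩ := hfr.exists
  obtain ⟨p0, hp0⟩ := GV_pt hG0
  obtain ⟨F, xc, ρ, rmin, hrmin, hmin, hcov, hsum⟩ := h.exists_cover ⟨p0, hp0⟩ hs0 hlt
    (κ := Q.P.pot Q.N * c ^ s / (c0 + 1)) (by have := hpot.1; positivity)
  have hq1 : Q.P.R⁻¹ ^ Q.L * Q.M⁻¹ < 1 :=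
    mul_lt_one_of_nonneg_of_lt_one_right
      (pow_le_one₀ (by positivity) (inv_le_one_of_one_le₀ (by linarith))) (by positivity)
      (inv_lt_one_of_one_lt₀ (by linarith))
  have hev : ∀ᶠ b : ℕ in Filter.atTop, Q.P.D * r * (Q.P.R⁻¹ ^ Q.L * Q.M⁻¹) ^ b < rmin := by
    have h1 : Filter.Tendsto (fun b : ℕ => Q.P.D * r * (Q.P.R⁻¹ ^ Q.L * Q.M⁻¹) ^ b) Filter.atTop
        (nhds (Q.P.D * r * 0)) :=
      (tendsto_pow_atTop_nhds_zero_of_lt_one (by positivity) hq1).const_mul _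
    rw [mul_zero] at h1
    exact h1.eventually (gt_mem_nhds hrmin)
  obtain ⟨b, ⟨τ, x, hG⟩, hL⟩ := (hfr.and_eventually hev).exists
  have hwn : ∀ i, 0 ≤ dd f (xc i) (ρ i) ^ s := fun i => Real.rpow_nonneg (dd_nonneg _ _ _) _
  have hT0 : 0 ≤ ∑ i ∈ F, dd f (xc i) (ρ i) ^ s := sum_nonneg fun i _ => hwn i
  rw [lt_div_iff₀ (by positivity)] at hsum
  obtain ⟨⟨p, hp⟩, ⟨i, hi, h1, -⟩ | h1⟩ :=
    h.outer hs0 hm hQ (hk Q.P hP) F xc ρ rmin hmin hcov hι b τ x r hr hrρ hL hG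
  · have a1 := Real.rpow_le_rpow hc.le ((hlb (xc i)).trans (h.dd_mono' _ h1.le)) hs0.le
    have a2 := Finset.single_le_sum (f := fun i => dd f (xc i) (ρ i) ^ s) (fun i _ => hwn i) hi
    have a3 : Q.P.pot Q.N * c ^ s ≤ c ^ s := mul_le_of_le_one_left hcs.le hpot.2
    have a4 := mul_nonneg hT0 hc00
    linarith
  · have a0 : dd f p (Q.P.D * r) ≤ dd f (ι τ x) (16 * Q.P.D * r) := h.dd_mono (by linarith)
    have a1 := Real.rpow_le_rpow hc.le ((hlb p).trans a0) hs0.le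
    have a2 := mul_le_mul_of_nonneg_left a1 hpot.1.le
    have a3 : Ms f s F xc ρ Q.P.D (ι τ x) r ≤ ∑ i ∈ F, dd f (xc i) (ρ i) ^ s :=
      Finset.sum_le_sum_of_subset_of_nonneg (filter_subset _ _) fun i _ _ => hwn i
    have a4 := mul_le_mul_of_nonneg_left a3 hc00
    linarith

end Det

theorem stmtDetV : StmtDetV := Det.main

end Pool.Agent.MP_037c5a_pr.TL
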