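import Pool.Agent.MP_037c5a_pr.TL.Defs

open MeasureTheory ProbabilityTheory Set Filter Topology
open scoped ENNReal NNReal

namespace Pool.Agent.MP_037c5a_pr.TL

namespace Fin2

open Fi

theorem ae_blocks {Ω : Type} [MeasurableSpace Ω] {P : Measure Ω} [IsProbabilityMeasure P]
    {B : Fin 2 → ℝ≥0 → Ω → ℝ}
    (hZ : ∀ n, 0 < n → AEMeasurable (Z B n) P ∧ P.map (Z B n) = Measure.pi fun _ : Fin n => gam)
    {m : ℕ → ℕ} (hm : ∀ b, 0 < m b) {F : ∀ b, Set (Fin (m b) → E)} (hF : ∀ b, MeasurableSet (F b))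
    {p : ℝ≥0∞} (hp : p ≠ 0) (hFp : ∀ b, p ≤ (Measure.pi fun _ : Fin (m b) => gam) (F b)) (K₀ : ℕ) :
    ∀ᵐ ω ∂P, ∃ K : ℕ, K₀ < K ∧ ∃ᶠ b in atTop, ∃ i : Fin K,
      (fun j => Z B (K * m b) ω (finProdFinEquiv (i, j))) ∈ F b := by
  let A : ℕ → ℕ → Set Ω := fun K b =>
    {ω | ¬ ∃ i : Fin K, (fun j => Z B (K * m b) ω (finProdFinEquiv (i, j))) ∈ F b}
  have hA : ∀ K b, 0 < K → P (A K b) ≤ (1 - p) ^ K := by
    intro K b hK
    obtain ⟨hZ, hZl⟩ := hZ (K * m b) (Nat.mul_pos hK (hm b))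
    obtain ⟨h1, h2⟩ := blocks_miss K (m b) (hF b) (hFp b)
    rw [← hZl, Measure.map_apply_of_aemeasurable hZ h1] at h2
    exact le_trans (measure_mono fun ω hω i hi => hω ⟨i, hi⟩) h2
  have hB : ∀ K, 0 < K → P (⋃ L₀, ⋂ L ≥ L₀, A K L) ≤ (1 - p) ^ K := by
    intro K hK
    have hmono : Monotone fun L₀ => ⋂ L ≥ L₀, A K L := fun a b hab =>
      biInter_subset_biInter_left fun L hL => le_trans hab hL
    rw [hmono.measure_iUnion]
    refine iSup_le fun L₀ => le_trans (measure_mono ?_) (hA K L₀ hK)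
    exact biInter_subset_of_mem (s := {L | L ≥ L₀}) (le_refl L₀)
  rw [ae_iff]
  have ht := ENNReal.tendsto_pow_atTop_nhds_zero_of_lt_one
    (ENNReal.sub_lt_self ENNReal.one_ne_top one_ne_zero hp)
  refine le_antisymm (ge_of_tendsto ht ?_) zero_le
  filter_upwards [eventually_gt_atTop K₀] with K hK
  refine le_trans (measure_mono ?_) (hB K (lt_of_le_of_lt (Nat.zero_le _) hK))
  intro ω hω
  obtain ⟨L₀, hL₀⟩ := eventually_atTop.1 (not_frequently.1 fun h => hω ⟨K, hK, h⟩)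
  exact mem_iUnion.2 ⟨L₀, mem_iInter₂.2 fun L hL => hL₀ L hL⟩

theorem gam_out : gam {x | 1 < ‖x‖} ≠ 0 := fun h => by
  have h1 : (volume : Measure E) ≪ gam := withDensity_absolutelyContinuous'
    measurable_ph1.aemeasurable (Eventually.of_forall fun x => by
      refine (ENNReal.ofReal_pos.2 ?_).ne'
      unfold ph
      positivity)
  obtain ⟨x, hx⟩ := exists_norm_eq E (zero_le_two (α := ℝ))
  exact ((isOpen_lt continuous_const continuous_norm).measure_pos volume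
    ⟨x, one_lt_two.trans_eq hx.symm⟩).ne' (h1 h)

theorem tm_le {n j : ℕ} (hn : 0 < n) (h : j ≤ n) : tm n j ≤ 1 := by
  unfold tm
  rw [div_le_one (by exact_mod_cast hn)]
  exact_mod_cast h

theorem tm_sub (n c i j : ℕ) : (tm n (j + c) : ℝ) - tm n (i + c) = ((j : ℝ) - i) / n := by
  simp only [tm, NNReal.coe_div, NNReal.coe_natCast]
  push_cast
  ring

variable {V : Type} [MetricSpace V] {ι : ℝ≥0 → E → V}

theorem block {Ω : Type} {B : Fin 2 → ℝ≥0 → Ω → ℝ} {Q : RP} {b m K : ℕ} (hm : 0 < m)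
    {F : Set (Fin m → E)}
    (hF : ∀ ξ : ℕ → E, (fun i : Fin m => ξ (i + 1) - ξ i) ∈ F → Tree Q b m ξ) {ω : Ω} {i : Fin K}
    (hi : (fun j => Z B (K * m) ω (finProdFinEquiv (i, j))) ∈ F)
    (hι : ∀ τ x y, dist (ι τ x) (ι τ y) ≤ dist x y)
    {δ : ℝ} (hδ : 1 / K ≤ δ) (hmod : ∀ s t : ℝ≥0, s ≤ t → t ≤ 1 → (t : ℝ) - s ≤ δ → ∀ x : E,
      dist (ι t x) (ι s x) ≤ (2 * Q.M * Q.P.R ^ Q.L)⁻¹ * √((t : ℝ) - s)) :
    ∃ (τ : ℝ≥0) (x : E),
      GV Q ι ((fun t : ℝ≥0 => ι t (Bv B ω t)) '' Icc 0 1) b τ x ((√K)⁻¹ * Q.M⁻¹) := by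
  have hK : 0 < K := i.pos
  obtain ⟨n, hn⟩ : ∃ n, n = K * m := ⟨_, rfl⟩
  have hnpos : 0 < n := hn ▸ Nat.mul_pos hK hm
  have hn' : (0 : ℝ) < n := by exact_mod_cast hnpos
  have hK' : (0 : ℝ) < K := by exact_mod_cast hK
  have hm' : (0 : ℝ) < m := by exact_mod_cast hm
  have hs : (0 : ℝ) < √n := Real.sqrt_pos.2 hn'
  have hle : ∀ j ≤ m, tm n (j + m * i) ≤ 1 := fun j hj => tm_le hnpos (by
    have := i.isLt
    calc j + m * i ≤ m * (i + 1) := by nlinarith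
      _ ≤ m * K := Nat.mul_le_mul_left _ this
      _ = n := by rw [hn, mul_comm])
  have h1 : (fun j : Fin m => (√n : ℝ) • Bv B ω (tm n (j + 1 + m * i)) -
      (√n : ℝ) • Bv B ω (tm n (j + m * i))) ∈ F := by
    convert hi using 2 with j
    rw [Z_eq, finProdFinEquiv_apply_val, ← hn, add_right_comm]
  obtain ⟨x, -, hx⟩ := hF (fun j => (√n : ℝ) • Bv B ω (tm n (j + m * i))) h1 ℝ≥0 V ι
    ((fun t : ℝ≥0 => ι t (Bv B ω t)) '' Icc 0 1) (fun j => tm n (j + m * i)) (√n)⁻¹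
    (inv_pos.2 hs) hι (fun j hj => ⟨_, ⟨zero_le, hle j hj⟩, by
      rw [smul_smul, inv_mul_cancel₀ hs.ne', one_smul]⟩) fun j j' h1 h2 x => by
      have h3 := hmod _ _ (tm_mono n (Nat.add_le_add_right h1 (m * i))) (hle j' h2) (by
        rw [tm_sub]
        refine le_trans ?_ hδ
        have : (j' : ℝ) ≤ m := by exact_mod_cast h2
        rw [div_le_div_iff₀ hn' hK', hn]
        push_cast
        nlinarith [(Nat.cast_nonneg j : (0 : ℝ) ≤ j)]) x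
      rwa [tm_sub, Real.sqrt_div' _ hn'.le, div_eq_inv_mul] at h3
  have e : (√n : ℝ)⁻¹ * √m = (√K)⁻¹ := by
    have := Real.sqrt_pos.2 hm'
    rw [hn, Nat.cast_mul, Real.sqrt_mul hK'.le]
    field_simp
  exact ⟨_, x, e ▸ hx⟩

theorem cont {β : ℝ≥0 → E} (hβ : Continuous β)
    (hι : ∀ τ x y, dist (ι τ x) (ι τ y) ≤ dist x y) {δ : ℝ} (hδ : 0 < δ)
    (hmod : ∀ s t : ℝ≥0, s ≤ t → t ≤ 1 → (t : ℝ) - s ≤ δ → ∀ x : E,
      dist (ι t x) (ι s x) ≤ 1 * √((t : ℝ) - s)) : ContinuousOn (fun t => ι t (β t)) (Icc 0 1) := by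
  intro s hs
  have h1 : Continuous fun t : ℝ≥0 => dist (β t) (β s) + √(dist t s) := by fun_prop
  have h2 := (h1.tendsto' s 0 (by simp)).mono_left (nhdsWithin_le_nhds (s := Icc 0 1))
  refine tendsto_iff_dist_tendsto_zero.2 (squeeze_zero' (Eventually.of_forall fun _ => dist_nonneg)
    ?_ h2)
  filter_upwards [self_mem_nhdsWithin, mem_nhdsWithin_of_mem_nhds (Metric.closedBall_mem_nhds s hδ)]
    with t ht ht'
  refine (dist_triangle _ (ι t (β s)) _).trans (add_le_add (hι t _ _) ?_)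
  rw [Metric.mem_closedBall, NNReal.dist_eq] at ht'
  rw [NNReal.dist_eq, ← one_mul √_]
  rcases le_total s t with h | h
  · rw [abs_of_nonneg (sub_nonneg.2 (NNReal.coe_le_coe.2 h))] at ht' ⊢
    exact hmod s t h ht.2 ht' _
  · rw [abs_sub_comm, abs_of_nonneg (sub_nonneg.2 (NNReal.coe_le_coe.2 h))] at ht' ⊢
    rw [dist_comm]
    exact hmod t s h hs.2 ht' _

theorem unif {S : Set V} (hc : IsPreconnected S) {u v x : V} (hu : u ∈ S) (hv : v ∈ S) (hx : x ∈ S)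
    {ρ : ℝ} (hρ : 0 < ρ) (hρ' : ρ ≤ dist u v / 2) : ∃ y ∈ S, dist y x = ρ := by
  have h1 : ∃ z ∈ S, ρ ≤ dist z x := by
    by_cases h : ρ ≤ dist u x
    · exact ⟨u, hu, h⟩
    · exact ⟨v, hv, by linarith [dist_triangle_right u v x]⟩
  obtain ⟨z, hz, hzρ⟩ := h1
  exact hc.intermediate_value hx hz (f := fun y => dist y x) (by fun_prop)
    ⟨by simpa using hρ.le, hzρ⟩

theorem inv_le {δ : ℝ} (hδ : 0 < δ) {K₀ K : ℕ} (h : 1 / δ ≤ K₀) (hK : K₀ < K) : 1 / K ≤ δ :=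
  (one_div_le (by exact_mod_cast (Nat.zero_le _).trans_lt hK) hδ).2
    (h.trans (by exact_mod_cast hK.le))

end Fin2

open Fi TL.Fin2 in
theorem final_ofV (hD : StmtDetV) (hP : StmtProbV) : StmtMain := by
  intro Ω _ P _ B hc hlaw hind hI
  choose Q hQ p hp m hm F hF hFp H using hP
  have hZ := fun n (hn : 0 < n) => Z_law hlaw hind hI hn
  have h1 : ∀ᵐ ω ∂P, ∀ (k : ℕ) (hk : 1 ≤ k) (K₀ : ℕ), ∃ K : ℕ, K₀ < K ∧ ∃ᶠ b in atTop,
      ∃ i : Fin K, (fun j => Z B (K * m k hk b) ω (finProdFinEquiv (i, j))) ∈ F k hk b := by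
    rw [ae_all_iff]; intro k
    rw [ae_all_iff]; intro hk
    rw [ae_all_iff]; intro K₀
    exact ae_blocks hZ (hm k hk) (hF k hk) (ENNReal.ofReal_pos.2 (hp k hk)).ne' (hFp k hk) K₀
  have h2 := ae_all_iff.2 (ae_blocks hZ (m := fun _ => 1) (fun _ => one_pos)
    (F := fun _ => Set.pi univ fun _ => {x | 1 < ‖x‖}) (fun _ => MeasurableSet.univ_pi fun _ =>
      (isOpen_lt continuous_const continuous_norm).measurableSet) gam_out
    fun _ => by simp [Measure.pi_pi])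
  filter_upwards [h1, h2] with ω hω hω'
  intro V _ ι Λ hΛ hBL hmod Y _ f η hf hη hηc hη0 hq
  have hι : ∀ τ x y, dist (ι τ x) (ι τ y) ≤ dist x y := fun τ x y => (hBL τ x y).1
  have hg : Continuous (Bv B ω) :=
    (PiLp.continuous_toLp 2 _).comp (continuous_pi fun i => hc i ω)
  have hγ : ContinuousOn (fun t => ι t (Bv B ω t)) (Icc 0 1) := by
    obtain ⟨δ, hδ, h⟩ := hmod 1 one_pos
    exact cont hg hι hδ h
  obtain ⟨u, hu, v, hv, huv⟩ : ∃ u ∈ (fun t => ι t (Bv B ω t)) '' Icc 0 1,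
      ∃ v ∈ (fun t => ι t (Bv B ω t)) '' Icc 0 1, u ≠ v := by
    obtain ⟨δ, hδ, h⟩ := hmod (1 / (2 * Λ)) (by positivity)
    obtain ⟨K₀, hK₀⟩ := exists_nat_ge (1 / δ)
    obtain ⟨K, hK, hfr⟩ := hω' K₀
    obtain ⟨-, i, hi⟩ := hfr.exists
    have h3 : 1 < ‖Z B (K * 1) ω (finProdFinEquiv (i, 0))‖ := hi 0 trivial
    have h4 := inv_le hδ hK₀ hK
    rw [← mul_one K] at h4
    obtain ⟨n, l, h3, h4⟩ : ∃ (n : ℕ) (l : Fin n), 1 < ‖Z B n ω l‖ ∧ 1 / n ≤ δ := ⟨_, _, h3, h4⟩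
    have hn : 0 < n := l.pos
    have hs : (0 : ℝ) < √n := Real.sqrt_pos.2 (by exact_mod_cast hn)
    have h5 := tm_le hn (Nat.succ_le_of_lt l.isLt)
    have h6 : (tm n (l + 1) : ℝ) - tm n l = 1 / n := by
      simpa [add_comm] using tm_sub n l 0 1
    refine ⟨_, ⟨_, ⟨zero_le, h5⟩, rfl⟩, _, ⟨_, ⟨zero_le, tm_le hn l.isLt.le⟩, rfl⟩, fun e => ?_⟩
    have h7 := h _ _ (tm_mono n (Nat.le_succ l)) h5 (h6 ▸ h4) (Bv B ω (tm n l))
    have e' : ι (tm n (l + 1)) (Bv B ω (tm n (l + 1))) = ι (tm n l) (Bv B ω (tm n l)) := e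
    rw [← e', h6, Real.sqrt_div' _ n.cast_nonneg, Real.sqrt_one] at h7
    have h7' := ((hBL _ _ _).2).trans (mul_le_mul_of_nonneg_left h7 (by linarith : 0 ≤ Λ))
    rw [dist_comm, dist_eq_norm] at h7'
    rw [Z_eq, ← smul_sub, norm_smul, Real.norm_of_nonneg hs.le] at h3
    have h8 := mul_le_mul_of_nonneg_left h7' hs.le
    have h9 : √n * (Λ * (1 / (2 * Λ) * (1 / √n))) = (1 / 2 : ℝ) := by field_simp
    linarith
  have hd : 0 < dist u v / 2 := half_pos (dist_pos.2 huv)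
  have key : ∀ s : ℝ, 0 < s → s < 2 → ENNReal.ofReal s ≤ dimH (Set.range f) := by
    intro s hs hs2
    obtain ⟨k, hk, hk'⟩ := hD ℝ≥0 V ι Λ hΛ hBL _ (isCompact_Icc.image_of_continuousOn hγ) _ hd
      (fun x hx ρ h h' => unif (isPreconnected_Icc.image _ hγ) hu hv hx h h')
      Y f η hf hη hηc hη0 hq s hs hs2
    generalize dist u v / 2 = ρ₀ at hd hk'
    have hD1 := (hQ k hk).par.hD
    have hR : (1 : ℝ) ≤ (Q k hk).P.R := le_trans (by exact_mod_cast hk) (hQ k hk).par.hR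
    have hM := hR.trans (hQ k hk).hM
    obtain ⟨δ, hδ, h⟩ := hmod (2 * (Q k hk).M * (Q k hk).P.R ^ (Q k hk).L)⁻¹ (by positivity)
    obtain ⟨K₀, hK₀⟩ := exists_nat_ge (max (1 / δ) ((16 * (Q k hk).P.D / ρ₀) ^ 2))
    obtain ⟨K, hK, hfr⟩ := hω k hk K₀
    have hsq : (0 : ℝ) < √K := Real.sqrt_pos.2 (by exact_mod_cast (Nat.zero_le _).trans_lt hK)
    refine hk' (Q k hk) (hQ k hk) _ (by positivity) ?_ (hfr.mono fun b ⟨i, hi⟩ =>
      block (hm k hk b) (H k hk b) hi hι (inv_le hδ ((le_max_left _ _).trans hK₀) hK) h)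
    have h5 : 16 * (Q k hk).P.D / ρ₀ ≤ √K :=
      Real.le_sqrt_of_sq_le (((le_max_right _ _).trans hK₀).trans (by exact_mod_cast hK.le))
    rw [div_le_iff₀ hd] at h5
    rw [← mul_inv, ← div_eq_mul_inv, div_le_iff₀ (by positivity)]
    nlinarith [mul_pos hsq hd]
  refine le_of_forall_lt fun c hc2 => ?_
  obtain ⟨s, hs0, hs1, hs2⟩ := ENNReal.lt_iff_exists_real_btwn.1 hc2
  have hs : 0 < s := by
    by_contra h
    rw [ENNReal.ofReal_of_nonpos (not_lt.1 h)] at hs1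
    exact not_lt_zero hs1
  have hs2' : s < 2 := by
    have : ENNReal.ofReal s < ENNReal.ofReal 2 := by simpa using hs2
    exact (ENNReal.ofReal_lt_ofReal_iff two_pos).1 this
  exact lt_of_lt_of_le hs1 (key s hs hs2')

end Pool.Agent.MP_037c5a_pr.TL
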