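import Mathlib

namespace Pool.Agent.MP_037c5a_pr.TL

theorem exists_W {I : Type} [PseudoMetricSpace I] [Nonempty I] (e : I → I → ℝ) (C : ℝ)
    (h0 : ∀ u v, 0 ≤ e u v) (hC : ∀ u v, e u v ≤ C)
    (hmod : ∀ ε : ℝ, 0 < ε → ∃ δ : ℝ, 0 < δ ∧ ∀ u v, dist u v ≤ δ → e u v ≤ ε * √(dist u v)) :
    ∃ W : I → I → ℝ, (∀ s, W s s = 0) ∧ (∀ s t, W s t = W t s) ∧
      (∀ s t u, W s u ≤ W s t + W t u) ∧ (∀ u v, e u v ≤ W u v) ∧
      ∀ ε : ℝ, 0 < ε → ∃ δ : ℝ, 0 < δ ∧ ∀ u v, dist u v ≤ δ → W u v ≤ ε * √(dist u v) := by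
  let φ : ℝ → I × I → ℝ := fun a p => e p.1 p.2 * min 1 (a / dist p.1 p.2)
  have hb : ∀ a, BddAbove (Set.range (φ a)) := fun a => ⟨C, by
    rintro _ ⟨p, rfl⟩
    exact (mul_le_of_le_one_right (h0 _ _) (min_le_left _ _)).trans (hC _ _)⟩
  have hφ0 : ∀ a, 0 ≤ a → ∀ p, 0 ≤ φ a p := fun a ha p =>
    mul_nonneg (h0 _ _) (le_min zero_le_one (div_nonneg ha dist_nonneg))
  refine ⟨fun s t => ⨆ p, φ (dist s t) p, fun s => by simp [φ], fun s t => by simp only [dist_comm s t],
    fun s t u => ?_, fun u v => ?_, fun ε hε => ?_⟩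
  · refine ciSup_le fun p => le_trans ?_ (add_le_add (le_ciSup (hb _) p) (le_ciSup (hb _) p))
    simp only [φ]
    rw [← mul_add]
    refine mul_le_mul_of_nonneg_left ?_ (h0 _ _)
    have h1 : dist s u / dist p.1 p.2 ≤ dist s t / dist p.1 p.2 + dist t u / dist p.1 p.2 := by
      rw [← add_div]
      exact div_le_div_of_nonneg_right (dist_triangle _ _ _) dist_nonneg
    have h2 : 0 ≤ dist s t / dist p.1 p.2 := div_nonneg dist_nonneg dist_nonneg
    have h3 : 0 ≤ dist t u / dist p.1 p.2 := div_nonneg dist_nonneg dist_nonneg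
    have h4 := min_le_left 1 (dist s u / dist p.1 p.2)
    have h5 := min_le_right 1 (dist s u / dist p.1 p.2)
    rcases min_choice 1 (dist s t / dist p.1 p.2) with a | a <;>
      rcases min_choice 1 (dist t u / dist p.1 p.2) with b | b <;> rw [a, b] <;> linarith
  · rcases (dist_nonneg (x := u) (y := v)).eq_or_lt with h | h
    · obtain ⟨δ, hδ, hh⟩ := hmod 1 one_pos
      have := hh u v (by rw [← h]; exact hδ.le)
      rw [← h, Real.sqrt_zero, mul_zero] at this
      exact this.trans (le_trans (hφ0 _ dist_nonneg (u, v)) (le_ciSup (hb _) (u, v)))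
    · refine le_trans (le_of_eq ?_) (le_ciSup (hb _) (u, v))
      simp only [φ]
      rw [div_self h.ne', min_self, mul_one]
  · obtain ⟨δ, hδ, hh⟩ := hmod ε hε
    have hC0 : 0 ≤ C := (h0 (Classical.arbitrary I) (Classical.arbitrary I)).trans (hC _ _)
    refine ⟨(ε * δ / (C + 1)) ^ 2, by positivity, fun u v huv => ciSup_le fun p => ?_⟩
    simp only [φ]
    set a := dist u v with ha
    have ha0 : 0 ≤ a := dist_nonneg
    set c := dist p.1 p.2 with hc
    have hc0 : 0 ≤ c := dist_nonneg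
    have hs0 : 0 ≤ √a := Real.sqrt_nonneg _
    have hsa : √a * √a = a := Real.mul_self_sqrt ha0
    have hm0 : 0 ≤ min 1 (a / c) := le_min zero_le_one (div_nonneg ha0 hc0)
    rcases le_total c δ with h | h
    · refine (mul_le_mul_of_nonneg_right (hh _ _ h) hm0).trans ?_
      rw [mul_assoc]
      refine mul_le_mul_of_nonneg_left ?_ hε.le
      rcases le_total c a with h1 | h1
      · exact (mul_le_of_le_one_right (Real.sqrt_nonneg _) (min_le_left _ _)).trans
          (Real.sqrt_le_sqrt h1)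
      · refine (mul_le_mul_of_nonneg_left (min_le_right _ _) (Real.sqrt_nonneg _)).trans ?_
        rcases hc0.eq_or_lt with h2 | h2
        · rw [← hc, ← h2]; simp
        · have h3 : √a ≤ √c := Real.sqrt_le_sqrt h1
          have h4 : √c * √c = c := Real.mul_self_sqrt hc0
          have h5 : 0 ≤ √c := Real.sqrt_nonneg _
          rw [← hc, ← mul_div_assoc, div_le_iff₀ h2]
          calc √c * a = √a * (√a * √c) := by rw [← hsa, Real.sqrt_mul_self hs0]; ring
            _ ≤ √a * (√c * √c) :=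
                mul_le_mul_of_nonneg_left (mul_le_mul_of_nonneg_right h3 h5) hs0
            _ = √a * c := by rw [h4]
    · have h1 : √a ≤ ε * δ / (C + 1) := Real.sqrt_le_iff.2 ⟨by positivity, huv⟩
      rw [le_div_iff₀ (by positivity)] at h1
      have h2 : min 1 (a / c) ≤ a / δ :=
        (min_le_right _ _).trans (div_le_div_of_nonneg_left ha0 hδ h)
      refine (mul_le_mul (hC _ _) h2 hm0 hC0).trans ?_
      rw [← mul_div_assoc, div_le_iff₀ hδ]
      nlinarith

/-- carrier of the glued space -/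
def Gl (I F : Type) : Type := I × F

theorem glue {I F : Type} [Nonempty I] [PseudoMetricSpace F] (b : I → F) (d W : I → I → ℝ) (Λ : ℝ)
    (hΛ : 1 ≤ Λ) (d0 : ∀ s, d s s = 0) (dc : ∀ s t, d s t = d t s)
    (dt : ∀ s t u, d s u ≤ d s t + d t u) (W0 : ∀ s, W s s = 0) (Wc : ∀ s t, W s t = W t s)
    (Wt : ∀ s t u, W s u ≤ W s t + W t u) (hup : ∀ s t, d s t ≤ dist (b s) (b t) + W s t)
    (hlo : ∀ s t, dist (b s) (b t) ≤ Λ * (d s t + W s t)) :
    ∃ (V : Type) (_ : MetricSpace V) (ι : I → F → V),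
      (∀ t x y, dist (ι t x) (ι t y) ≤ dist x y ∧ dist x y ≤ Λ * dist (ι t x) (ι t y)) ∧
      (∀ s t x, dist (ι t x) (ι s x) ≤ W t s) ∧ ∀ s t, dist (ι s (b s)) (ι t (b t)) = d s t := by
  have dn : ∀ s t, 0 ≤ d s t := fun s t => by
    have := dt s t s
    rw [d0, dc t s] at this
    linarith
  have Wn : ∀ s t, 0 ≤ W s t := fun s t => by
    have := Wt s t s
    rw [W0, Wc t s] at this
    linarith
  let A : I × F → I × F → ℝ := fun p q => dist p.2 q.2 + W p.1 q.1
  have An : ∀ p q, 0 ≤ A p q := fun p q => add_nonneg dist_nonneg (Wn _ _)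
  have Ac : ∀ p q, A p q = A q p := fun p q => by simp only [A]; rw [dist_comm, Wc]
  have At : ∀ p q r, A p r ≤ A p q + A q r := fun p q r => by
    simp only [A]
    linarith [dist_triangle p.2 q.2 r.2, Wt p.1 q.1 r.1]
  let c : I × F → I × F → I × I → ℝ := fun p q w =>
    A p (w.1, b w.1) + d w.1 w.2 + A (w.2, b w.2) q
  have cn : ∀ p q w, 0 ≤ c p q w := fun p q w => add_nonneg (add_nonneg (An _ _) (dn _ _)) (An _ _)
  have cb : ∀ p q, BddBelow (Set.range (c p q)) := fun p q => ⟨0, by
    rintro _ ⟨w, rfl⟩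
    exact cn p q w⟩
  let G : I × F → I × F → ℝ := fun p q => ⨅ w, c p q w
  have Gl1 : ∀ p q w, G p q ≤ c p q w := fun p q w => ciInf_le (cb p q) w
  have Gn : ∀ p q, 0 ≤ G p q := fun p q => le_ciInf (cn p q)
  have Gc' : ∀ p q, G p q ≤ G q p := fun p q => le_ciInf fun w => by
    refine (Gl1 p q (w.2, w.1)).trans (le_of_eq ?_)
    simp only [c]
    rw [Ac p, Ac _ q, dc]
    ring
  have G2 : ∀ p q r, G p r ≤ A p q + G q r := fun p q r => by
    rw [← sub_le_iff_le_add']
    refine le_ciInf fun w => ?_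
    have := Gl1 p r w
    simp only [c] at this ⊢
    linarith [At p q (w.1, b w.1)]
  have G3 : ∀ p q r, G p r ≤ G p q + A q r := fun p q r => by
    have := G2 r q p
    linarith [Gc' p r, Gc' q p, Ac r q]
  have G4 : ∀ p q r, G p r ≤ G p q + G q r := fun p q r => by
    refine le_ciInf_add_ciInf fun w w' => ?_
    have h1 := Gl1 p r (w.1, w'.2)
    have h2 := At (w.2, b w.2) q (w'.1, b w'.1)
    have h3 := hup w.2 w'.1
    simp only [c, A] at h1 h2 h3 ⊢
    linarith [dt w.1 w.2 w'.2, dt w.2 w'.1 w'.2]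
  let _ : PseudoMetricSpace (Gl I F) :=
    { dist := fun p q => min (A p q) (G p q)
      dist_self := fun p => by
        have : A p p = 0 := by simp [A, W0]
        rw [this]
        exact min_eq_left (Gn p p)
      dist_comm := fun p q => by
        rw [Ac p q, le_antisymm (Gc' p q) (Gc' q p)]
      dist_triangle := fun p q r => by
        have h1 := min_le_left (A p r) (G p r)
        have h2 := min_le_right (A p r) (G p r)
        rcases min_choice (A p q) (G p q) with a | a <;>
          rcases min_choice (A q r) (G q r) with a' | a' <;> rw [a, a']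
        · linarith [At p q r]
        · linarith [G2 p q r]
        · linarith [G3 p q r]
        · linarith [G4 p q r] }
  have hd : ∀ p q : I × F, dist (SeparationQuotient.mk (X := Gl I F) p)
      (SeparationQuotient.mk (X := Gl I F) q) = min (A p q) (G p q) := fun p q =>
    SeparationQuotient.dist_mk _ _
  refine ⟨SeparationQuotient (Gl I F), inferInstance,
    fun t x => SeparationQuotient.mk (X := Gl I F) (t, x), fun t x y => ⟨?_, ?_⟩,
    fun s t x => ?_, fun s t => ?_⟩
  · rw [hd]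
    exact (min_le_left _ _).trans (by simp [A, W0])
  · rw [hd, ← div_le_iff₀' (by linarith)]
    refine le_min ?_ (le_ciInf fun w => ?_)
    · simp only [A, W0, add_zero]
      exact div_le_self dist_nonneg hΛ
    · rw [div_le_iff₀' (by linarith)]
      simp only [c, A]
      have h1 := dist_triangle4 x (b w.1) (b w.2) y
      have h2 := hlo w.1 w.2
      have h3 := Wt w.1 t w.2
      rw [Wc w.1 t, Wc t w.2] at h3
      have h4 := mul_le_mul_of_nonneg_left h3 (show 0 ≤ Λ by linarith)
      have h5 := le_mul_of_one_le_left (dist_nonneg (x := x) (y := b w.1)) hΛ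
      have h6 := le_mul_of_one_le_left (dist_nonneg (x := b w.2) (y := y)) hΛ
      linarith
  · rw [hd]
    exact (min_le_left _ _).trans (by simp [A])
  · rw [hd]
    refine le_antisymm ((min_le_right _ _).trans ((Gl1 _ _ (s, t)).trans (by simp [c, A, W0])))
      (le_min (hup s t) (le_ciInf fun w => ?_))
    simp only [c, A]
    linarith [hup s w.1, hup w.2 t, dt s w.1 t, dt w.1 w.2 t]

end Pool.Agent.MP_037c5a_pr.TL
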