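import Pool.Agent.MP_037c5a_pr.TL.Final
import Pool.Agent.MP_037c5a_pr.TL.Glue

open MeasureTheory ProbabilityTheory Set Filter Topology
open scoped ENNReal NNReal

namespace Pool.Agent.MP_037c5a_pr.TL

theorem cd2_of_sim {V X : Type} [MetricSpace V] [MetricSpace X] {S' : Set V} {S : Set X}
    (g : S' → S) {c : ℝ} (hc : 0 < c) (hg : ∀ p q, dist (g p) (g q) = c * dist p q)
    (h : CD2 S') : CD2 S := by
  intro Y _ f η hf hη hηc hη0 hq
  have hinj : Function.Injective g := fun p q e => by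
    have := hg p q
    rw [e, dist_self] at this
    exact dist_eq_zero.1 ((mul_eq_zero.1 this.symm).resolve_left hc.ne')
  refine (h Y (f ∘ g) η (hf.comp hinj) hη hηc hη0 fun x a b hab => ?_).trans
    (dimH_mono (range_comp_subset_range g f))
  have := hq (g x) (g a) (g b) (hinj.ne hab)
  rwa [hg, hg, mul_div_mul_left _ _ hc.ne'] at this

/-- the conclusion of the moving plane theorem for the path `β` -/
def MP (β : ℝ≥0 → E) : Prop :=
  ∀ (V : Type) [MetricSpace V] (ι : ℝ≥0 → E → V) (Λ : ℝ), 1 ≤ Λ → BL Λ ι →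
    (∀ ε : ℝ, 0 < ε → ∃ δ : ℝ, 0 < δ ∧ ∀ s t : ℝ≥0, s ≤ t → t ≤ 1 → (t : ℝ) - s ≤ δ →
      ∀ x : E, dist (ι t x) (ι s x) ≤ ε * Real.sqrt ((t : ℝ) - s)) →
    CD2 ((fun t : ℝ≥0 => ι t (β t)) '' Icc 0 1)

theorem curve_unit {β : ℝ≥0 → E} (hβ : Continuous β) (h : MP β) {X : Type} [MetricSpace X]
    (γ : ℝ≥0 → X) (C₁ C₂ : ℝ)
    (hm : ∀ ε : ℝ, 0 < ε → ∃ δ : ℝ, 0 < δ ∧ ∀ s ∈ Icc (0 : ℝ≥0) 1, ∀ t ∈ Icc (0 : ℝ≥0) 1,
      dist s t ≤ δ → dist (γ s) (γ t) ≤ C₁ * dist (β s) (β t) + ε * √(dist s t) ∧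
        dist (β s) (β t) ≤ C₂ * dist (γ s) (γ t) + ε * √(dist s t)) :
    CD2 (γ '' Icc 0 1) := by
  have hγ : ContinuousOn γ (Icc 0 1) := by
    obtain ⟨δ, hδ, hh⟩ := hm 1 one_pos
    intro s hs
    have h1 : Continuous fun t : ℝ≥0 => C₁ * dist (β t) (β s) + 1 * √(dist t s) := by fun_prop
    have h2 := (h1.tendsto' s 0 (by simp)).mono_left (nhdsWithin_le_nhds (s := Icc 0 1))
    refine tendsto_iff_dist_tendsto_zero.2 (squeeze_zero'
      (Eventually.of_forall fun _ => dist_nonneg) ?_ h2)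
    filter_upwards [self_mem_nhdsWithin,
      mem_nhdsWithin_of_mem_nhds (Metric.closedBall_mem_nhds s hδ)] with t ht ht'
    exact (hh t ht s hs ht').1
  obtain ⟨a, ha⟩ := Metric.isBounded_iff.1 (isCompact_Icc.image_of_continuousOn hγ).isBounded
  obtain ⟨a', ha'⟩ := Metric.isBounded_iff.1
    ((isCompact_Icc (a := (0 : ℝ≥0)) (b := 1)).image hβ).isBounded
  set C := max (max C₁ C₂) 1 with hC
  have hC1 : 1 ≤ C := le_max_right _ _
  have hC0 : 0 < C := by linarith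
  have hCa : C₁ ≤ C := (le_max_left _ _).trans (le_max_left _ _)
  have hCb : C₂ ≤ C := (le_max_right _ _).trans (le_max_left _ _)
  have hΛ : 1 ≤ C ^ 2 := one_le_pow₀ hC1
  have : Nonempty (Icc (0 : ℝ≥0) 1) := ⟨⟨0, le_rfl, zero_le⟩⟩
  let b : Icc (0 : ℝ≥0) 1 → E := fun t => β t
  let d : Icc (0 : ℝ≥0) 1 → Icc (0 : ℝ≥0) 1 → ℝ := fun s t => dist (γ s) (γ t) / C
  have dn : ∀ s t, 0 ≤ d s t := fun s t => div_nonneg dist_nonneg hC0.le
  obtain ⟨W, W0, Wc, Wt, We, Wm⟩ := exists_W (fun s t : Icc (0 : ℝ≥0) 1 =>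
    max 0 (max (d s t - dist (b s) (b t)) (dist (b s) (b t) / C ^ 2 - d s t))) (a + a')
    (fun _ _ => le_max_left _ _) (fun s t => by
      have h1 : dist (γ s) (γ t) ≤ a := ha (mem_image_of_mem _ s.2) (mem_image_of_mem _ t.2)
      have h2 : dist (b s) (b t) ≤ a' := ha' (mem_image_of_mem _ s.2) (mem_image_of_mem _ t.2)
      have h3 : d s t ≤ dist (γ s) (γ t) := div_le_self dist_nonneg hC1
      have h4 : dist (b s) (b t) / C ^ 2 ≤ dist (b s) (b t) := div_le_self dist_nonneg hΛ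
      have h5 := dn s t
      have h6 := dist_nonneg (x := b s) (y := b t)
      exact max_le (by linarith) (max_le (by linarith) (by linarith))) (fun ε hε => by
      obtain ⟨δ, hδ, hh⟩ := hm ε hε
      refine ⟨δ, hδ, fun s t hst => ?_⟩
      obtain ⟨h1, h2⟩ := hh s s.2 t t.2 hst
      have h3 : 0 ≤ ε * √(dist s t) := by positivity
      have h4 := mul_le_mul_of_nonneg_right hCa (dist_nonneg (x := β s) (y := β t))
      have h5 := mul_le_mul_of_nonneg_right hCb (dist_nonneg (x := γ s) (y := γ t))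
      have h6 := le_mul_of_one_le_right h3 hC1
      have h7 := le_mul_of_one_le_right h3 hΛ
      refine max_le h3 (max_le ?_ ?_)
      · rw [sub_le_iff_le_add, div_le_iff₀ hC0]
        simp only [b]
        change dist (γ s) (γ t) ≤ _ + ε * √(dist s t) at h1
        linarith
      · rw [sub_le_iff_le_add, div_le_iff₀ (by positivity)]
        have e : (ε * √(dist s t) + d s t) * C ^ 2 =
            ε * √(dist s t) * C ^ 2 + C * dist (γ s) (γ t) := by
          simp only [d]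
          field_simp
        rw [e]
        simp only [b]
        change dist (β s) (β t) ≤ _ + ε * √(dist s t) at h2
        linarith)
  obtain ⟨V, _, ι, i1, i2, i3⟩ := glue b d W (C ^ 2) hΛ (fun s => by simp [d])
    (fun s t => by simp only [d]; rw [dist_comm])
    (fun s t u => by
      simp only [d]
      rw [← add_div]
      exact div_le_div_of_nonneg_right (dist_triangle _ _ _) hC0.le) W0 Wc Wt
    (fun s t => by
      have := ((le_max_left _ _).trans (le_max_right _ _)).trans (We s t)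
      linarith)
    (fun s t => by
      have := ((le_max_right _ _).trans (le_max_right _ _)).trans (We s t)
      rw [← div_le_iff₀' (by positivity)]
      linarith)
  have h1 := h V (fun t => ι (projIcc 0 1 zero_le t)) (C ^ 2) hΛ (fun t => i1 _) fun ε hε => by
    obtain ⟨δ, hδ, hh⟩ := Wm ε hε
    refine ⟨δ, hδ, fun s t hst ht hd x => (i2 _ _ x).trans ?_⟩
    have e : dist (projIcc (0 : ℝ≥0) 1 zero_le t) (projIcc (0 : ℝ≥0) 1 zero_le s) = (t : ℝ) - s := by
      rw [projIcc_of_mem _ ⟨zero_le, ht⟩, projIcc_of_mem _ ⟨zero_le, hst.trans ht⟩, Subtype.dist_eq,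
        NNReal.dist_eq, abs_of_nonneg (sub_nonneg.2 (NNReal.coe_le_coe.2 hst))]
    have := hh _ _ (e.le.trans hd)
    rwa [e] at this
  have h2 : ∀ p : ((fun t : ℝ≥0 => ι (projIcc 0 1 zero_le t) (β t)) '' Icc 0 1),
      ∃ t : Icc (0 : ℝ≥0) 1, (p : V) = ι t (b t) := by
    rintro ⟨_, t, ht, rfl⟩
    exact ⟨⟨t, ht⟩, by simp only [projIcc_of_mem _ ht, b]⟩
  choose τ hτ using h2
  refine cd2_of_sim (fun p => ⟨γ (τ p), mem_image_of_mem _ (τ p).2⟩) hC0 (fun p q => ?_) h1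
  rw [Subtype.dist_eq, Subtype.dist_eq p q, hτ p, hτ q, i3]
  simp only [d]
  field_simp

/-- the affine time change from the unit interval onto the `a`-th interval of length `1/(n+1)` -/
noncomputable def tc (a n : ℕ) (t : ℝ≥0) : ℝ≥0 := (a + t) / (n + 1)

theorem tc_mono (a n : ℕ) : Monotone (tc a n) := fun s t h => by
  unfold tc
  gcongr

theorem tc_coe (a n : ℕ) (t : ℝ≥0) : (tc a n t : ℝ) = (a + t) / (n + 1) := by
  simp [tc]

theorem tc_dist (a n : ℕ) (s t : ℝ≥0) : dist (tc a n s) (tc a n t) = dist s t / (n + 1) := by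
  rw [NNReal.dist_eq, NNReal.dist_eq, tc_coe, tc_coe, ← sub_div, abs_div, add_sub_add_left_eq_sub,
    abs_of_pos (show (0 : ℝ) < n + 1 by positivity)]

theorem mp_all (hM : StmtMain) (Ω : Type) [MeasurableSpace Ω] (P : Measure Ω)
    [IsProbabilityMeasure P] (B : Fin 2 → ℝ≥0 → Ω → ℝ)
    (hc : ∀ i ω, Continuous (fun t => B i t ω))
    (hlaw : ∀ i, ∀ s t : ℝ≥0, s ≤ t → P.map (fun ω => B i t ω - B i s ω) = gaussianReal 0 (t - s))
    (hind : ∀ i (n : ℕ) (τ : Fin (n + 1) → ℝ≥0), Monotone τ →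
      iIndepFun (fun (k : Fin n) (ω : Ω) => B i (τ k.succ) ω - B i (τ k.castSucc) ω) P)
    (hI : IndepFun (fun ω t => B 0 t ω) (fun ω t => B 1 t ω) P) :
    ∀ᵐ ω ∂P, ∀ a n : ℕ, MP fun t => √((n : ℝ) + 1) • Fi.Bv B ω (tc a n t) := by
  rw [ae_all_iff]; intro a
  rw [ae_all_iff]; intro n
  have hn : (0 : ℝ) < n + 1 := by positivity
  have htc : Continuous (tc a n) := by unfold tc; fun_prop
  have h := hM Ω P (fun i t ω => √((n : ℝ) + 1) * B i (tc a n t) ω)
    (fun i ω => continuous_const.mul ((hc i ω).comp htc)) (fun i s t hst => by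
      have h3 := hlaw i _ _ (tc_mono a n hst)
      have h4 : (fun ω => √((n : ℝ) + 1) * B i (tc a n t) ω - √((n : ℝ) + 1) * B i (tc a n s) ω) =
          (fun x => √((n : ℝ) + 1) * x) ∘ fun ω => B i (tc a n t) ω - B i (tc a n s) ω := by
        funext ω
        simp only [Function.comp, mul_sub]
      rw [h4, ← AEMeasurable.map_map_of_aemeasurable (by fun_prop)
        (Fi.aem_incr hlaw i (tc_mono a n hst)), h3, gaussianReal_map_const_mul, mul_zero]
      congr 1
      apply NNReal.eq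
      rw [NNReal.coe_mul, NNReal.coe_sub (tc_mono a n hst), NNReal.coe_sub hst, tc_coe, tc_coe]
      simp only [NNReal.coe_mk]
      rw [Real.sq_sqrt hn.le]
      field_simp
      ring)
    (fun i m τ hτ => by
      have h1 := (hind i m (fun k => tc a n (τ k)) ((tc_mono a n).comp hτ)).comp
        (fun _ x => √((n : ℝ) + 1) * x) (fun _ => by fun_prop)
      convert h1 using 2 with k
      funext ω
      simp only [Function.comp, mul_sub])
    (hI.comp (φ := fun (f : ℝ≥0 → ℝ) t => √((n : ℝ) + 1) * f (tc a n t))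
      (ψ := fun (f : ℝ≥0 → ℝ) t => √((n : ℝ) + 1) * f (tc a n t)) (by fun_prop) (by fun_prop))
  filter_upwards [h] with ω hω
  exact hω

theorem curve_all {β : ℝ≥0 → E} (hβ : Continuous β)
    (h : ∀ a n : ℕ, MP fun t => √((n : ℝ) + 1) • β (tc a n t)) {u v : ℝ≥0} (huv : u < v)
    {X : Type} [MetricSpace X] (γ : ℝ≥0 → X) (C : ℝ)
    (hm : ∀ ε : ℝ, 0 < ε → ∃ δ : ℝ, 0 < δ ∧ ∀ s ∈ Icc u v, ∀ t ∈ Icc u v,
      dist s t ≤ δ → dist (γ s) (γ t) ≤ C * dist (β s) (β t) + ε * √(dist s t) ∧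
        dist (β s) (β t) ≤ C * dist (γ s) (γ t) + ε * √(dist s t)) :
    CD2 (γ '' Icc u v) := by
  have huv' : (0 : ℝ) < v - u := sub_pos.2 (NNReal.coe_lt_coe.2 huv)
  obtain ⟨n, hn⟩ := exists_nat_ge (2 / ((v : ℝ) - u))
  have hn0 : (0 : ℝ) < n + 1 := by positivity
  have hn1 : (1 : ℝ) ≤ n + 1 := by linarith [Nat.cast_nonneg (α := ℝ) n]
  set a := ⌈(u : ℝ) * (n + 1)⌉₊ with ha
  have hmem : ∀ t ∈ Icc (0 : ℝ≥0) 1, tc a n t ∈ Icc u v := by
    intro t ht
    have h1 : (u : ℝ) * (n + 1) ≤ a := Nat.le_ceil _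
    have h2 : (a : ℝ) < u * (n + 1) + 1 := Nat.ceil_lt_add_one (by positivity)
    have h3 : (t : ℝ) ≤ 1 := NNReal.coe_le_coe.2 ht.2
    rw [div_le_iff₀ huv'] at hn
    constructor
    · rw [← NNReal.coe_le_coe, tc_coe, le_div_iff₀ hn0]
      linarith [t.2]
    · rw [← NNReal.coe_le_coe, tc_coe, div_le_iff₀ hn0]
      nlinarith
  have hs : 0 < √((n : ℝ) + 1) := Real.sqrt_pos.2 hn0
  have htc : Continuous (tc a n) := by unfold tc; fun_prop
  have h1 := curve_unit (β := fun t => √((n : ℝ) + 1) • β (tc a n t))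
    (by fun_prop) (h a n) (fun t => γ (tc a n t)) (C / √((n : ℝ) + 1))
    (√((n : ℝ) + 1) * C) fun ε hε => by
      obtain ⟨δ, hδ, hh⟩ := hm ε hε
      refine ⟨δ, hδ, fun s hs' t ht hst => ?_⟩
      have e := tc_dist a n s t
      have e1 : dist s t / (n + 1) ≤ dist s t := div_le_self dist_nonneg hn1
      obtain ⟨h1, h2⟩ := hh _ (hmem s hs') _ (hmem t ht) (by rw [e]; linarith)
      rw [e] at h1 h2
      rw [dist_smul₀, Real.norm_of_nonneg hs.le]
      constructor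
      · have e2 := mul_le_mul_of_nonneg_left (Real.sqrt_le_sqrt e1) hε.le
        rw [← mul_assoc, div_mul_cancel₀ _ hs.ne']
        linarith
      · refine (mul_le_mul_of_nonneg_left h2 hs.le).trans (le_of_eq ?_)
        rw [Real.sqrt_div' _ hn0.le]
        field_simp
  refine cd2_of_sim (c := 1) (fun p => ⟨p, ?_⟩) one_pos (fun p q => ?_) h1
  · obtain ⟨t, ht, e⟩ := p.2
    exact ⟨_, hmem t ht, e⟩
  · rw [one_mul]
    rfl

end Pool.Agent.MP_037c5a_pr.TL
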