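import Pool.Agent.MP_037c5a_pr.TL.Step

open MeasureTheory Finset ProbabilityTheory

namespace Pool.Agent.MP_037c5a_pr.TL

theorem dS_near (x : E) {ε : ℝ} (hε : 0 < ε) : ∃ n, dist (dS n) x ≤ ε := by
  obtain ⟨n, hn⟩ := (TopologicalSpace.denseRange_denseSeq E).exists_dist_lt x hε
  exact ⟨n, by rw [dist_comm]; exact hn.le⟩

theorem meas_own (𝓜 : Model) {Ψ : Set E → Prop} (hΨ : MeasPred Ψ) :
    MeasurableSet {x : E × 𝓜.X | Ψ (Set.range fun a => 𝓜.pt a x.1 x.2)} := by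
  refine hΨ _ _ (fun x : E × 𝓜.X => Set.range fun a => 𝓜.pt a x.1 x.2) fun y ρ => ?_
  have : {x : E × 𝓜.X | Hit (Set.range fun a => 𝓜.pt a x.1 x.2) y ρ} =
      ⋃ a : 𝓜.I, {x : E × 𝓜.X | dist (𝓜.pt a x.1 x.2) y ≤ ρ} := by
    ext x
    simp only [Hit, Set.mem_ofPred_eq, Set.mem_iUnion]
    constructor
    · rintro ⟨p, ⟨a, rfl⟩, hd⟩
      exact ⟨a, hd⟩
    · rintro ⟨a, hd⟩
      exact ⟨_, ⟨a, rfl⟩, hd⟩
  rw [this]
  exact MeasurableSet.iUnion fun a =>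
    measurableSet_le ((𝓜.meas a).dist measurable_const) measurable_const

open Classical in
/-- a segment that has the property `Ψ` is marked by a dense set of points of the unit ball -/
noncomputable def mark (𝓜 : Model) {Ψ : Set E → Prop} (hΨ : MeasPred Ψ) : Model where
  X := 𝓜.X
  ms := 𝓜.ms
  μ := 𝓜.μ
  prob := 𝓜.prob
  I := Option ℕ
  cI := inferInstance
  pt := fun a c ω => a.elim 0 fun n =>
    if Ψ (Set.range fun a => 𝓜.pt a c ω) ∧ ‖dS n‖ ≤ 1 then dS n else 0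
  meas := fun a => by
    cases a with
    | none => exact measurable_const
    | some n =>
      exact Measurable.ite ((meas_own 𝓜 hΨ).inter (MeasurableSet.const _)) measurable_const
        measurable_const
  zero := ⟨none, fun _ _ => rfl⟩

/-- the set is dense in a small disc near the origin -/
def Lf (D : ℝ) (T : Set E) : Prop :=
  ∃ n : ℕ, ‖dS n‖ ≤ D + 1 / 4 ∧
    ∀ n' j : ℕ, dist (dS n') (dS n) ≤ 1 / 4 → Hit T (dS n') (1 / ((j : ℝ) + 1))

theorem meas_Lf (D : ℝ) : MeasPred (Lf D) :=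
  MeasPred.ex fun _ => (MeasPred.const _).and (MeasPred.all fun _ => MeasPred.all fun _ =>
    MeasPred.imp _ fun _ _ _ hT => hT _ _)

theorem mono_Lf (D : ℝ) : MonoPred (Lf D) :=
  fun _ _ hT ⟨n, h1, h2⟩ => ⟨n, h1, fun n' j h => by
    obtain ⟨p, hp, hd⟩ := h2 n' j h
    exact ⟨p, hT hp, hd⟩⟩

theorem lf_of_mark {D : ℝ} {T : Set E} {A : E} (hA : ‖A‖ ≤ D)
    (h : ∀ n, ‖dS n‖ ≤ 1 → A + dS n ∈ T) : Lf D T := by
  obtain ⟨n, hn⟩ := dS_near A (ε := 1 / 4) (by norm_num)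
  refine ⟨n, ?_, fun n' j hn' => ?_⟩
  · have := norm_le_norm_add_norm_sub' (dS n) A
    rw [dist_eq_norm] at hn
    linarith
  · obtain ⟨l, hl⟩ := dS_near (dS n' - A) (ε := min (1 / ((j : ℝ) + 1)) (1 / 2)) (by positivity)
    have h1 : ‖dS n' - A‖ ≤ 1 / 2 := by
      rw [← dist_eq_norm]
      linarith [dist_triangle (dS n') (dS n) A]
    refine ⟨A + dS l, h l ?_, ?_⟩
    · have := norm_le_norm_add_norm_sub' (dS l) (dS n' - A)
      rw [dist_eq_norm] at hl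
      linarith [min_le_right (1 / ((j : ℝ) + 1)) (1 / 2)]
    · refine le_trans (le_of_eq ?_) (hl.trans (min_le_left _ _))
      rw [dist_eq_norm, dist_eq_norm]
      congr 1
      abel

theorem lf_finite {D : ℝ} {T F : Set E} (hF : F.Finite) (h : Lf D T) :
    ∃ p ∈ T, p ∉ F ∧ ‖p‖ ≤ D + 1 / 2 := by
  obtain ⟨n, h1, h2⟩ := h
  have hU : IsOpen (Metric.ball (dS n) (1 / 4) \ F) := Metric.isOpen_ball.sdiff hF.isClosed
  have hne : (Metric.ball (dS n) (1 / 4) \ F).Nonempty := by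
    have : (Metric.ball (dS n) (1 / 4)).Infinite :=
      infinite_of_mem_nhds (dS n) (Metric.ball_mem_nhds _ (by norm_num))
    exact (this.sdiff hF).nonempty
  obtain ⟨y, hy⟩ := hne
  obtain ⟨ε, hε, hb⟩ := Metric.isOpen_iff.1 hU y hy
  obtain ⟨n', hn'⟩ := dS_near y (ε := ε / 3) (by positivity)
  obtain ⟨j, hj⟩ := exists_nat_one_div_lt (show 0 < ε / 3 by positivity)
  have hm : dS n' ∈ Metric.ball (dS n) (1 / 4) \ F := hb (by rw [Metric.mem_ball]; linarith)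
  obtain ⟨p, hp, hd⟩ := h2 n' j (Metric.mem_ball.1 hm.1).le
  have hp' : p ∈ Metric.ball (dS n) (1 / 4) \ F :=
    hb (by rw [Metric.mem_ball]; linarith [dist_triangle p (dS n') y])
  refine ⟨p, hp, hp'.2, ?_⟩
  have h3 := Metric.mem_ball.1 hp'.1
  have := norm_le_norm_add_norm_sub' p (dS n)
  rw [dist_eq_norm] at h3
  linarith

theorem win_mark {g : Glob} {𝓜 : Model} {Ψ : Set E → Prop} (hΨ : MeasPred Ψ) {δ : ENNReal}
    (H : Seg g 𝓜 Ψ δ) (h : ℝ) (h0 : 0 < h) : Win g (mark 𝓜 hΨ) (Lf g.D) h δ := by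
  intro ι _ s A B hok
  obtain ⟨i, hi⟩ : s.Nonempty := by
    rw [nonempty_iff_ne_empty]
    rintro rfl
    have := hok.ht
    simp at this
    linarith
  have hc : ‖B i - A i‖ ≤ 2 * g.D := by
    have := norm_sub_le (B i) (A i)
    linarith [(hok.cut i hi).1, (hok.cut i hi).2]
  have hm : MeasurableSet {ω : 𝓜.X | ¬ Ψ (Set.range fun a => 𝓜.pt a (B i - A i) ω)} :=
    (measurable_prodMk_left (meas_own 𝓜 hΨ)).compl
  have h1 := (measurePreserving_eval (fun _ : ι => 𝓜.μ) i).measure_preimage hm.nullMeasurableSet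
  refine le_trans (measure_mono ?_) (h1.le.trans (H _ hc))
  intro ω hω hω'
  refine hω (lf_of_mark (hok.cut i hi).1 fun n hn => ⟨i, hi, some n, ?_⟩)
  simp only [mark, Option.elim]
  rw [if_pos ⟨hω', hn⟩]

/-- the model is realised inside a free Gaussian walk, its points falling into `S ξ` -/
def CoupS (𝓜 : Model) (m : ℕ) (S : (ℕ → E) → Set E) : Prop :=
  0 < m ∧ ∃ Ψ : (Fin m → E) → 𝓜.X,
    MeasurePreserving (fun w : Fin m → E => ((Real.sqrt m)⁻¹ • ∑ i, w i, Ψ w))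
      (Measure.pi fun _ => gam) (gam.prod 𝓜.μ) ∧
    ∀ (ξ : ℕ → E) (a : 𝓜.I),
      ξ 0 + Real.sqrt m • 𝓜.pt a ((Real.sqrt m)⁻¹ • (ξ m - ξ 0))
        (Ψ fun i => ξ (i + 1) - ξ i) ∈ S ξ

theorem CoupS.mono {𝓜 : Model} {m : ℕ} {S S' : (ℕ → E) → Set E} (h : CoupS 𝓜 m S)
    (hS : ∀ ξ, S ξ ⊆ S' ξ) : CoupS 𝓜 m S' := by
  obtain ⟨hm, Ψ, h1, h2⟩ := h
  exact ⟨hm, Ψ, h1, fun ξ a => hS ξ (h2 ξ a)⟩

theorem coupS_base (hC : StmtChain) : CoupS baseModel 1 fun ξ => {ξ 0} := by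
  obtain ⟨h0, Ψ, h1, -⟩ := coupled_base hC
  exact ⟨h0, Ψ, h1, fun ξ a => by simp [baseModel]⟩

theorem coupS_refine (hC : StmtChain) (hS : StmtSplit) (k : ℕ) {M : ℝ} (hM : 0 < M)
    (hM2 : M ^ 2 = k + 1) {𝓜 : Model} {m : ℕ} {S S' : (ℕ → E) → Set E} (h : CoupS 𝓜 m S)
    (hSS : ∀ (ξ : ℕ → E) (l : ℕ), l ≤ k → S (fun j => ξ (j + m * l)) ⊆ S' ξ) :
    CoupS (refine hC k M 𝓜) ((k + 1) * m) S' := by
  have := hC.gam_prob
  have := hC.nu_prob k
  obtain ⟨hm, Ψ, hΨ, hpt⟩ := h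
  have hm' : (0 : ℝ) < Real.sqrt m := Real.sqrt_pos.2 (by exact_mod_cast hm)
  have hsq : Real.sqrt (((k + 1) * m : ℕ) : ℝ) = M * Real.sqrt m := by
    push_cast
    rw [← hM2, Real.sqrt_mul (by positivity), Real.sqrt_sq hM.le]
  let spl : (Fin (k + 1) → E) → Fin k → E := fun c l =>
    (∑ i ∈ univ.filter (fun i : Fin (k + 1) => i.val ≤ l.val), c i) -
      (((l : ℝ) + 1) / (k + 1)) • ∑ i, c i
  refine ⟨by positivity, fun w => (spl fun l => (Real.sqrt m)⁻¹ • ∑ i, blk w l i,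
    fun l => Ψ (blk w l)), ?_, fun ξ a => ?_⟩
  · have h1 := mp_blocks hC (k + 1) m 𝓜.μ Ψ hΨ
    have h2 := (hS k M hM hM2).prod (MeasurePreserving.id (Measure.pi fun _ : Fin (k + 1) => 𝓜.μ))
    have h3 := measurePreserving_prodAssoc gam (nu k) (Measure.pi fun _ : Fin (k + 1) => 𝓜.μ)
    have h4 := h3.comp (h2.comp h1)
    refine (congrArg (fun f => MeasurePreserving f _ _) ?_).mpr h4
    funext w
    simp only [Function.comp, Prod.map, id, MeasurableEquiv.prodAssoc, MeasurableEquiv.coe_mk,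
      Equiv.prodAssoc_apply, spl]
    rw [hsq, ← smul_sum, smul_smul, mul_inv, ← Fintype.sum_prod_type',
      ← finProdFinEquiv.sum_comp]
    rfl
  · obtain ⟨l, a⟩ := a
    let U : ℕ → E := fun l => (Real.sqrt m)⁻¹ • ξ (m * l)
    have hc : (fun l : Fin (k + 1) => (Real.sqrt m)⁻¹ •
        ∑ i, blk (fun i : Fin ((k + 1) * m) => ξ (i + 1) - ξ i) l i) =
        fun l : Fin (k + 1) => U (l + 1) - U l := by
      funext l
      rw [sum_blk_incr, smul_sub]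
    have hQ : M • (Real.sqrt (((k + 1) * m : ℕ) : ℝ))⁻¹ • (ξ ((k + 1) * m) - ξ 0) =
        ∑ i : Fin (k + 1), (U (i + 1) - U i) := by
      rw [sum_incr, hsq, smul_smul, mul_inv, ← mul_assoc, mul_inv_cancel₀ hM.ne', one_mul,
        smul_sub]
      simp only [U, zero_mul, mul_comm m]
    have hj' := hSS ξ l (Nat.lt_succ_iff.1 l.2) (hpt (fun j => ξ (j + m * l)) a)
    convert hj' using 1
    simp only [refine]
    rw [hQ, hc, bp_split k U l l.2.le, bp_split k U (l + 1) l.2, blk_incr, hsq,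
      smul_smul, mul_right_comm, mul_inv_cancel₀ hM.ne', one_mul, sub_sub_sub_cancel_right,
      smul_add]
    simp only [U, ← smul_sub, smul_smul, mul_inv_cancel₀ hm'.ne', one_smul, mul_zero, zero_add,
      mul_add, mul_one, add_comm m]
    abel

theorem coupS_mark {𝓜 : Model} {m : ℕ} {S : (ℕ → E) → Set E} {Ψ : Set E → Prop}
    (hΨ : MeasPred Ψ) (hΨ' : MonoPred Ψ) (h : CoupS 𝓜 m S) :
    CoupS (mark 𝓜 hΨ) m fun ξ => {ξ 0} ∪
      {p | Ψ (zoom (S ξ) (ξ 0) (Real.sqrt m)) ∧ dist p (ξ 0) ≤ Real.sqrt m} := by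
  obtain ⟨hm, Θ, h1, h2⟩ := h
  refine ⟨hm, Θ, h1, fun ξ a => ?_⟩
  cases a with
  | none => exact Or.inl (by simp [mark])
  | some n =>
    simp only [mark, Option.elim]
    split_ifs with hc
    · refine Or.inr ⟨hΨ' _ _ ?_ hc.1, ?_⟩
      · rintro _ ⟨a, rfl⟩
        exact h2 ξ a
      · rw [dist_eq_norm, add_sub_cancel_left, norm_smul, Real.norm_of_nonneg (Real.sqrt_nonneg _)]
        exact mul_le_of_le_one_right (Real.sqrt_nonneg _) hc.2
    · exact Or.inl (by simp)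

/-- union over all sub-walks of `m` steps among the first `n` steps -/
def UU (S : (ℕ → E) → Set E) (m n : ℕ) (ξ : ℕ → E) : Set E :=
  {p | ∃ a : ℕ, a + m ≤ n ∧ p ∈ S fun j => ξ (j + a)}

theorem coupS_UU (hC : StmtChain) (hS : StmtSplit) (k : ℕ) {M : ℝ} (hM : 0 < M)
    (hM2 : M ^ 2 = k + 1) {𝓜 : Model} {m n : ℕ} {S : (ℕ → E) → Set E}
    (h : CoupS 𝓜 n (UU S m n)) :
    CoupS (refine hC k M 𝓜) ((k + 1) * n) (UU S m ((k + 1) * n)) ∧
      Real.sqrt (((k + 1) * n : ℕ) : ℝ) = M * Real.sqrt n := by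
  refine ⟨coupS_refine hC hS k hM hM2 h fun ξ l hl => ?_, ?_⟩
  · rintro p ⟨a, ha, hp⟩
    refine ⟨a + n * l, by nlinarith, ?_⟩
    simpa only [add_assoc] using hp
  · push_cast
    rw [← hM2, Real.sqrt_mul (by positivity), Real.sqrt_sq hM.le]

theorem coupS_tower (c : PP) (H : PPOK c) (hC : StmtChain) (hS : StmtSplit) {𝓜 : Model} {m : ℕ}
    {S : (ℕ → E) → Set E} (h : CoupS 𝓜 m S) :
    ∀ L : ℕ, ∃ n : ℕ, CoupS (tower c hC 𝓜 L) n (UU S m n) ∧
      Real.sqrt n = c.par.R ^ L * Real.sqrt m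
  | 0 => ⟨m, h.mono fun ξ p hp => ⟨0, by simp, by simpa using hp⟩, by simp⟩
  | L + 1 => by
    obtain ⟨n, h0, e0⟩ := coupS_tower c H hC hS h L
    obtain ⟨h3, e3⟩ := coupS_UU hC hS _ H.s3.mom.hM H.s3.mom.hM2 h0
    obtain ⟨h2, e2⟩ := coupS_UU hC hS _ H.s2.mom.hM H.s2.mom.hM2 h3
    obtain ⟨h1, e1⟩ := coupS_UU hC hS _ H.s1.mom.hM H.s1.mom.hM2 h2
    refine ⟨_, h1, ?_⟩
    rw [e1, e2, e3, e0]
    simp only [PP.par]
    ring

theorem prob_of_seg (hC : StmtChain) {g : Glob} (hD : 0 < g.D) :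
    ∃ p : ℝ, 0 < p ∧ ∀ (𝓜 : Model) (m : ℕ) (S : (ℕ → E) → Set E) (Ψ : Set E → Prop),
      MeasPred Ψ → MonoPred Ψ → CoupS 𝓜 m S → Seg g 𝓜 Ψ (1 / 2) →
      ∃ F : Set (Fin m → E), MeasurableSet F ∧
        ENNReal.ofReal p ≤ (Measure.pi fun _ : Fin m => gam) F ∧
        ∀ ξ : ℕ → E, (fun i : Fin m => ξ (i + 1) - ξ i) ∈ F →
          Ψ (zoom (S ξ) (ξ 0) (Real.sqrt m)) := by
  have := hC.gam_prob
  have hGp : gam (Metric.closedBall 0 (2 * g.D)) ≠ 0 := gam_ball_pos (by positivity)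
  refine ⟨(2⁻¹ * gam (Metric.closedBall 0 (2 * g.D))).toReal,
    ENNReal.toReal_pos (mul_ne_zero (by simp) hGp)
      (ENNReal.mul_ne_top (by simp) (measure_ne_top _ _)), ?_⟩
  rintro 𝓜 m S Ψ hΨ hΨ' ⟨hm, Θ, h1, h2⟩ hw
  have hGd : MeasurableSet (Metric.closedBall (0 : E) (2 * g.D)) :=
    Metric.isClosed_closedBall.measurableSet
  let F : Set (E × 𝓜.X) := {x | x.1 ∈ Metric.closedBall (0 : E) (2 * g.D) ∧
    Ψ (Set.range fun a => 𝓜.pt a x.1 x.2)}
  have hF : MeasurableSet F := (measurable_fst hGd).inter (meas_own 𝓜 hΨ)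
  refine ⟨_, h1.measurable hF, ?_, fun ξ hξ => ?_⟩
  · rw [h1.measure_preimage hF.nullMeasurableSet, Measure.prod_apply hF,
      ENNReal.ofReal_toReal (ENNReal.mul_ne_top (by simp) (measure_ne_top _ _)),
      ← lintegral_indicator_const hGd]
    refine lintegral_mono fun c => ?_
    by_cases hc : c ∈ Metric.closedBall (0 : E) (2 * g.D)
    · rw [Set.indicator_of_mem hc]
      have h3 := hw c (by simpa using hc)
      have h4 : Prod.mk c ⁻¹' F = {ω : 𝓜.X | ¬ Ψ (Set.range fun a => 𝓜.pt a c ω)}ᶜ := by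
        ext ω
        simp only [F, Set.mem_preimage, Set.mem_ofPred_eq, hc, true_and, Set.mem_compl_iff,
          not_not]
      have hm' : MeasurableSet {ω : 𝓜.X | ¬ Ψ (Set.range fun a => 𝓜.pt a c ω)} :=
        (measurable_prodMk_left (meas_own 𝓜 hΨ)).compl
      rw [h4, prob_compl_eq_one_sub hm']
      refine le_trans (le_of_eq ?_) (tsub_le_tsub_left h3 1)
      rw [one_div, ENNReal.one_sub_inv_two]
    · rw [Set.indicator_of_notMem hc]
      exact zero_le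
  · refine hΨ' _ _ ?_ hξ.2
    rintro _ ⟨a, rfl⟩
    have := h2 ξ a
    rw [← sum_incr] at this
    exact this

end Pool.Agent.MP_037c5a_pr.TL
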