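import Pool.Agent.MP_037c5a_pr.TL.Mark

open MeasureTheory Finset ProbabilityTheory

namespace Pool.Agent.MP_037c5a_pr.TL

/-- start point, and the disc around it when the walk carries a tree -/
def SM (Q : RP) (b m : ℕ) (ξ : ℕ → E) : Set E :=
  {ξ 0} ∪ {p | Tree Q b m ξ ∧ dist p (ξ 0) ≤ Real.sqrt m}

theorem tree_zero (Q : RP) (hD : 0 ≤ Q.P.D) (hM : 0 < Q.M) (ξ : ℕ → E) : Tree Q 0 1 ξ := by
  intro I V _ ι S tm σ hσ _ hmem _
  refine ⟨σ • ξ 0, by rw [dist_self]; positivity, _, hmem 0 (by norm_num), ?_⟩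
  rw [dist_self]
  positivity

theorem tree_succ (Q : RP) (hD : 4 ≤ Q.P.D) (hR : 0 < Q.P.R) (hM : 0 < Q.M)
    (hO : ∀ o ∈ Q.P.O, ‖o‖ ≤ 1 / 2) {b m n : ℕ} (hm : 0 < m)
    (hn : Real.sqrt n = Q.M * (Q.P.R ^ Q.L * Real.sqrt m)) (ξ : ℕ → E) {l : ℕ} (hl : ‖dS l‖ ≤ 1)
    (h : GTP Q.P (Lf Q.P.D) Q.L Q.N
      (zoom (zoom (UU (SM Q b m) m n ξ) (ξ 0) (Real.sqrt n)) (dS l) Q.M⁻¹)) :
    Tree Q (b + 1) n ξ := by
  intro I V _ ι S tm σ hσ hι hmem hmod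
  have hm' : (0 : ℝ) < Real.sqrt m := Real.sqrt_pos.2 (by exact_mod_cast hm)
  have hn0 : (0 : ℝ) ≤ Real.sqrt n := Real.sqrt_nonneg _
  have hRL : 0 < Q.P.R ^ Q.L := pow_pos hR _
  have e : Real.sqrt n * Q.M⁻¹ * Q.P.R⁻¹ ^ Q.L = Real.sqrt m := by
    rw [hn, inv_pow]
    field_simp
  rw [zoom_zoom] at h
  refine ⟨σ • (ξ 0 + Real.sqrt n • dS l), ?_, ?_⟩
  · rw [dist_smul₀, Real.norm_of_nonneg hσ.le, dist_eq_norm, add_sub_cancel_left, norm_smul,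
      Real.norm_of_nonneg hn0]
    exact mul_le_mul_of_nonneg_left (mul_le_of_le_one_right hn0 hl) hσ.le
  rw [mul_assoc]
  refine gb_of_gtp hO σ _ _ _ _ (fun y hy => ?_) h
  rw [e] at hy ⊢
  have hF : (zoom (ξ '' Set.Iic n) y (Real.sqrt m)).Finite := by
    refine ((Set.finite_Iic n).image ξ).preimage (f := fun p : E => y + Real.sqrt m • p) ?_
    intro p _ p' _ hpp
    exact smul_right_injective E hm'.ne' (add_left_cancel hpp)
  obtain ⟨p, ⟨a, ha, hp⟩, hpF, hpn⟩ := lf_finite hF hy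
  rcases hp with hp | ⟨hT, hp⟩
  · exact absurd ⟨0 + a, by simp only [Set.mem_Iic]; omega, hp.symm⟩ hpF
  obtain ⟨x, hx, hG⟩ := hT I V ι S (fun j => tm (j + a)) σ hσ hι
    (fun j hj => hmem _ (by omega)) (fun i j hij hj x => by
      have := hmod (i + a) (j + a) (by omega) (by omega) x
      rwa [Nat.cast_add, Nat.cast_add, add_sub_add_right_eq_sub] at this)
  simp only [zero_add] at hp hx hG
  have hd : dist (σ • ξ a) (σ • y) ≤ (Q.P.D + 3 / 2) * (σ * Real.sqrt m) := by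
    have h1 : dist (y + Real.sqrt m • p) y ≤ Real.sqrt m * (Q.P.D + 1 / 2) := by
      rw [dist_eq_norm, add_sub_cancel_left, norm_smul, Real.norm_of_nonneg hm'.le]
      exact mul_le_mul_of_nonneg_left hpn hm'.le
    have h2 := dist_triangle_left (ξ a) y (y + Real.sqrt m • p)
    have h3 : dist (ξ a) y ≤ (Q.P.D + 3 / 2) * Real.sqrt m := by linarith
    rw [dist_smul₀, Real.norm_of_nonneg hσ.le]
    have := mul_le_mul_of_nonneg_left h3 hσ.le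
    linarith
  have ht : ∀ z : E, dist (ι (tm a) z) (ι (tm 0) z) ≤ σ * Real.sqrt m / 2 := by
    intro z
    refine (hmod 0 a (Nat.zero_le _) (by omega) z).trans ?_
    have h1 : Real.sqrt ((a : ℝ) - (0 : ℕ)) ≤ Real.sqrt n := by
      refine Real.sqrt_le_sqrt ?_
      have : a ≤ n := by omega
      simpa using this
    refine (mul_le_mul_of_nonneg_left (mul_le_mul_of_nonneg_left h1 hσ.le)
      (by positivity)).trans (le_of_eq ?_)
    rw [hn]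
    field_simp
  have hs : 0 < σ * Real.sqrt m := by positivity
  have hDs := mul_le_mul_of_nonneg_right hD hs.le
  refine ⟨⟨_, hmem a (by omega), ?_⟩, tm a, x, ?_, hG⟩
  · have h1 := dist_triangle (ι (tm a) (σ • ξ a)) (ι (tm a) (σ • y)) (ι (tm 0) (σ • y))
    linarith [ht (σ • y), hι (tm a) (σ • ξ a) (σ • y)]
  · have h1 := dist_triangle (ι (tm a) x) (ι (tm a) (σ • y)) (ι (tm 0) (σ • y))
    linarith [ht (σ • y), dist_triangle x (σ • ξ a) (σ • y), hι (tm a) x (σ • y)]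

theorem stmtProbV_of (hE : StmtEnergy) (hc : StmtConc) (hC : StmtChain) (hS : StmtSplit)
    (hM : StmtMom) (hRe : StmtReset) : StmtProbV := by
  intro k hk
  obtain ⟨t, HB⟩ := exists_big k hk
  have hP := HB.parOK (t := t) rfl
  have H := HB.ppOK (t := t) rfl
  generalize pp k t (2 * k * t) = c at hP H
  have hD : 4 ≤ c.g.D := H.s1.mom.hD
  have hR := par_R_pos c H
  have hN : 0 < c.N1 := H.N0.trans_le H.N01
  have hδ : 0 < c.δ := by
    have hπ : 0 ≤ c.πc := (Real.exp_pos _).le.trans H.s1.hπ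
    refine lt_of_lt_of_le ?_ H.f1
    positivity
  obtain ⟨k0, M, hRM, hM0, hM2, hre⟩ := hRe hC c.g (20 * c.N1) c.N1 c.δ c.par.R H.s1.mom.hq0
    H.s1.mom.hq (by linarith) (by omega) (by push_cast; linarith) (by push_cast; exact H.hW) hδ H.δ2
  obtain ⟨L, hL⟩ := pow_unbounded_of_one_lt (M ^ k) (one_lt_two (α := ℝ))
  let Q : RP := ⟨c.par, M, L, c.N1⟩
  have hQ : RPOK k Q := ⟨hP, hRM, by simpa [Q, PP.par, potF] using hL.le⟩
  obtain ⟨p, hp, hF⟩ := prob_of_seg hC (g := c.g) (by linarith)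
  have main : ∀ b : ℕ, ∃ (𝓜 : Model) (m : ℕ) (S : (ℕ → E) → Set E) (Ψ : Set E → Prop),
      MeasPred Ψ ∧ MonoPred Ψ ∧ CoupS 𝓜 m S ∧ Seg c.g 𝓜 Ψ (ENNReal.ofReal c.δ) ∧
      ∀ ξ : ℕ → E, Ψ (zoom (S ξ) (ξ 0) (Real.sqrt m)) → Tree Q b m ξ := by
    intro b
    induction b with
    | zero =>
      exact ⟨baseModel, 1, _, fun _ => True, MeasPred.const _, fun _ _ _ h => h, coupS_base hC,
        fun _ _ => by simp, fun ξ _ => tree_zero Q (by simp only [Q, PP.par]; linarith) hM0 ξ⟩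
    | succ b ih =>
      obtain ⟨𝓜, m, S, Ψ, h1, h2, h3, h4, h5⟩ := ih
      have c1 : CoupS (mark 𝓜 h1) m (SM Q b m) := (coupS_mark h1 h2 h3).mono fun ξ p hp =>
        hp.imp (fun h => h) fun h => ⟨h5 ξ h.1, h.2⟩
      obtain ⟨n, c2, e2⟩ := coupS_tower c H hC hS c1 L
      obtain ⟨c3, e3⟩ := coupS_UU hC hS k0 hM0 hM2 c2
      have m1 := meas_GTP c.par hR (meas_Lf c.g.D) L c.N1
      have m2 := mono_GTP c.par (mono_Lf c.g.D) L c.N1
      have w := win_tower c H hC hM hc hE _ (meas_Lf _) (mono_Lf _) (win_mark h1 h4) L c.N1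
        H.N01 le_rfl
      refine ⟨_, _, _, _, MeasPred.ex fun l => (MeasPred.const _).and
        (m1.zoom (dS l) (inv_pos.2 hM0)), fun T T' hT ⟨l, hl, hl'⟩ =>
          ⟨l, hl, m2.zoom _ _ T T' hT hl'⟩, c3, hre _ _ m1 m2 w, ?_⟩
      rintro ξ ⟨l, hl, hl'⟩
      exact tree_succ Q hD hR hM0 hP.hO h3.1 (by rw [e3, e2]) ξ hl hl'
  refine ⟨Q, hQ, p, hp, fun b => ?_⟩
  obtain ⟨𝓜, m, S, Ψ, h1, h2, h3, h4, h5⟩ := main b
  obtain ⟨F, f1, f2, f3⟩ := hF 𝓜 m S Ψ h1 h2 h3 fun z hz => (h4 z hz).trans (by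
    refine (ENNReal.ofReal_le_ofReal H.δ2).trans (le_of_eq ?_)
    rw [ENNReal.ofReal_div_of_pos (by norm_num)]
    simp)
  exact ⟨m, h3.1, F, f1, f2, fun ξ hξ => h5 ξ (f3 ξ hξ)⟩

end Pool.Agent.MP_037c5a_pr.TL
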