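import Pool.Agent.MP_037c5a_pr.TL.Defs

open MeasureTheory Finset ProbabilityTheory Filter

namespace Pool.Agent.MP_037c5a_pr.TL

namespace Reset

/-- extension by zero -/
noncomputable def ex {n : ℕ} (c : Fin n → E) (i : ℕ) : E := if h : i < n then c ⟨i, h⟩ else 0

/-- the bridge part of a free walk -/
noncomputable def spl {k : ℕ} (c : Fin (k + 1) → E) (l : Fin k) : E :=
  (∑ i ∈ univ.filter (fun i : Fin (k + 1) => i.val ≤ l.val), c i) -
    (((l : ℝ) + 1) / (k + 1)) • ∑ i, c i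

theorem bp_spl {k : ℕ} (Q : E) (c : Fin (k + 1) → E) {l : ℕ} (hl : l ≤ k + 1) :
    bp k 0 Q (spl c) l = ∑ i ∈ range l, ex c i + ((l : ℝ) / (k + 1)) • (Q - ∑ i, c i) := by
  have e : ∀ i : Fin (k + 1),
      ∑ j ∈ range (i + 1), ex c j - ∑ j ∈ range i, ex c j = c i := fun i => by
    rw [sum_range_succ, add_sub_cancel_left, ex, dif_pos i.2]
  have h := bp_split k (fun l => ∑ i ∈ range l, ex c i) l hl
  simp only [e, range_zero, sum_empty, sub_zero] at h
  rw [← h]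
  unfold bp spl
  simp only [zero_add, sub_zero, smul_sub]
  abel

theorem miss (hC : StmtChain) {n J n₀ o : ℕ} (ho : o + J * n₀ ≤ n) (ρ : ℝ) :
    (Measure.pi fun _ : Fin n => gam) {c | ∀ j < J, ∃ i < n₀, ρ < ‖ex c (o + n₀ * j + i)‖} ≤
      (1 - gam (Metric.closedBall 0 ρ) ^ n₀) ^ J := by
  have := hC.gam_prob
  let φ : Fin (J * n₀) → Fin n := fun x => ⟨o + x, by omega⟩
  have hφ : Function.Injective φ := fun x y h => Fin.ext (by
    have := congrArg Fin.val h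
    simpa [φ] using this)
  have h1 : MeasurePreserving (fun (c : Fin n → E) x => c (φ x)) (Measure.pi fun _ => gam)
      (Measure.pi fun _ => gam) := by
    refine ⟨by fun_prop, ?_⟩
    simp only [← Measure.infinitePi_eq_pi]
    exact Measure.map_infinitePi_infinitePi_of_inj (P := fun _ : Fin n => gam) hφ
  obtain ⟨h2, h3⟩ := Fi.blocks_miss J n₀
    (F := Set.univ.pi fun _ => Metric.closedBall (0 : E) ρ)
    (MeasurableSet.univ_pi fun _ => Metric.isClosed_closedBall.measurableSet)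
    (p := gam (Metric.closedBall 0 ρ) ^ n₀) (by rw [Measure.pi_pi]; simp)
  rw [← h1.measure_preimage h2.nullMeasurableSet] at h3
  refine le_trans (measure_mono ?_) h3
  intro c hc j hj
  obtain ⟨i, hi, k⟩ := hc j j.2
  have h4 := mem_closedBall_zero_iff.1 (hj ⟨i, hi⟩ (Set.mem_univ _))
  have h5 : (φ (finProdFinEquiv (j, ⟨i, hi⟩))).val = o + n₀ * j + i := by
    simp only [φ, finProdFinEquiv_apply_val]; omega
  rw [ex, dif_pos (h5 ▸ (φ _).2)] at k
  refine absurd (k.trans_le (le_of_eq_of_le ?_ h4)) (lt_irrefl _)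
  congr 2
  exact Fin.ext h5.symm

theorem slow {k a n₀ N : ℕ} {M D T r : ℝ} {c₀ : E} {c : Fin (k + 1) → E} (hn : 0 < n₀)
    (hM : 1 ≤ M) (hM2 : M ^ 2 = k + 1) (hT : 0 ≤ T) (h0 : ‖c₀‖ ≤ 2 * D) (ha : a + n₀ ≤ N)
    (hN : N ≤ k + 1) (h1 : 4 * n₀ * (2 * D + T) ≤ r * M) (h2 : 4 * N * (D + T) ≤ M)
    (hS : ‖M⁻¹ • ∑ i, c i‖ ≤ T) (hc : ∀ i < N, ‖ex c i‖ ≤ T)
    (hb : ∀ i < n₀, ‖ex c (a + i)‖ ≤ r / (4 * n₀)) :
    (∀ l ≤ n₀, ‖bp k 0 (M • c₀) (spl c) (a + l) - bp k 0 (M • c₀) (spl c) a‖ ≤ r / 2) ∧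
      ‖bp k 0 (M • c₀) (spl c) a‖ ≤ M / 2 := by
  have M0 : 0 < M := by linarith
  have hD : 0 ≤ D := by linarith [norm_nonneg c₀]
  have hn' : (0 : ℝ) < n₀ := by exact_mod_cast hn
  have k1 : ∀ x : ℝ, 0 ≤ x →
      ‖(x / (k + 1)) • (M • c₀ - ∑ i, c i)‖ ≤ x * (2 * D + T) / M := fun x hx => by
    have e : M • c₀ - ∑ i, c i = M • (c₀ - M⁻¹ • ∑ i, c i) := by
      rw [smul_sub, smul_smul, mul_inv_cancel₀ M0.ne', one_smul]
    have e' : x / (k + 1) * M = x / M := by rw [← hM2]; field_simp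
    rw [e, smul_smul, e', norm_smul, Real.norm_of_nonneg (by positivity), div_mul_eq_mul_div]
    gcongr
    exact (norm_sub_le _ _).trans (add_le_add h0 hS)
  have k2 : ∀ (f : ℕ → E) (l : ℕ) (b : ℝ), (∀ i < l, ‖f i‖ ≤ b) →
      ‖∑ i ∈ range l, f i‖ ≤ l * b := fun f l b h => by
    refine (norm_sum_le _ _).trans ((sum_le_card_nsmul _ _ b fun i hi => h i (mem_range.1 hi)).trans ?_)
    simp
  refine ⟨fun l hl => ?_, ?_⟩
  · have hl' : (l : ℝ) ≤ n₀ := by exact_mod_cast hl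
    have r0 : 0 ≤ r / (4 * n₀) := (norm_nonneg _).trans (hb 0 hn)
    rw [bp_spl _ _ (by omega), bp_spl _ _ (by omega), sum_range_add, add_sub_add_comm,
      add_sub_cancel_left, ← sub_smul, ← sub_div, Nat.cast_add, add_sub_cancel_left]
    refine (norm_add_le _ _).trans ?_
    have a1 := k2 (fun i => ex c (a + i)) l _ fun i hi => hb i (by omega)
    have a2 := k1 l (Nat.cast_nonneg l)
    have a3 : l * (r / (4 * n₀)) ≤ r / 4 :=
      (mul_le_mul_of_nonneg_right hl' r0).trans_eq (by field_simp)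
    have a4 : l * (2 * D + T) / M ≤ r / 4 := by
      rw [div_le_iff₀ M0]
      nlinarith [mul_le_mul_of_nonneg_right hl' (show 0 ≤ 2 * D + T by positivity)]
    linarith
  · have ha' : (a : ℝ) ≤ N := by exact_mod_cast (by omega : a ≤ N)
    rw [bp_spl _ _ (by omega)]
    refine (norm_add_le _ _).trans ?_
    have a1 := k2 (ex c) a T fun i hi => hc i (by omega)
    have a2 := (k1 a (Nat.cast_nonneg a)).trans (div_le_self (by positivity) hM)
    nlinarith [mul_le_mul_of_nonneg_right ha' (show 0 ≤ D + T by positivity)]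

theorem fam (hM : StmtMom) {g : Glob} {n₀ k a : ℕ} {h M r : ℝ} (hq0 : 1 ≤ g.q0)
    (hq : 4 * g.q0 ≤ g.q) (hD : 1 ≤ g.D) (hh : h ≤ n₀ / 20) (hW : (n₀ : ℝ) ≤ g.W) (r0 : 0 < r)
    (r1 : r ≤ 1) (r2 : r ^ 2 = (g.q0 : ℝ) / g.q) (M1 : 1 ≤ M) (ha : a + n₀ ≤ k + 1) {b : ℕ → E}
    (hb : (∀ l ≤ n₀, ‖b (a + l) - b a‖ ≤ r / 2) ∧ ‖b a‖ ≤ M / 2) :
    ∃ (n : ℕ) (s : Finset (Fin (k + 1))), ‖dS n‖ ≤ 1 ∧ (∀ l ∈ s, a ≤ l.val ∧ l.val < a + n₀) ∧
      OK g s (fun l => b l - M • dS n) (fun l => b (l + 1) - M • dS n) h := by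
  have M0 : 0 < M := by linarith
  obtain ⟨n, hn⟩ := (TopologicalSpace.denseRange_denseSeq E).exists_dist_lt (M⁻¹ • b a)
    (show 0 < r / (2 * M) by positivity)
  have k1 : ‖b a - M • dS n‖ ≤ r / 2 := by
    have e : b a - M • dS n = M • (M⁻¹ • b a - dS n) := by
      rw [smul_sub, smul_smul, mul_inv_cancel₀ M0.ne', one_smul]
    rw [e, norm_smul, Real.norm_of_nonneg M0.le, ← dist_eq_norm]
    exact (mul_le_mul_of_nonneg_left hn.le M0.le).trans_eq (by field_simp)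
  have k2 : ∀ l ≤ n₀, ‖b (a + l) - M • dS n‖ ≤ r := fun l hl => by
    have := norm_add_le (b (a + l) - b a) (b a - M • dS n)
    rw [sub_add_sub_cancel] at this
    linarith [hb.1 l hl]
  let φ : Fin n₀ ↪ Fin (k + 1) := ⟨fun i => ⟨a + i, by omega⟩, fun x y h => Fin.ext (by
    have := congrArg Fin.val h
    simpa using this)⟩
  have k3 : ∀ l ∈ univ.map φ, ‖b l - M • dS n‖ ≤ r ∧ ‖b (l + 1) - M • dS n‖ ≤ r := fun l hl => by
    obtain ⟨i, -, rfl⟩ := mem_map.1 hl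
    exact ⟨k2 i i.2.le, k2 (i + 1) i.2⟩
  refine ⟨n, univ.map φ, ?_, fun l hl => ?_,
    fun l hl => ⟨(k3 l hl).1.trans (r1.trans hD), (k3 l hl).2.trans (r1.trans hD)⟩,
    by simpa using hW, hh.trans ?_⟩
  · have := norm_sub_norm_le (M • dS n) (b a)
    rw [norm_sub_rev, norm_smul, Real.norm_of_nonneg M0.le] at this
    exact le_of_mul_le_mul_left (by linarith [hb.2]) M0
  · obtain ⟨i, -, rfl⟩ := mem_map.1 hl
    exact ⟨Nat.le_add_right a i, Nat.add_lt_add_left i.2 a⟩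
  · refine le_trans ?_ (card_nsmul_le_sum _ _ (1 / 20) fun l hl =>
      hM.gk_lb _ _ _ _ hq0 hq ?_ ?_)
    · simp [div_eq_mul_inv]
    · rw [← r2]; exact pow_le_pow_left₀ (norm_nonneg _) (k3 l hl).1 2
    · rw [← r2]; exact pow_le_pow_left₀ (norm_nonneg _) (k3 l hl).2 2

end Reset

open Reset

theorem reset_of (hM : StmtMom) (hS : StmtSplit) : StmtReset := by
  intro hC g n₀ h δ M₀ hq0 hq hD hn hh hW hδ hδ1
  have := hC.gam_prob
  have hq0' : (1 : ℝ) ≤ g.q0 := by exact_mod_cast hq0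
  have hq' : (4 : ℝ) * g.q0 ≤ g.q := by exact_mod_cast hq
  have hn' : (0 : ℝ) < n₀ := by exact_mod_cast hn
  set r : ℝ := Real.sqrt ((g.q0 : ℝ) / g.q) with hr
  have hr0 : 0 < r := Real.sqrt_pos.2 (div_pos (by linarith) (by linarith))
  have hr2 : r ^ 2 = (g.q0 : ℝ) / g.q := Real.sq_sqrt (by positivity)
  have hr1 : r ≤ 1 := Real.sqrt_le_one.2 (by rw [div_le_one (by linarith)]; linarith)
  obtain ⟨J, hJ⟩ : ∃ J : ℕ, (1 - gam (Metric.closedBall 0 (r / (4 * n₀))) ^ n₀) ^ J ≤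
      ENNReal.ofReal (δ / 8) :=
    ((ENNReal.tendsto_pow_atTop_nhds_zero_of_lt_one (ENNReal.sub_lt_self ENNReal.one_ne_top
      one_ne_zero (pow_ne_zero _ (gam_ball_pos (by positivity))))).eventually
      (ge_mem_nhds (ENNReal.ofReal_pos.2 (by positivity)))).exists
  set N := 2 * (J * n₀) with hN
  obtain ⟨T, hT, T0⟩ : ∃ T : ℝ, gam {x | T < ‖x‖} ≤ ENNReal.ofReal (δ / (8 * (N + 1))) ∧ 0 ≤ T := by
    have t := tendsto_measure_norm_gt_of_isTightMeasureSet
      (isTightMeasureSet_singleton (μ := gam))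
    simp only [Set.mem_singleton_iff, iSup_iSup_eq_left] at t
    exact ((t.eventually (ge_mem_nhds (ENNReal.ofReal_pos.2 (by positivity)))).and
      (eventually_ge_atTop 0)).exists
  obtain ⟨u, hu⟩ := exists_nat_ge
    (max (max M₀ 1) (max (4 * n₀ * (2 * g.D + T) / r) (4 * N * (g.D + T))))
  simp only [max_le_iff] at hu
  obtain ⟨⟨u0, u1⟩, u2, u3⟩ := hu
  have u1' : 1 ≤ u := by exact_mod_cast u1
  obtain ⟨k, hk⟩ : ∃ k, u ^ 2 = k + 1 := ⟨u ^ 2 - 1, by have := Nat.one_le_pow 2 u u1'; omega⟩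
  have hk' : (u : ℝ) ^ 2 = k + 1 := by exact_mod_cast hk
  have hNk : N ≤ k + 1 := by
    have : (N : ℝ) ≤ k + 1 := by nlinarith [Nat.cast_nonneg (α := ℝ) N]
    exact_mod_cast this
  have M0 : (0 : ℝ) < u := by linarith
  refine ⟨k, u, u0, M0, hk', fun 𝓜 Φ hΦ hΦ' hw c₀ hc₀ => ?_⟩
  have := hC.nu_prob k
  set Ψ : Set E → Prop := fun T => ∃ n : ℕ, ‖dS n‖ ≤ 1 ∧ Φ (zoom T (dS n) (u : ℝ)⁻¹) with hΨ
  have mΨ : MeasPred Ψ :=
    MeasPred.ex fun n => (MeasPred.const _).and (hΦ.zoom _ (inv_pos.2 M0))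
  have mS : MeasurableSet {ω : (Fin k → E) × (Fin (k + 1) → 𝓜.X) |
      ¬ Ψ (Set.range fun a => (refine hC k u 𝓜).pt a c₀ ω)} := by
    refine (mΨ _ _ _ fun x ρ => ?_).compl
    simp only [Hit, Set.exists_range_iff, Set.ofPred_exists]
    exact MeasurableSet.iUnion fun a => measurableSet_le (Measurable.dist
      (((refine hC k u 𝓜).meas a).comp (f := fun ω => (c₀, ω)) measurable_prodMk_left)
      measurable_const) measurable_const
  have mp : MeasurePreserving spl (Measure.pi fun _ : Fin (k + 1) => gam) (nu k) :=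
    measurePreserving_snd.comp (hS k u M0 hk')
  have mp1 : MeasurePreserving (fun c : Fin (k + 1) → E => (u : ℝ)⁻¹ • ∑ i, c i)
      (Measure.pi fun _ : Fin (k + 1) => gam) gam :=
    measurePreserving_fst.comp (hS k u M0 hk')
  have mp2 := mp.prod (MeasurePreserving.id (Measure.pi fun _ : Fin (k + 1) => 𝓜.μ))
  have mT : MeasurableSet {x : E | T < ‖x‖} := measurableSet_lt measurable_const measurable_norm
  let B : ℕ → Set (Fin (k + 1) → E) := fun o =>
    {c | ∀ j < J, ∃ i < n₀, r / (4 * n₀) < ‖ex c (o + n₀ * j + i)‖}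
  let Bad : Set (Fin (k + 1) → E) := (B 0 ∪ B (J * n₀)) ∪
    ({c | T < ‖(u : ℝ)⁻¹ • ∑ i, c i‖} ∪ ⋃ i ∈ range N, {c | T < ‖ex c i‖})
  have pBad : (Measure.pi fun _ : Fin (k + 1) => gam) Bad ≤ ENNReal.ofReal (δ / 2) := by
    have a1 := (miss hC (n := k + 1) (J := J) (n₀ := n₀) (o := 0) (by omega) _).trans hJ
    have a2 := (miss hC (n := k + 1) (J := J) (n₀ := n₀) (o := J * n₀) (by omega) _).trans hJ
    have a3 := (mp1.measure_preimage mT.nullMeasurableSet).trans_le hT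
    have a4 : (Measure.pi fun _ : Fin (k + 1) => gam) (⋃ i ∈ range N, {c | T < ‖ex c i‖}) ≤
        ENNReal.ofReal (N * (δ / (8 * (N + 1)))) := by
      refine (measure_biUnion_finset_le _ _).trans ((sum_le_card_nsmul _ _
        (ENNReal.ofReal (δ / (8 * (N + 1)))) fun i hi => ?_).trans ?_)
      · have hi' : i < k + 1 := (mem_range.1 hi).trans_le hNk
        simp only [ex, dif_pos hi']
        exact ((measurePreserving_eval (fun _ : Fin (k + 1) => gam) ⟨i, hi'⟩).measure_preimage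
          mT.nullMeasurableSet).trans_le hT
      · rw [card_range, nsmul_eq_mul, ENNReal.ofReal_mul (Nat.cast_nonneg _),
          ENNReal.ofReal_natCast]
    refine (measure_union_le _ _).trans ((add_le_add
      ((measure_union_le _ _).trans (add_le_add a1 a2))
      ((measure_union_le _ _).trans (add_le_add a3 a4))).trans ?_)
    rw [← ENNReal.ofReal_add (by positivity) (by positivity),
      ← ENNReal.ofReal_add (by positivity) (by positivity),
      ← ENNReal.ofReal_add (by positivity) (by positivity)]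
    refine ENNReal.ofReal_le_ofReal ?_
    have : δ / (8 * (N + 1)) + N * (δ / (8 * (N + 1))) = δ / 8 := by field_simp; ring
    linarith
  have sec : ∀ c, c ∉ Bad → (Measure.pi fun _ : Fin (k + 1) => 𝓜.μ)
      {ω | ¬ Ψ (Set.range fun a => (refine hC k u 𝓜).pt a c₀ (spl c, ω))} ≤
        ENNReal.ofReal δ ^ 2 := by
    intro c hc
    simp only [Bad, B, Set.mem_union, Set.mem_iUnion, Set.mem_ofPred_eq, not_or, not_forall,
      not_exists, not_and, not_lt, mem_range] at hc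
    obtain ⟨⟨⟨j, hj, b1⟩, j', hj', b2⟩, b3, b4⟩ := hc
    have e1 : n₀ * j + n₀ ≤ J * n₀ := by nlinarith
    have e2 : n₀ * j' + n₀ ≤ J * n₀ := by nlinarith
    have u2' : 4 * n₀ * (2 * g.D + T) ≤ r * u := by rwa [div_le_iff₀' hr0] at u2
    have key : ∀ t : Bool, ∃ (n : ℕ) (s : Finset (Fin (k + 1))), ‖dS n‖ ≤ 1 ∧
        (∀ l ∈ s, (l.val < J * n₀ ↔ t = true)) ∧
        OK g s (fun l => bp k 0 ((u : ℝ) • c₀) (spl c) l - (u : ℝ) • dS n)
          (fun l => bp k 0 ((u : ℝ) • c₀) (spl c) (l + 1) - (u : ℝ) • dS n) h := by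
      intro t
      cases t
      · obtain ⟨n, s, k₁, k₂, k₃⟩ := fam hM hq0 hq hD hh hW hr0 hr1 hr2 u1
          (a := J * n₀ + n₀ * j') (k := k) (by omega)
          (slow hn u1 hk' T0 hc₀ (by omega) hNk u2' u3 b3 b4 b2)
        exact ⟨n, s, k₁, fun l hl => by have := k₂ l hl; simp; omega, k₃⟩
      · obtain ⟨n, s, k₁, k₂, k₃⟩ := fam hM hq0 hq hD hh hW hr0 hr1 hr2 u1
          (a := 0 + n₀ * j) (k := k) (by omega)
          (slow hn u1 hk' T0 hc₀ (by omega) hNk u2' u3 b3 b4 b1)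
        exact ⟨n, s, k₁, fun l hl => by have := k₂ l hl; simp; omega, k₃⟩
    choose n s k₁ k₂ k₃ using key
    have h2 := pi_inter_le 𝓜 s _ _ hΦ (ENNReal.ofReal δ) univ
      (fun t _ t' _ hne => Finset.disjoint_left.2 fun l a b =>
        hne (Bool.eq_iff_iff.2 ((k₂ t l a).symm.trans (k₂ t' l b))))
      fun t _ => hw _ _ _ _ (k₃ t)
    rw [card_univ, Fintype.card_bool] at h2
    refine le_trans (measure_mono fun ω hω => Set.mem_iInter₂.2 fun t _ hω' =>
      hω ⟨n t, k₁ t, hΦ' _ _ ?_ hω'⟩) h2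
    rintro _ ⟨l, -, a, rfl⟩
    refine ⟨(l, a), ?_⟩
    simp only [refine, sub_sub_sub_cancel_right, smul_add, smul_sub, smul_smul,
      inv_mul_cancel₀ M0.ne', one_smul]
    abel
  refine le_trans (mp2.measure_preimage mS.nullMeasurableSet).ge ?_
  rw [Measure.prod_apply (mp2.measurable mS)]
  calc _ ≤ ∫⁻ c, (Bad.indicator 1 c + ENNReal.ofReal δ ^ 2)
        ∂(Measure.pi fun _ : Fin (k + 1) => gam) := by
        refine lintegral_mono fun c => ?_
        by_cases hc : c ∈ Bad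
        · simp only [Set.indicator_of_mem hc, Pi.one_apply]
          exact le_add_right prob_le_one
        · simp only [Set.indicator_of_notMem hc, zero_add]
          exact sec c hc
    _ ≤ ENNReal.ofReal (δ / 2) + ENNReal.ofReal δ ^ 2 := by
        rw [lintegral_add_right _ measurable_const, lintegral_const, measure_univ, mul_one]
        exact add_le_add ((lintegral_indicator_one_le _).trans pBad) le_rfl
    _ ≤ _ := by
        rw [← ENNReal.ofReal_pow hδ.le, ← ENNReal.ofReal_add (by positivity) (by positivity)]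
        exact ENNReal.ofReal_le_ofReal (by nlinarith)

end Pool.Agent.MP_037c5a_pr.TL
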