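import Pool.Agent.MP_037c5a_pr.TL.Defs
import Pool.Agent.Mg.S19113.G1a02ef

open MeasureTheory Finset ProbabilityTheory

namespace Pool.Agent.MP_037c5a_pr.TL

/-- one ordinary level above the predicates `Φ n` -/
def Stp (P : Par) (Φ : ℕ → Set E → Prop) (N : ℕ) (T : Set E) : Prop :=
  ∃ o : P.O, GridP P.K Φ P.pot (P.tau * P.pot N) o (8 * P.D / P.R) P.R⁻¹ T ∨
    ∃ N' : ℕ, Φ N' (zoom T o P.R⁻¹) ∧ P.G * P.pot N ≤ P.pot N'

/-- `L` ordinary levels above the leaf predicate `Φ` -/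
def GTP (P : Par) (Φ : Set E → Prop) : ℕ → ℕ → Set E → Prop
  | 0 => fun _ => Φ
  | L + 1 => Stp P (GTP P Φ L)

theorem meas_Stp (P : Par) (hR : 0 < P.R) {Φ : ℕ → Set E → Prop} (h : ∀ n, MeasPred (Φ n))
    (N : ℕ) : MeasPred (Stp P Φ N) :=
  MeasPred.ex fun _ => MeasPred.or (measPred_grid _ h _ _ _ _ (inv_pos.2 hR))
    (MeasPred.ex fun N' => ((h N').zoom _ (inv_pos.2 hR)).and (MeasPred.const _))

theorem mono_Stp (P : Par) {Φ : ℕ → Set E → Prop} (h : ∀ n, MonoPred (Φ n)) (N : ℕ) :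
    MonoPred (Stp P Φ N) :=
  fun T T' hT ⟨o, ho⟩ => ⟨o, ho.imp (monoPred_grid _ h _ _ _ _ _ T T' hT)
    fun ⟨n, hn, hn'⟩ => ⟨n, (h n).zoom _ _ T T' hT hn, hn'⟩⟩

theorem meas_GTP (P : Par) (hR : 0 < P.R) {Φ : Set E → Prop} (h : MeasPred Φ) :
    ∀ L N, MeasPred (GTP P Φ L N)
  | 0, _ => h
  | L + 1, N => meas_Stp P hR (meas_GTP P hR h L) N

theorem mono_GTP (P : Par) {Φ : Set E → Prop} (h : MonoPred Φ) : ∀ L N, MonoPred (GTP P Φ L N)
  | 0, _ => h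
  | L + 1, N => mono_Stp P (mono_GTP P h L) N

theorem win_step (c : PP) (H : PPOK c) (hC : StmtChain) (hM : StmtMom) (hc : StmtConc)
    (hE : StmtEnergy) (𝓜 : Model) {Φ : ℕ → Set E → Prop} (hΦ : ∀ n, MeasPred (Φ n))
    (hΦ' : ∀ n, MonoPred (Φ n))
    (ih : ∀ N : ℕ, c.N00 ≤ N → N ≤ c.N1 → Win c.g 𝓜 (Φ N) N (ENNReal.ofReal c.δ))
    (N : ℕ) (h0 : c.N00 ≤ N) (h1 : N ≤ c.N1) :
    Win c.g (refine hC c.k1 c.M1 (refine hC c.k2 c.M2 (refine hC c.k3 c.M3 𝓜)))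
      (Stp c.par Φ N) N (ENNReal.ofReal c.δ) := by
  have hM1 := H.s1.mom.hM
  have hM2 := H.s2.mom.hM
  have hM3 := H.s3.mom.hM
  have hD : 0 < c.g.D := by linarith [H.s1.mom.hD]
  have hR : 0 < c.par.R := by simp only [PP.par]; positivity
  have h0' : (c.N00 : ℝ) ≤ N := by exact_mod_cast h0
  have h1' : (N : ℝ) ≤ c.N1 := by exact_mod_cast h1
  have hy := H.y0
  have hl := H.loss0
  have hl0 := H.hl0
  have he := H.he
  have hπ : 0 ≤ c.πc := (Real.exp_pos _).le.trans H.s1.hπ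
  have hδ := H.δ0
  have hp0 : Real.exp (-(4 * c.lam ^ 2 * c.V)) ≤ 1 := by
    rw [Real.exp_le_one_iff, neg_nonpos]
    have := H.s3.V0
    positivity
  have hp1 := Real.exp_pos (-(4 * c.lam ^ 2 * c.V))
  let Φ3 : Set E → Prop := fun T =>
    GridP c.K Φ (potF c.N1 c.κ) (c.par.tau * potF c.N1 c.κ N) 0 (8 * c.g.D / c.M3) c.M3⁻¹ T ∨
      ∃ N', Φ N' (zoom T 0 c.M3⁻¹) ∧ c.G * potF c.N1 c.κ N ≤ potF c.N1 c.κ N'
  have hΦ3 : MeasPred Φ3 := (measPred_grid _ hΦ _ _ _ _ (inv_pos.2 hM3)).or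
    (MeasPred.ex fun n => ((hΦ n).zoom 0 (inv_pos.2 hM3)).and (MeasPred.const _))
  have hΦ3' : MonoPred Φ3 := fun T T' hT h => h.imp (monoPred_grid _ hΦ' _ _ _ _ _ T T' hT)
    fun ⟨n, hn, hn'⟩ => ⟨n, (hΦ' n).zoom _ _ T T' hT hn, hn'⟩
  have w3 : Win c.g (refine hC c.k3 c.M3 𝓜) Φ3 (N - 2 * (c.loss + c.y))
      (ENNReal.ofReal (1 - Real.exp (-(4 * c.lam ^ 2 * c.V)) / 8)) := by
    rcases le_total (c.κ * ((c.N1 : ℝ) - N)) c.θ with hm | hm
    · refine (stage_cond hC hM hc hE H.s3 _ hΦ hΦ' ih (e := c.e) (hmax := c.hmax)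
        (d := 8 * c.g.D / c.M3) H.K1 (by linarith)
        (by linarith) H.κ0.le h1 hm (by linarith) (by linarith) ?_ H.hm0 H.hmb H.hθb H.hL
        fun i hi j hj => ?_).mono (fun T hT => Or.inl hT) ?_
      · have := le_of_mul_le_mul_left (hm.trans H.hθ) H.κ0
        linarith
      · have a1 := norm_gridPt_le i j
        have a2 : (i : ℝ) ≤ c.K := by exact_mod_cast hi
        have a3 : (j : ℝ) ≤ c.K := by exact_mod_cast hj
        rw [norm_smul, Real.norm_of_nonneg (by positivity)]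
        have h3 : 8 * c.g.D / c.M3 * ‖gridPt i j‖ ≤ 8 * c.g.D / c.M3 * (2 * c.K) :=
          mul_le_mul_of_nonneg_left (by linarith) (by positivity)
        refine (add_le_add_left h3 _).trans ?_
        rw [div_mul_eq_mul_div, ← add_div, div_le_iff₀ hM3]
        linarith [H.r3]
      · rw [← ENNReal.ofReal_natCast, ← ENNReal.ofReal_mul (by positivity),
          ← ENNReal.ofReal_mul (by positivity), ← ENNReal.ofReal_add (by positivity)
          (by positivity), ← ENNReal.ofReal_add (by positivity) (by positivity)]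
        exact ENNReal.ofReal_le_ofReal (by linarith [H.f3b])
    · refine (stage_tele hC hM hc H.s3 _ hΦ hΦ' ih (e := c.e) (by linarith) (by linarith)
        H.κ0.le h0 h1 hm (by linarith) H.Δ0 H.hκΔ H.hG ?_ H.lam0 H.hlb H.hp
        (show (c.N00 : ℝ) - 2 * (c.loss + c.y) ≤ _ by linarith) H.hc3 H.hVl H.hgain).mono
        (fun T hT => Or.inr hT) ?_
      · rw [div_le_iff₀ hM3]
        have : 0 ≤ 16 * (c.K : ℝ) * c.g.D := by positivity
        linarith [H.r3]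
      · rw [← ENNReal.ofReal_add (by linarith) hπ, ← ENNReal.ofReal_add (by linarith) hδ]
        exact ENNReal.ofReal_le_ofReal (by linarith [H.f3a])
  have w2 := (spread hC hM hc H.s2 _ hΦ3 hΦ3' (h := N - (c.loss + c.y)) (by linarith)
    (by linarith) hy (by linarith) (ENNReal.ofReal_le_one.2 (by linarith)) w3 c.J2 H.J2
    (fun j => row c.g.D c.M2 j) (row_bd hD hM2 H.r2)
    (fun j j' h => row_sep hD hM2 (Fin.val_ne_of_ne h))).mono (fun _ h => h)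
    (δ' := ENNReal.ofReal (1 / 2)) (by
      rw [← ENNReal.ofReal_pow (by linarith), ← ENNReal.ofReal_ofNat 2,
        ← ENNReal.ofReal_mul (by positivity), ← ENNReal.ofReal_add (by positivity)
        (pow_nonneg (by linarith) _)]
      exact ENNReal.ofReal_le_ofReal H.f2)
  have w1 := (spread hC hM hc H.s1 _
    (MeasPred.ex fun j : Fin (2 * c.J2) => hΦ3.zoom (row c.g.D c.M2 j) (inv_pos.2 hM2))
    (fun T T' hT ⟨j, hj⟩ => ⟨j, hΦ3'.zoom _ _ T T' hT hj⟩) (h := N) (by linarith)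
    h1' hy (by linarith) (ENNReal.ofReal_le_one.2 (by norm_num)) w2 c.J1 H.J1
    (fun j => row c.g.D c.M1 j) (row_bd hD hM1 H.r1)
    (fun j j' h => row_sep hD hM1 (Fin.val_ne_of_ne h))).mono (fun _ h => h)
    (δ' := ENNReal.ofReal c.δ) (by
      rw [← ENNReal.ofReal_pow (by linarith), ← ENNReal.ofReal_ofNat 2,
        ← ENNReal.ofReal_mul (by positivity), ← ENNReal.ofReal_add (by positivity)
        (by positivity)]
      exact ENNReal.ofReal_le_ofReal H.f1)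
  refine w1.mono ?_ le_rfl
  rintro T ⟨j1, j2, hT⟩
  refine ⟨⟨row c.g.D c.M1 j1 + c.M1⁻¹ • row c.g.D c.M2 j2,
    mem_image.2 ⟨(j1, j2), mem_univ _, rfl⟩⟩, ?_⟩
  have eR : c.M1⁻¹ * c.M2⁻¹ * c.M3⁻¹ = c.par.R⁻¹ := by simp only [PP.par, mul_inv]
  rcases hT with ⟨n, a1, a2⟩ | ⟨N', a1, a2⟩
  · refine Or.inl ⟨n, fun i hi j hj => ?_, a2⟩
    have := a1 i hi j hj
    rw [zoom_zoom, zoom_zoom, ← mul_assoc, eR, zero_add, smul_add, smul_smul, smul_smul,
      ← add_assoc] at this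
    convert this using 4
    simp only [PP.par]
    field_simp
  · refine Or.inr ⟨N', ?_, a2⟩
    rw [zoom_zoom, zoom_zoom, ← mul_assoc, eR, smul_zero, add_zero] at a1
    exact a1

/-- `L` ordinary levels above the model `𝓜` -/
noncomputable def tower (c : PP) (hC : StmtChain) (𝓜 : Model) : ℕ → Model
  | 0 => 𝓜
  | L + 1 => refine hC c.k1 c.M1 (refine hC c.k2 c.M2 (refine hC c.k3 c.M3 (tower c hC 𝓜 L)))

theorem par_R_pos (c : PP) (H : PPOK c) : 0 < c.par.R := by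
  have hM1 := H.s1.mom.hM
  have hM2 := H.s2.mom.hM
  have hM3 := H.s3.mom.hM
  simp only [PP.par]; positivity

theorem win_tower (c : PP) (H : PPOK c) (hC : StmtChain) (hM : StmtMom) (hc : StmtConc)
    (hE : StmtEnergy) (𝓜 : Model) {Φ : Set E → Prop} (hΦ : MeasPred Φ) (hΦ' : MonoPred Φ)
    (h : ∀ h : ℝ, 0 < h → Win c.g 𝓜 Φ h (ENNReal.ofReal c.δ)) :
    ∀ L N : ℕ, c.N00 ≤ N → N ≤ c.N1 →
      Win c.g (tower c hC 𝓜 L) (GTP c.par Φ L N) N (ENNReal.ofReal c.δ)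
  | 0, N, h0, _ => h N (by exact_mod_cast H.N0.trans_le h0)
  | L + 1, N, h0, h1 => win_step c H hC hM hc hE _ (meas_GTP _ (par_R_pos c H) hΦ L)
      (mono_GTP _ hΦ' L) (win_tower c H hC hM hc hE 𝓜 hΦ hΦ' h L) N h0 h1

/-- from zoomed planar sets to blocks in absolute coordinates, rescaled by `σ` -/
theorem gb_of_gtp {P : Par} (hO : ∀ o ∈ P.O, ‖o‖ ≤ 1 / 2) {Φ : Set E → Prop}
    {leaf : E → ℝ → Prop} {T : Set E} (σ : ℝ) :
    ∀ (L N : ℕ) (y : E) (ρ : ℝ),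
      (∀ y' : E, Φ (zoom T y' (ρ * P.R⁻¹ ^ L)) → leaf (σ • y') (σ * (ρ * P.R⁻¹ ^ L))) →
      GTP P Φ L N (zoom T y ρ) → GB P leaf L (σ • y) (σ * ρ) N
  | 0, N, y, ρ, hl, h => by
    have := hl y (by simpa [GTP] using h)
    simpa [GB] using this
  | L + 1, N, y, ρ, hl, ⟨o, h⟩ => by
    have e : ρ * P.R⁻¹ ^ (L + 1) = ρ * P.R⁻¹ * P.R⁻¹ ^ L := by ring
    rw [e] at hl
    have key : ∀ (v : E) (n : ℕ), GTP P Φ L n (zoom (zoom T y ρ) v P.R⁻¹) →
        GB P leaf L (σ • y + (σ * ρ) • v) (σ * ρ * P.R⁻¹) n := by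
      intro v n hv
      rw [zoom_zoom] at hv
      have := gb_of_gtp hO σ L n _ _ hl hv
      rwa [smul_add, smul_smul, ← mul_assoc] at this
    refine ⟨o, hO _ o.2, ?_⟩
    rcases h with ⟨n, h1, h2⟩ | ⟨N', h1, h2⟩
    · exact Or.inl ⟨n, fun a ha b hb => key _ _ (h1 a ha b hb), h2⟩
    · exact Or.inr ⟨N', key _ _ h1, h2⟩

end Pool.Agent.MP_037c5a_pr.TL
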